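import Pool.Agent.H60.BS.EBas

/-!
# Bt: bounds along a filter (about 100 lines)

SETTING. `𝒰` is a filter of paths and `hinf`: there are arbitrarily large `k` with
`∀ᶠ P in 𝒰, k ∈ S.e P δ`.

PROOF of `bt_bdd` (strong induction on `m`). Choose bounds for all `m' < m` and let `N0` be their
maximum. Let `J = max N0 (m+1)` and take `k ≥ h δ J` with `k ∈ S.e P δ` for most `P`; let `j ≥ J` be
its block (`block`). For most `P` (intersection of finitely many events): `S.mem_e` gives a block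
`j'`, `j' = j` by `block_unique`, so `Bk P δ j k`. Moreover `mj ≥ m`: otherwise `m' = mj < m` has
`m' < j` and `bd δ (sg (lad δ m') P) j` (`bd_mono`), contradicting `mj_spec`. If `mj = m` the first
part of `Bk` gives `bd δ (sg (lad δ m) P) (h δ (j+1))`; if `mj > m` use `of_lt_mj` and
`j ≤ h δ j ≤ h δ (j+1)`. So `N = h δ (j+1)`.

PROOF of `mj_large`. Bounds `N` for all `m' ≤ m`; `J = max N (m+1)`; if `j ≥ J` and `mj ≤ m` then
`mj_spec` is contradicted.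

PROOF of `labels`. Let `ζ < lad δ m`. With `mj_large` get `J0`. Let
`J' = max (max J0 J) (D (lad δ) ζ + 1)`, take `k ≥ h δ J'` with `k ∈ S.e P δ` for most `P` and its
block `j ≥ J'`. For most `P`: `Bk P δ j k` and `m < mj`, so `Lv P δ j k ζ`; `N = h δ (j+1)`.
-/

set_option autoImplicit false

open Set Filter

namespace Pool.Agent.H60.BS

variable {Ω : Type} [OmType Ω]

theorem bt_bdd (S : Pre Ω) {𝒰 : Filter (Path Ω)} {δ : Ω}
    (hinf : ∀ J : ℕ, ∃ k, J ≤ k ∧ ∀ᶠ P in 𝒰, k ∈ S.e P δ) (m : ℕ) :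
    ∃ N, ∀ᶠ P in 𝒰, S.bd δ (sg (S.lad δ m) P) N := by
  induction m using Nat.strong_induction_on with
  | _ m ih =>
    have h0 : ∃ N0, ∀ m', m' < m → ∀ᶠ P in 𝒰, S.bd δ (sg (S.lad δ m') P) N0 := by
      choose! F hF using ih
      refine ⟨(Finset.range m).sup F, fun m' hm' => ?_⟩
      filter_upwards [hF m' hm'] with P hP
      exact bd_mono S hP (Finset.le_sup (f := F) (Finset.mem_range.2 hm'))
    obtain ⟨N0, hN0⟩ := h0
    obtain ⟨k, hk, hkP⟩ := hinf (S.h δ (max N0 (m + 1)))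
    obtain ⟨j, hj, hj1, hj2⟩ := block S δ hk
    refine ⟨S.h δ (j + 1), ?_⟩
    have hall : ∀ᶠ P in 𝒰, ∀ m' ∈ Set.Iio m, S.bd δ (sg (S.lad δ m') P) N0 :=
      (Filter.eventually_all_finite (Set.finite_Iio m)).2 hN0
    filter_upwards [hkP, hall] with P hP hA
    rw [S.mem_e] at hP
    obtain ⟨hL, hl0, j', hj1', hj2', hB1, hB2⟩ := hP
    obtain rfl := block_unique S δ hj1 hj2 hj1' hj2'
    have hmj : m ≤ S.mj P δ j := by
      by_contra hc
      push Not at hc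
      rcases mj_spec S P δ j with h1 | h1
      · have := le_max_right N0 (m + 1)
        omega
      · exact h1 (bd_mono S (hA _ hc) ((le_max_left _ _).trans hj))
    rcases hmj.eq_or_lt with h1 | h1
    · rw [h1]
      exact hB1
    · refine bd_mono S (of_lt_mj S P δ h1).2 ?_
      exact (le_h S δ j).trans ((S.h_mono δ).monotone (Nat.le_succ j))

theorem mj_large (S : Pre Ω) {𝒰 : Filter (Path Ω)} {δ : Ω}
    (hinf : ∀ J : ℕ, ∃ k, J ≤ k ∧ ∀ᶠ P in 𝒰, k ∈ S.e P δ) (m : ℕ) :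
    ∃ J, ∀ᶠ P in 𝒰, ∀ j, J ≤ j → m < S.mj P δ j := by
  have h0 : ∃ N0, ∀ m', m' < m + 1 → ∀ᶠ P in 𝒰, S.bd δ (sg (S.lad δ m') P) N0 := by
    choose F hF using bt_bdd S hinf
    refine ⟨(Finset.range (m + 1)).sup F, fun m' hm' => ?_⟩
    filter_upwards [hF m'] with P hP
    exact bd_mono S hP (Finset.le_sup (f := F) (Finset.mem_range.2 hm'))
  obtain ⟨N0, hN0⟩ := h0
  refine ⟨max N0 (m + 1), ?_⟩
  have hall : ∀ᶠ P in 𝒰, ∀ m' ∈ Set.Iio (m + 1), S.bd δ (sg (S.lad δ m') P) N0 :=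
    (Filter.eventually_all_finite (Set.finite_Iio (m + 1))).2 hN0
  filter_upwards [hall] with P hA
  intro j hj
  by_contra hc
  push Not at hc
  rcases mj_spec S P δ j with h1 | h1
  · have := le_max_right N0 (m + 1)
    omega
  · exact h1 (bd_mono S (hA _ (Nat.lt_succ_of_le hc)) ((le_max_left _ _).trans hj))

theorem labels (S : Pre Ω) {𝒰 : Filter (Path Ω)} {δ : Ω} (hδ : IsLim δ)
    (hinf : ∀ J : ℕ, ∃ k, J ≤ k ∧ ∀ᶠ P in 𝒰, k ∈ S.e P δ) {ζ : Ω} (hζ : ζ < δ) (J : ℕ) :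
    ∃ N, ∀ᶠ P in 𝒰, S.bd δ (P ζ).a N ∧ (∀ i, i < J → (P ζ).f i ≤ N) ∧ S.bd δ (sg ζ P) N ∧
      ∀ τ, τ < sg ζ P → τ < δ → S.D (S.lad δ) τ < J → S.wn P ζ τ ≤ N := by
  obtain ⟨m, hm⟩ := S.lad_cof δ hδ ζ hζ
  obtain ⟨J0, hJ0⟩ := mj_large S hinf m
  obtain ⟨k, hk, hkP⟩ := hinf (S.h δ (max (max J0 J) (S.D (S.lad δ) ζ + 1)))
  obtain ⟨j, hj, hj1, hj2⟩ := block S δ hk
  refine ⟨S.h δ (j + 1), ?_⟩
  filter_upwards [hkP, hJ0] with P hP hJP
  rw [S.mem_e] at hP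
  obtain ⟨hL, hl0, j', hj1', hj2', hB1, hB2⟩ := hP
  obtain rfl := block_unique S δ hj1 hj2 hj1' hj2'
  have hjJ0 : J0 ≤ j := (le_max_left _ _).trans ((le_max_left _ _).trans hj)
  have hjJ : J ≤ j := (le_max_right _ _).trans ((le_max_left _ _).trans hj)
  have hjD : S.D (S.lad δ) ζ < j := (le_max_right _ _).trans hj
  obtain ⟨⟨h1, h2, h3, h4, h5⟩, h6⟩ := hB2 m (hJP j hjJ0) ζ hm hjD
  exact ⟨h1, fun i hi => h2 i (lt_of_lt_of_le hi hjJ), h3,
    fun τ t1 t2 t3 => h4 τ t1 t2 (lt_of_lt_of_le t3 hjJ)⟩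

end Pool.Agent.H60.BS
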