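import Pool.Agent.H60.BS.Ord

/-!
# HFam: long blocks from an unbounded family (about 90 lines)

PROOF. Let `en` be from `exists_enum`. Put `h δ 0 = 0` and
`h δ (n+1) = h δ n + 1 + ∑ i ∈ range (n+2), F (en δ i) (n+1)`. Then `h δ` is strictly increasing,
and for every `α ≤ δ`: `F α n ≤ h δ n` for all large `n`.

Let `g` be given; put `g' n = n + ∑ i ∈ range (n+1), g i`, monotone, `g ≤ g'`, `n ≤ g' n`. For
`c J : ℕ` let `H c J n = g'^[n - J] c`. The countable family `H c J` is eventually dominated by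
`H n = ∑ c ≤ n, ∑ J ≤ n, H c J n`. By `hF` there is `γ` with `H n < F γ n` for infinitely many `n`.
Let `δ ≥ γ` and `J` be given, and suppose that `h δ (j+1) ≤ g (h δ j)` for all `j ≥ J`. By
induction `h δ n ≤ g'^[n - J] (h δ J)` for `n ≥ J`. Hence for all large `n`:
`F γ n ≤ h δ n ≤ H (h δ J) J n ≤ H n`. Contradiction.
-/

set_option autoImplicit false

open Set

namespace Pool.Agent.H60.BS

variable {Ω : Type} [OmType Ω]

/-- The functions `h δ`. -/
noncomputable def hfun (G : ℕ → ℕ → ℕ) : ℕ → ℕ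
  | 0 => 0
  | n + 1 => hfun G n + 1 + ∑ i ∈ Finset.range (n + 2), G i (n + 1)

theorem hfun_strict (G : ℕ → ℕ → ℕ) : StrictMono (hfun G) := by
  refine strictMono_nat_of_lt_succ fun n => ?_
  simp only [hfun]
  omega

theorem le_hfun (G : ℕ → ℕ → ℕ) {i n : ℕ} (h0 : 0 < n) (hi : i ≤ n) : G i n ≤ hfun G n := by
  obtain ⟨m, rfl⟩ : ∃ m, n = m + 1 := ⟨n - 1, by omega⟩
  have h1 : G i (m + 1) ≤ ∑ i ∈ Finset.range (m + 2), G i (m + 1) :=
    Finset.single_le_sum (f := fun i => G i (m + 1)) (fun _ _ => Nat.zero_le _)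
      (Finset.mem_range.2 (by omega))
  simp only [hfun]
  omega

theorem exists_h (F : Ω → ℕ → ℕ) (hF : ∀ g : ℕ → ℕ, ∃ α, ∀ m : ℕ, ∃ n, m ≤ n ∧ g n < F α n) :
    ∃ h : Ω → ℕ → ℕ, (∀ δ, StrictMono (h δ)) ∧
      ∀ g : ℕ → ℕ, ∃ γ, ∀ δ, γ ≤ δ → ∀ J, ∃ j, J ≤ j ∧ g (h δ j) < h δ (j + 1) := by
  obtain ⟨en, hen⟩ := exists_enum Ω
  refine ⟨fun δ => hfun (fun i => F (en δ i)), fun δ => hfun_strict _, fun g => ?_⟩
  set g' : ℕ → ℕ := fun n => n + ∑ i ∈ Finset.range (n + 1), g i with hg'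
  have hmono : Monotone g' := by
    intro a b hab
    have h1 : ∑ i ∈ Finset.range (a + 1), g i ≤ ∑ i ∈ Finset.range (b + 1), g i :=
      Finset.sum_le_sum_of_subset (Finset.range_mono (by omega))
    simp only [hg']
    omega
  have hle : ∀ n, g n ≤ g' n := by
    intro n
    have h1 : g n ≤ ∑ i ∈ Finset.range (n + 1), g i :=
      Finset.single_le_sum (f := g) (fun _ _ => Nat.zero_le _) (Finset.self_mem_range_succ n)
    simp only [hg']
    omega
  obtain ⟨γ, hγ⟩ := hF fun n =>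
    ∑ c ∈ Finset.range (n + 1), ∑ J ∈ Finset.range (n + 1), g'^[n - J] c
  refine ⟨γ, fun δ hδ J => ?_⟩
  by_contra hcon
  push Not at hcon
  obtain ⟨i0, hi0⟩ := (hen δ).2 γ hδ
  have hind : ∀ k, hfun (fun i => F (en δ i)) (J + k) ≤
      g'^[k] (hfun (fun i => F (en δ i)) J) := by
    intro k
    induction k with
    | zero => simp
    | succ k ih =>
      have h1 := hcon (J + k) (by omega)
      rw [Function.iterate_succ_apply']
      calc hfun (fun i => F (en δ i)) (J + (k + 1))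
          ≤ g (hfun (fun i => F (en δ i)) (J + k)) := h1
        _ ≤ g' (hfun (fun i => F (en δ i)) (J + k)) := hle _
        _ ≤ g' (g'^[k] (hfun (fun i => F (en δ i)) J)) := hmono ih
  obtain ⟨n, hn, hlt⟩ := hγ (hfun (fun i => F (en δ i)) J + J + i0 + 1)
  have h2 : F γ n ≤ hfun (fun i => F (en δ i)) n := by
    have := le_hfun (fun i => F (en δ i)) (i := i0) (n := n) (by omega) (by omega)
    simpa [hi0] using this
  have h3 : hfun (fun i => F (en δ i)) n ≤ g'^[n - J] (hfun (fun i => F (en δ i)) J) := by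
    have := hind (n - J)
    rwa [show J + (n - J) = n by omega] at this
  have h4 : g'^[n - J] (hfun (fun i => F (en δ i)) J) ≤
      ∑ J' ∈ Finset.range (n + 1), g'^[n - J'] (hfun (fun i => F (en δ i)) J) :=
    Finset.single_le_sum (f := fun J' => g'^[n - J'] (hfun (fun i => F (en δ i)) J))
      (fun _ _ => Nat.zero_le _) (Finset.mem_range.2 (show J < n + 1 by omega))
  have h5 : ∑ J' ∈ Finset.range (n + 1), g'^[n - J'] (hfun (fun i => F (en δ i)) J) ≤
      ∑ c ∈ Finset.range (n + 1), ∑ J' ∈ Finset.range (n + 1), g'^[n - J'] c :=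
    Finset.single_le_sum (f := fun c => ∑ J' ∈ Finset.range (n + 1), g'^[n - J'] c)
      (fun _ _ => Nat.zero_le _) (Finset.mem_range.2 (by omega))
  omega

end Pool.Agent.H60.BS
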