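import Pool.Agent.H60.BS.MAd

/-!
# MLam: every infinite set is positive for all large levels (about 90 lines)

PROOF. Define `w 0 = w`, `η n` with `w n ∩ Sp (η n)` and `w n \ Sp (η n)` infinite (`Sp_split`),
`w (n+1) = w n ∩ Sp (η n)`, `r n = w n \ Sp (η n)`. Let `l` be above all `η n` (`OmType.bdd`). Let
`l ≤ ζ` and let `E` be valid. If `xs ζ E ∩ r n` is infinite for some `n`, then `xs ζ E ∩ r m` is
finite for all `m ≠ n`: say `m < n` (else exchange them): `r n ⊆ w (m+1) ⊆ Sp (η m)`, so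
`xs ζ E ∩ Sp (η m)` is infinite, and by `unsplit` `xs ζ E \ Sp (η m)` is finite, which contains
`xs ζ E ∩ r m`. Hence for a finite set `s` of valid entries all but at most `#s` of the infinite
sets `r n` meet `⋃ E ∈ s, xs ζ E` in a finite set; for such `n` already
`r n \ ⋃ E ∈ s, xs ζ E ⊆ w \ ⋃ ...` is infinite.
(Pigeonhole: otherwise for every `n` there is `E ∈ s` with `xs ζ E ∩ r n` infinite; this gives an
injective map `ℕ → s`.)
-/

set_option autoImplicit false

open Set

namespace Pool.Agent.H60.BS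

variable {Ω : Type} [OmType Ω] (M : MadData Ω)

theorem pos_large {w : Set ℕ} (hw : w.Infinite) : ∃ l, ∀ ζ, l ≤ ζ → M.Pos ζ w := by
  classical
  choose! η h1 h2 using M.Sp_split
  let W : ℕ → Set ℕ := fun n => Nat.rec w (fun _ u => u ∩ M.Sp (η u)) n
  have hWs : ∀ n, W (n + 1) = W n ∩ M.Sp (η (W n)) := fun n => rfl
  have hWinf : ∀ n, (W n).Infinite := by
    intro n
    induction n with
    | zero => exact hw
    | succ n ih => rw [hWs]; exact h1 _ ih
  have hanti : Antitone W := antitone_nat_of_succ_le (fun n => by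
    rw [hWs]; exact inter_subset_left)
  have hsub : ∀ m n, m < n → W n ⊆ M.Sp (η (W m)) := fun m n hmn =>
    (hanti (Nat.succ_le_of_lt hmn)).trans (by rw [hWs]; exact inter_subset_right)
  obtain ⟨l, hl⟩ := OmType.bdd (range fun n => η (W n)) (countable_range _)
  refine ⟨l, fun ζ hζ s hs hv => ?_⟩
  have hη : ∀ n, η (W n) ≤ ζ := fun n => ((hl _ ⟨n, rfl⟩).le).trans hζ
  let r : ℕ → Set ℕ := fun n => W n \ M.Sp (η (W n))
  have hr : ∀ n, (r n).Infinite := fun n => h2 _ (hWinf n)
  have hrw : ∀ n, r n ⊆ w := fun n => sdiff_subset.trans (hanti (Nat.zero_le n))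
  have key : ∀ E ∈ s, ∀ m n, m < n → (M.xs ζ E ∩ r m).Infinite → (M.xs ζ E ∩ r n).Infinite →
      False := by
    intro E hE m n hmn hm hn
    rcases unsplit M (hη m) (hv E hE) with h | h
    · refine hn (h.subset ?_)
      intro k hk
      exact ⟨hk.1, hsub m n hmn hk.2.1⟩
    · refine hm (h.subset ?_)
      intro k hk
      exact ⟨hk.1, hk.2.2⟩
  by_contra hfin
  rw [Set.not_infinite] at hfin
  have hex : ∀ n, ∃ E ∈ s, (M.xs ζ E ∩ r n).Infinite := by
    intro n
    by_contra hcon
    push Not at hcon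
    have h3 : (⋃ E ∈ s, (M.xs ζ E ∩ r n)).Finite :=
      hs.biUnion (fun E hE => hcon E hE)
    refine hr n ((h3.union hfin).subset ?_)
    intro k hk
    by_cases hkx : k ∈ ⋃ E ∈ s, M.xs ζ E
    · left
      rw [mem_iUnion₂] at hkx ⊢
      obtain ⟨E, hE, hkE⟩ := hkx
      exact ⟨E, hE, hkE, hk⟩
    · right
      exact ⟨hrw n hk, hkx⟩
  choose F hF1 hF2 using hex
  have hinj : Function.Injective F := by
    intro m n hmn
    by_contra hne
    rcases lt_or_gt_of_ne hne with h | h
    · exact key (F m) (hF1 m) m n h (hF2 m) (by rw [hmn]; exact hF2 n)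
    · exact key (F n) (hF1 n) n m h (hF2 n) (by rw [← hmn]; exact hF2 m)
  exact (Set.infinite_range_of_injective hinj) (hs.subset (by rintro _ ⟨n, rfl⟩; exact hF1 n))

end Pool.Agent.H60.BS
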