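import Pool.Agent.H60.BS.MUnb2
import Pool.Agent.H60.BS.MLam
import Pool.Agent.H60.BS.HFam

/-!
# Build: the system (about 50 lines)

PROOF. `num` from `exists_num`, `lad` from `exists_ladder`, `h` from `exists_h`, `V`, `pi` from `M`
(`pi_dep`), `l0` from `pos_large M infinite_univ`. `Valid`, `xs`, `Pos` of the new data are by
definition those of `M`. `ad` = `xs_ad`, `mad` = `xs_mad`, `lam` = `pos_large`, `unb` = `unbounded`.
-/

set_option autoImplicit false

open Set

namespace Pool.Agent.H60.BS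

variable {Ω : Type} [OmType Ω]

theorem exists_sys (M : MadData Ω) (F : Ω → ℕ → ℕ)
    (hF : ∀ g : ℕ → ℕ, ∃ α, ∀ m : ℕ, ∃ n, m ≤ n ∧ g n < F α n) :
    Nonempty (Sys Ω) := by
  obtain ⟨num, hnum⟩ := exists_num Ω
  obtain ⟨lad, hlad⟩ := exists_ladder Ω
  obtain ⟨h, hh1, hh2⟩ := exists_h F hF
  obtain ⟨l0, hl0⟩ := pos_large M (w := univ) infinite_univ
  exact ⟨{
    num := num
    num_inj := hnum
    lad := lad
    lad_mono := fun δ hδ => (hlad δ hδ).1
    lad_lt := fun δ hδ => (hlad δ hδ).2.1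
    lad_cof := fun δ hδ => (hlad δ hδ).2.2
    h := h
    h_mono := hh1
    h_unb := hh2
    V := M.V
    V_closed := M.V_closed
    pi := M.pi
    pi_dep := fun ζ p q k hpq => pi_dep M ζ p q k hpq
    l0 := l0
    ad := fun ζ E E' hE hE' hne => xs_ad M ζ hE hE' hne
    mad := fun ζ u hu => xs_mad M ζ hu
    lam := fun w hw => pos_large M hw
    unb := fun ζ v hv β => unbounded M hv β
    pos0 := hl0 l0 le_rfl }⟩

end Pool.Agent.H60.BS
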