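import Pool.Agent.H60.BS.Defs

/-!
# CDefs: the closure properties used in the capturing argument
-/

set_option autoImplicit false

open Set

namespace Pool.Agent.H60.BS

variable {Ω : Type} [OmType Ω]

/-- The sequence given by a list. -/
def pre (S : Pre Ω) (L : List Ω) (i : ℕ) : Ω := L.getD i S.l0

/-- The element `δ` is closed under everything that belongs to the node `t`. -/
structure CP {S : Pre Ω} {z : Set ℕ} (M : Machine S z) (δ : Ω) (t : M.T) : Prop where
  c1 : M.lam t < δ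
  c2 : sg (M.lam t) (M.P1 t) < δ
  c3 : ∀ γ, γ < δ → ∃ b, b < δ ∧ ∀ i, sg γ (M.P (M.nx t γ i)) < b
  c4 : ∀ L : List Ω, (∀ x ∈ L, x < δ) → ∀ n, (∀ s, ∃ N, M.Good t (pre S L) n s N) →
    ∀ J, ∃ j, J ≤ j ∧ ∃ N, N < S.h δ (j + 1) ∧ M.Good t (pre S L) n (S.h δ j) N

end Pool.Agent.H60.BS
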