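import Pool.Agent.H60.BS.Clos
import Pool.Agent.H60.BS.CDefs

/-!
# ClosP: a closure point for the machine (about 60 lines)

PROOF. For `l`, `L`, `n` let `t = M.node l` and let `g s` be an `N` with `M.Good t (pre S L) n s N` if
there is one (and `0` otherwise). `S.h_unb g` gives an element `γ l L n`. Let `F l L n` be the `ssup`
of the countable set consisting of `M.lam t`, `sg (M.lam t) (M.P1 t)`, `γ l L n` and the elements
`sg γ' (M.P (M.nx t γ' i))`, `i : ℕ`, `γ' = pre S L 0`. Take `δ` from `exists_closure S.l0 F`. For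
`c3` use `L = [γ]`, `b = F l [γ] 0`; for `c4` use `γ l L n < F l L n < δ` and `S.h_unb`.
-/

set_option autoImplicit false

open Set

namespace Pool.Agent.H60.BS

variable {Ω : Type} [OmType Ω]

theorem exists_cp (S : Pre Ω) {z : Set ℕ} (M : Machine S z) :
    ∃ δ, IsLim δ ∧ S.l0 < δ ∧ ∀ l : List (Ω × ℕ), (∀ x ∈ l, x.1 < δ) → CP M δ (M.node l) := by
  classical
  -- the choice of `g`
  have hg : ∀ (l : List (Ω × ℕ)) (L : List Ω) (n : ℕ), ∃ g : ℕ → ℕ,
      ∀ s, (∃ N, M.Good (M.node l) (pre S L) n s N) → M.Good (M.node l) (pre S L) n s (g s) := by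
    intro l L n
    refine ⟨fun s => if h : ∃ N, M.Good (M.node l) (pre S L) n s N then h.choose else 0, ?_⟩
    intro s hs
    simp only [dif_pos hs]
    exact hs.choose_spec
  choose g hg using hg
  have hγ : ∀ (l : List (Ω × ℕ)) (L : List Ω) (n : ℕ), ∃ γ, ∀ δ, γ ≤ δ → ∀ J, ∃ j, J ≤ j ∧
      g l L n (S.h δ j) < S.h δ (j + 1) := fun l L n => S.h_unb (g l L n)
  choose γ hγ using hγ
  let A : List (Ω × ℕ) → List Ω → ℕ → Set Ω := fun l L n =>
    {M.lam (M.node l), sg (M.lam (M.node l)) (M.P1 (M.node l)), γ l L n} ∪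
      range fun i : ℕ => sg (pre S L 0) (M.P (M.nx (M.node l) (pre S L 0) i))
  have hA : ∀ l L n, (A l L n).Countable := by
    intro l L n
    refine Countable.union ?_ (countable_range _)
    exact (((countable_singleton _).insert _).insert _)
  obtain ⟨δ, h1, h2, h3⟩ := exists_closure S.l0 (fun l L n => ssup (A l L n))
  refine ⟨δ, h1, h2, fun l hl => ?_⟩
  refine ⟨?_, ?_, ?_, ?_⟩
  · have h4 := h3 l [] 0 hl (by simp)
    refine lt_trans (lt_ssup (hA l [] 0) ?_) h4
    left
    simp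
  · have h4 := h3 l [] 0 hl (by simp)
    refine lt_trans (lt_ssup (hA l [] 0) ?_) h4
    left
    simp
  · intro γ' hγ'
    refine ⟨ssup (A l [γ'] 0), h3 l [γ'] 0 hl (by simpa using hγ'), fun i => ?_⟩
    refine lt_ssup (hA l [γ'] 0) ?_
    right
    exact ⟨i, rfl⟩
  · intro L hL n hs J
    have h4 : γ l L n < δ := by
      refine lt_trans (lt_ssup (hA l L n) ?_) (h3 l L n hl hL)
      left
      simp
    obtain ⟨j, hj1, hj2⟩ := hγ l L n δ h4.le J
    exact ⟨j, hj1, g l L n (S.h δ j), hj2, hg l L n _ (hs _)⟩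

end Pool.Agent.H60.BS
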