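import Pool.Agent.H60.BS.GoodE
import Pool.Agent.H60.BS.CDefs

/-!
# Stage: one step of the capturing argument (about 150 lines)

PROOF. Write `a = lad δ`. Let `n` be the least index with `lam t < a n` (`lad_cof`, `hC.c1`), so
`a m ≤ lam t` for `m < n`. Let `b < δ` be from `c3` for `γ = a n`. Choose `K ≥ n` with
`sg (lam t) (P1 t) < a K` and `b ≤ a K` (`lad_cof`, `lad_mono`, `c2`). Let
`L = (List.range (K+1)).map a`; so `pre S L i = a i` for `i ≤ K` and all entries of `L` are `< δ`.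
By `exists_good` (for the sequence `pre S L`; its hypotheses only concern indices `≤ K`) every `s`
has a good `N`. Let `J' = max J (n + 1 + ∑ m < n, D a (sg (a m) (P1 t)))` and take `j ≥ J'`, `N`
from `c4`. Let `s = h δ j`, `H = h δ (j+1) > N`; `j ≤ s` (`le_h`). By `good_congr` we get
`M.Good t a n s N`: `k`, the bounds, and `i` with `s < D a (s i) ≤ N`, `s i = sg (a n) (P (nx t (a n) i))`.

Let `Q` agree with `P (nx t (a n) i)` below `a n`. It agrees with `P1 t` below `lam t` (`M.agree`).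
* `mj Q δ j = n`. For `m < n`: `m < j` and `sg (a m) Q = sg (a m) (P1 t)` (`sg_congr`, `a m ≤ lam t`)
  is `< δ` (`sg_mono`, `c2`) and has rank `≤ j`; so `m` is not in the set. `n` is in the set since
  `sg (a n) Q = s i` has rank `> s ≥ j`.
* `bd δ (sg (a n) Q) H`: `s i < b < δ` and its rank is `≤ N ≤ H`.
* For `m < n`, `ζ < a m` with `D a ζ < j` (so `D a ζ < s`, `ζ < lam t`, `Q ζ = P1 t ζ`): all parts
  of `Lv Q δ j k ζ` follow from `Good` (with `sg ζ Q = sg ζ (P1 t)`, `wn Q ζ τ = wn (P1 t) ζ τ`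
  by `sg_congr`, `wn_congr`; `(P1 t ζ).a < sg (lam t) (P1 t) < δ`, `sg ζ (P1 t) ≤ sg (lam t) (P1 t) < δ`),
  and `k ∉ e Q ζ = e (P1 t) ζ` (`e_congr`).
* `h δ j = s ≤ k < N < H`. So `k ∈ S.e Q δ` by `S.mem_e`. Finally `J ≤ j ≤ h δ j ≤ k`.
-/

set_option autoImplicit false

open Set

namespace Pool.Agent.H60.BS

variable {Ω : Type} [OmType Ω]

theorem stage (S : Pre Ω) {z : Set ℕ} (M : Machine S z)
    (hunc : ∀ P, S.VPath P → ∀ δ, (z ∩ S.e P δ).Finite) {δ : Ω} (hδ : IsLim δ) (hl0 : S.l0 < δ)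
    {t : M.T} (hC : CP M δ t) (J : ℕ) :
    ∃ n i k, M.lam t < S.lad δ n ∧ J ≤ k ∧ k ∈ z ∧
      ∀ Q : Path Ω, (∀ ξ, ξ < S.lad δ n → Q ξ = M.P (M.nx t (S.lad δ n) i) ξ) → k ∈ S.e Q δ := by
  classical
  have hmono : StrictMono (S.lad δ) := S.lad_mono δ hδ
  have hex := S.lad_cof δ hδ (M.lam t) hC.c1
  obtain ⟨n, hn, hnmin⟩ : ∃ n, M.lam t < S.lad δ n ∧ ∀ m, m < n → S.lad δ m ≤ M.lam t :=
    ⟨Nat.find hex, Nat.find_spec hex, fun m hm => not_lt.mp (Nat.find_min hex hm)⟩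
  obtain ⟨b, hbδ, hb⟩ := hC.c3 (S.lad δ n) (S.lad_lt δ hδ n)
  obtain ⟨K1, hK1⟩ := S.lad_cof δ hδ _ hC.c2
  obtain ⟨K2, hK2⟩ := S.lad_cof δ hδ _ hbδ
  obtain ⟨K, hnK, hK1K, hK2K⟩ : ∃ K, n ≤ K ∧ K1 ≤ K ∧ K2 ≤ K :=
    ⟨max n (max K1 K2), le_max_left _ _, (le_max_left _ _).trans (le_max_right _ _),
      (le_max_right _ _).trans (le_max_right _ _)⟩
  have h3 : sg (M.lam t) (M.P1 t) < S.lad δ K := lt_of_lt_of_le hK1 (hmono.monotone hK1K)
  have hbK : b < S.lad δ K := lt_of_lt_of_le hK2 (hmono.monotone hK2K)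
  have h4 : ∀ i, sg (S.lad δ n) (M.P (M.nx t (S.lad δ n) i)) < S.lad δ K :=
    fun i => (hb i).trans hbK
  obtain ⟨L, hLdef⟩ : ∃ L : List Ω, L = (List.range (K + 1)).map (S.lad δ) := ⟨_, rfl⟩
  have hLlt : ∀ x ∈ L, x < δ := by
    intro x hx
    rw [hLdef] at hx
    obtain ⟨i, _, rfl⟩ := List.mem_map.1 hx
    exact S.lad_lt δ hδ i
  have hpre : ∀ i, i ≤ K → pre S L i = S.lad δ i := by
    intro i hi
    have hi' : i < ((List.range (K + 1)).map (S.lad δ)).length := by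
      rw [List.length_map, List.length_range]; omega
    rw [pre, hLdef, List.getD_eq_getElem _ _ hi', List.getElem_map, List.getElem_range]
  have hgood : ∀ s, ∃ N, M.Good t (pre S L) n s N := by
    intro s
    refine exists_good S M hunc t (pre S L) n K ?_ ?_ ?_ ?_ s
    · intro m hm
      rw [hpre m (hm.le.trans hnK)]
      exact hnmin m hm
    · rw [hpre n hnK]; exact hn
    · rw [hpre K le_rfl]; exact h3
    · rw [hpre n hnK, hpre K le_rfl]; exact h4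
  obtain ⟨W, hW⟩ : ∃ W : ℕ, ∀ m, m < n → S.D (S.lad δ) (sg (S.lad δ m) (M.P1 t)) ≤ W :=
    ⟨∑ m ∈ Finset.range n, S.D (S.lad δ) (sg (S.lad δ m) (M.P1 t)), fun m hm =>
      Finset.single_le_sum (f := fun m => S.D (S.lad δ) (sg (S.lad δ m) (M.P1 t)))
        (fun _ _ => Nat.zero_le _) (Finset.mem_range.2 hm)⟩
  obtain ⟨j, hJj, N, hNH, hG0⟩ := hC.c4 L hLlt n hgood (max J (n + 1 + W))
  have hG := good_congr S M t hpre hmono hnK hnmin h3 h4 hG0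
  obtain ⟨⟨k, hsk, hkN, hku, hk⟩, hG2, i, hi1, hi2⟩ := hG
  have hjs : j ≤ S.h δ j := le_h S δ j
  have hJj' : J ≤ j := (le_max_left _ _).trans hJj
  have hnj : n + 1 + W ≤ j := (le_max_right _ _).trans hJj
  refine ⟨n, i, k, hn, hJj'.trans (hjs.trans hsk), M.u1_sub t hku, ?_⟩
  intro Q hQ
  have hQ1 : ∀ ξ, ξ < M.lam t → Q ξ = M.P1 t ξ := by
    intro ξ hξ
    rw [hQ ξ (hξ.trans hn)]
    exact M.agree t (S.lad δ n) i hn ξ hξ
  have hsgn : sg (S.lad δ n) Q = sg (S.lad δ n) (M.P (M.nx t (S.lad δ n) i)) := sg_congr hQ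
  have hsg : ∀ ζ, ζ ≤ M.lam t → sg ζ Q = sg ζ (M.P1 t) := fun ζ hζ =>
    sg_congr (fun ξ hξ => hQ1 ξ (lt_of_lt_of_le hξ hζ))
  have hsgδ : ∀ ζ, ζ ≤ M.lam t → sg ζ (M.P1 t) < δ := fun ζ hζ =>
    lt_of_le_of_lt (sg_mono (M.P1 t) hζ) hC.c2
  have hmj : S.mj Q δ j = n := by
    apply le_antisymm
    · refine mj_le S Q δ (Or.inr ?_)
      rw [hsgn]
      intro hbd
      have h5 := hbd.2
      omega
    · by_contra hlt
      push Not at hlt
      rcases mj_spec S Q δ j with h5 | h5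
      · omega
      · apply h5
        have h6 := hnmin _ hlt
        rw [hsg _ h6]
        refine ⟨hsgδ _ h6, ?_⟩
        have h7 := hW _ hlt
        omega
  rw [S.mem_e]
  refine ⟨hδ, hl0, j, hsk, hkN.trans hNH, ?_, ?_⟩
  · rw [hmj, hsgn]
    exact ⟨(hb i).trans hbδ, hi2.trans hNH.le⟩
  · intro m hm ζ hζ hD
    rw [hmj] at hm
    have hζl : ζ < M.lam t := lt_of_lt_of_le hζ (hnmin m hm)
    have hDs : S.D (S.lad δ) ζ < S.h δ j := lt_of_lt_of_le hD hjs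
    obtain ⟨g1, g2, g3, g4⟩ := hG2 m hm ζ hζ hDs
    obtain ⟨k1, k2⟩ := hk m hm ζ hζ hDs
    have hQζ : Q ζ = M.P1 t ζ := hQ1 ζ hζl
    refine ⟨⟨?_, ?_, ?_, ?_, ?_⟩, ?_⟩
    · rw [hQζ]
      exact ⟨(lt_sg (M.P1 t) hζl).trans hC.c2, g1.trans hNH.le⟩
    · intro i' hi'
      rw [hQζ]
      exact (g2 i' (lt_of_lt_of_le hi' hjs)).trans hNH.le
    · rw [hsg ζ hζl.le]
      exact ⟨hsgδ ζ hζl.le, g3.trans hNH.le⟩
    · intro τ hτ _ hDτ
      rw [hsg ζ hζl.le] at hτ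
      rw [wn_congr S (fun ξ hξ => hQ1 ξ (hξ.trans hζl)) τ]
      exact (g4 τ hτ (lt_of_lt_of_le hDτ hjs)).trans hNH.le
    · rw [hQζ]; exact k1
    · rw [e_congr S ζ (fun ξ hξ => hQ1 ξ (hξ.trans hζl))]
      exact k2

end Pool.Agent.H60.BS
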