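import Pool.Agent.H60.BS.Mach
import Pool.Agent.H60.BS.ClosP
import Pool.Agent.H60.BS.Stage

/-!
# Cap: every infinite set is captured (about 110 lines)

PROOF. Suppose not: `hunc`. Let `M` be a machine (`exists_machine`), `δ` from `exists_cp`. By
recursion build lists `l r` with entries `< δ`, and `n r`, `i r`, `k r`:
`l 0 = []`, and `stage` for `t = M.node (l r)`, `J = r` gives `n r, i r, k r`;
`l (r+1) = l r ++ [(lad δ (n r), i r)]`, so `M.node (l (r+1)) = M.nx (M.node (l r)) (lad δ (n r)) (i r)`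
(`List.foldl_append`). (E.g. recursion on the subtype of lists with entries `< δ`.)
Let `t r = M.node (l r)`. `lv (t (r+1)) = lad δ (n r)` (`M.lv_nx`). `lam (t (r+1)) ≥ lad δ (n r)`,
so `lad δ (n (r+1)) > lad δ (n r)` and `n` is strictly increasing; hence the levels `lad δ (n r)`
are cofinal in `δ`. For `ξ < lad δ (n r)`: `P (t (r+2)) ξ = P1 (t (r+1)) ξ = P (t (r+1)) ξ`
(`M.agree`, `M.lv_le`, `M.agree1`). So for `ξ < lad δ (n r)` and all `r' ≥ r`,
`P (t (r'+1)) ξ = P (t (r+1)) ξ`. Let `Q ξ = P (t (r+1)) ξ` for the least `r` with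
`ξ < lad δ (n r)` (`Nat.find`), and any valid entry for other `ξ` (e.g. `M.P M.root ξ`). `Q` is
valid and `k r ∈ S.e Q δ ∩ z` for all `r`, `k r ≥ r`. So the intersection is infinite.
-/

set_option autoImplicit false

open Set

namespace Pool.Agent.H60.BS

variable {Ω : Type} [OmType Ω]

theorem capture (S : Sys Ω) {z : Set ℕ} (hz : z.Infinite) :
    ∃ P, S.VPath P ∧ ∃ δ, (z ∩ S.e P δ).Infinite := by
  classical
  by_contra hcon
  have hunc : ∀ P, S.VPath P → ∀ δ, (z ∩ S.e P δ).Finite := by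
    intro P hP δ
    by_contra h
    exact hcon ⟨P, hP, δ, h⟩
  obtain ⟨M⟩ := exists_machine S hz
  obtain ⟨δ, hδ, hl0, hcp⟩ := exists_cp S.toPre M
  have hst : ∀ (st : {l : List (Ω × ℕ) // ∀ x ∈ l, x.1 < δ}) (J : ℕ), ∃ n i k,
      M.lam (M.node st.1) < S.lad δ n ∧ J ≤ k ∧ k ∈ z ∧
      ∀ Q : Path Ω, (∀ ξ, ξ < S.lad δ n → Q ξ = M.P (M.nx (M.node st.1) (S.lad δ n) i) ξ) →
        k ∈ S.e Q δ :=
    fun st J => stage S.toPre M hunc hδ hl0 (hcp st.1 st.2) J
  choose n i k h1 h2 h3 h4 using hst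
  have hnx : ∀ (r : ℕ) (st : {l : List (Ω × ℕ) // ∀ x ∈ l, x.1 < δ}),
      ∀ x ∈ st.1 ++ [(S.lad δ (n st r), i st r)], x.1 < δ := by
    intro r st x hx
    rcases List.mem_append.1 hx with h | h
    · exact st.2 x h
    · rw [List.mem_singleton.1 h]
      exact S.lad_lt δ hδ _
  obtain ⟨sq, hsq⟩ : ∃ sq : ℕ → {l : List (Ω × ℕ) // ∀ x ∈ l, x.1 < δ},
      ∀ r, sq (r + 1) = ⟨(sq r).1 ++ [(S.lad δ (n (sq r) r), i (sq r) r)], hnx r (sq r)⟩ :=
    ⟨fun r => Nat.rec (⟨[], by simp⟩ : {l : List (Ω × ℕ) // ∀ x ∈ l, x.1 < δ})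
      (fun r st => ⟨st.1 ++ [(S.lad δ (n st r), i st r)], hnx r st⟩) r, fun r => rfl⟩
  have ht : ∀ r, M.node (sq (r + 1)).1 =
      M.nx (M.node (sq r).1) (S.lad δ (n (sq r) r)) (i (sq r) r) := by
    intro r
    rw [hsq r]
    simp only [Machine.node, List.foldl_append, List.foldl_cons, List.foldl_nil]
  have hlv : ∀ r, M.lv (M.node (sq (r + 1)).1) = S.lad δ (n (sq r) r) := by
    intro r
    rw [ht r]
    exact M.lv_nx _ _ _ (h1 (sq r) r)
  have hNs : StrictMono fun r => n (sq r) r := by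
    refine strictMono_nat_of_lt_succ fun r => ?_
    have h5 : S.lad δ (n (sq r) r) < S.lad δ (n (sq (r + 1)) (r + 1)) := by
      rw [← hlv r]
      exact (M.lv_le _).trans_lt (h1 (sq (r + 1)) (r + 1))
    exact (S.lad_mono δ hδ).lt_iff_lt.1 h5
  have hag : ∀ r ξ, ξ < S.lad δ (n (sq r) r) → ∀ r', r ≤ r' →
      M.P (M.node (sq (r' + 1)).1) ξ = M.P (M.node (sq (r + 1)).1) ξ := by
    intro r ξ hξ r' hr'
    induction r', hr' using Nat.le_induction with
    | base => rfl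
    | succ m hm ih =>
      rw [← ih]
      have h6 : ξ < S.lad δ (n (sq m) m) :=
        hξ.trans_le ((S.lad_mono δ hδ).monotone (hNs.monotone hm))
      have h7 : ξ < M.lv (M.node (sq (m + 1)).1) := by
        rw [hlv m]
        exact h6
      rw [ht (m + 1), M.agree _ _ _ (h1 (sq (m + 1)) (m + 1)) ξ (h7.trans_le (M.lv_le _)),
        M.agree1 _ ξ h7]
  obtain ⟨Q, hQ1, hQ2⟩ : ∃ Q : Path Ω, S.VPath Q ∧ ∀ r ξ, ξ < S.lad δ (n (sq r) r) →
      Q ξ = M.P (M.node (sq (r + 1)).1) ξ := by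
    refine ⟨fun ξ => if h : ∃ r, ξ < S.lad δ (n (sq r) r) then
      M.P (M.node (sq (Nat.find h + 1)).1) ξ else M.P M.root ξ, ?_, ?_⟩
    · intro ξ
      by_cases h : ∃ r, ξ < S.lad δ (n (sq r) r)
      · simp only [dif_pos h]
        exact M.valid _ ξ
      · simp only [dif_neg h]
        exact M.valid _ ξ
    · intro r ξ hξ
      have h : ∃ r, ξ < S.lad δ (n (sq r) r) := ⟨r, hξ⟩
      simp only [dif_pos h]
      exact (hag _ ξ (Nat.find_spec h) r (Nat.find_min' h hξ)).symm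
  apply absurd (hunc Q hQ1 δ)
  refine Set.infinite_of_forall_exists_gt fun a => ?_
  refine ⟨k (sq (a + 1)) (a + 1), ⟨h3 _ _, h4 (sq (a + 1)) (a + 1) Q fun ξ hξ => ?_⟩,
    h2 (sq (a + 1)) (a + 1)⟩
  rw [hQ2 (a + 1) ξ hξ, ht (a + 1)]

end Pool.Agent.H60.BS
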