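import Pool.Agent.H60.BS.Defs

/-!
# The mad family

`MadData Ω`: a mad family split into disjoint Borel pieces `B a`, a sequence `c` of members of it,
a splitting family `Sp`, enumerations `en ζ` of `Iic ζ` and closed unique codes `V a` of
`B a \ range c`. The functions `cls`, `ph`, `dn`, `pi` describe the levels.
-/

set_option autoImplicit false

open Set Cardinal

namespace Pool.Agent.H60.BS

open Pool.Agent.H60.AD

variable {Ω : Type} [OmType Ω]

/-- A mad family split into Borel pieces. -/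
structure MadData (Ω : Type) [OmType Ω] where
  B : Ω → Set (ℕ → Bool)
  meas : ∀ a, MeasurableSet (B a)
  disj : ∀ a b x, x ∈ B a → x ∈ B b → a = b
  inf : ∀ a, ∀ x ∈ B a, {n | x n = true}.Infinite
  ad : ∀ a b, ∀ x ∈ B a, ∀ y ∈ B b, x ≠ y → ({n | x n = true} ∩ {n | y n = true}).Finite
  mad : ∀ z : Set ℕ, z.Infinite → ∃ a, ∃ x ∈ B a, ({n | x n = true} ∩ z).Infinite
  c : ℕ → (ℕ → Bool)
  c_inj : Function.Injective c
  c_mem : ∀ n, ∃ a, c n ∈ B a
  Sp : Ω → Set ℕ
  Sp_split : ∀ z : Set ℕ, z.Infinite → ∃ η, (z ∩ Sp η).Infinite ∧ (z \ Sp η).Infinite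
  en : Ω → ℕ → Ω
  en_surj : ∀ ζ η, η ≤ ζ → ∃ i, en ζ i = η
  V : Ω → Set ((ℕ → Bool) × (ℕ → ℕ))
  V_closed : ∀ a, IsClosed (V a)
  V_iff : ∀ a y, (∃ f, (y, f) ∈ V a) ↔ y ∈ B a ∧ ∀ n, y ≠ c n
  V_uniq : ∀ a y f f', (y, f) ∈ V a → (y, f') ∈ V a → f = f'

namespace MadData

variable (M : MadData Ω)

/-- `y` is a member of the mad family outside the sequence `c`. -/
def Mem (y : ℕ → Bool) : Prop := (∃ a, y ∈ M.B a) ∧ ∀ n, y ≠ M.c n

/-- The class of `j`: the least `n` with `j ∈ c n` or `j = n`. -/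
noncomputable def cls (j : ℕ) : ℕ := sInf {n | n = j ∨ M.c n j = true}

open Classical in
/-- The sequence of splitting values of `k` at level `ζ`. -/
noncomputable def ph (ζ : Ω) (k i : ℕ) : Bool := decide (k ∈ M.Sp (M.en ζ i))

/-- The first difference of `ph ζ k` and `p`, cut off at `k`. -/
noncomputable def dn (ζ : Ω) (p : ℕ → Bool) (k : ℕ) : ℕ := sInf {i | i = k ∨ M.ph ζ k i ≠ p i}

/-- The `k`-th element of the class number `dn ζ p k`. -/
noncomputable def pi (ζ : Ω) (p : ℕ → Bool) (k : ℕ) : ℕ :=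
  Nat.nth (fun j => M.cls j = M.dn ζ p k) k

/-- Valid entries. -/
def Valid (E : Ent Ω) : Prop := (E.y, E.f) ∈ M.V E.a

/-- The set of natural numbers given by an entry at level `ζ`. -/
def xs (ζ : Ω) (E : Ent Ω) : Set ℕ := {k | E.y (M.pi ζ E.p k) = true}

/-- `w` is not almost covered by finitely many sets of level `ζ`. -/
def Pos (ζ : Ω) (w : Set ℕ) : Prop :=
  ∀ s : Set (Ent Ω), s.Finite → (∀ E ∈ s, M.Valid E) → (w \ ⋃ E ∈ s, M.xs ζ E).Infinite

end MadData

end Pool.Agent.H60.BS
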