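import Pool.Agent.H60.BS.Defs

/-!
# Ord: basic facts on `OmType` (about 90 lines)

* `lt_ssup`, `ssup_le`: the defining properties of the strict supremum (`OmType.bdd` gives that the
  set of strict upper bounds is nonempty; `WellFounded.min_mem`, `WellFounded.not_lt_min`).
* `exists_of_lt_ssup`: if every `a ∈ A` is below `τ` then `ssup A ≤ τ`.
* `exists_num`: `Iio γ` is countable, so there is an injection to `ℕ` (extend it by anything).
* `exists_enum`: `Iic γ` is countable and nonempty (`Iio γ` plus one point).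
* `exists_ladder`: enumerate `Iio δ` as `x 0, x 1, ...` (nonempty, countable). Define
  `a 0 = x 0`, `a (n+1) =` some element `< δ` above `max (a n) (x (n+1))` (limit).
* `noMax`: apply `OmType.bdd` to a singleton.
-/

set_option autoImplicit false

open Set Cardinal

namespace Pool.Agent.H60.BS

variable {Ω : Type} [OmType Ω]

theorem countable_Iic (γ : Ω) : (Iic γ).Countable := by
  have h : Iic γ ⊆ insert γ (Iio γ) := by
    intro x hx
    rcases (show x ≤ γ from hx).lt_or_eq with h | h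
    · exact Or.inr h
    · exact Or.inl h
  exact ((OmType.countable_Iio γ).insert γ).mono h

theorem noMax (γ : Ω) : ∃ b, γ < b := by
  obtain ⟨b, hb⟩ := OmType.bdd ({γ} : Set Ω) (countable_singleton γ)
  exact ⟨b, hb γ rfl⟩

theorem lt_ssup {A : Set Ω} (hA : A.Countable) {a : Ω} (ha : a ∈ A) : a < ssup A := by
  have h : {b : Ω | ∀ a ∈ A, a < b}.Nonempty := by
    obtain ⟨b, hb⟩ := OmType.bdd A hA
    exact ⟨b, hb⟩
  unfold ssup
  rw [dif_pos h]
  exact (OmType.wf (Ω := Ω)).min_mem _ h a ha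

theorem ssup_le {A : Set Ω} {b : Ω} (h : ∀ a ∈ A, a < b) : ssup A ≤ b := by
  have h0 : {b : Ω | ∀ a ∈ A, a < b}.Nonempty := ⟨b, h⟩
  unfold ssup
  rw [dif_pos h0]
  have h1 : b ∈ {b : Ω | ∀ a ∈ A, a < b} := h
  exact not_lt.mp ((OmType.wf (Ω := Ω)).not_lt_min _ h1)

theorem exists_of_lt_ssup {A : Set Ω} {τ : Ω} (h : τ < ssup A) : ∃ a ∈ A, τ ≤ a := by
  by_contra hc
  have hc' : ∀ a ∈ A, a < τ := fun a ha => not_le.mp fun h1 => hc ⟨a, ha, h1⟩
  exact absurd h (not_lt.mpr (ssup_le hc'))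

theorem exists_num (Ω : Type) [OmType Ω] : ∃ num : Ω → Ω → ℕ, ∀ γ, InjOn (num γ) (Iio γ) := by
  have h : ∀ γ : Ω, ∃ f : Ω → ℕ, InjOn f (Iio γ) := fun γ =>
    countable_iff_exists_injOn.mp (OmType.countable_Iio γ)
  choose f hf using h
  exact ⟨f, hf⟩

theorem exists_enum (Ω : Type) [OmType Ω] :
    ∃ en : Ω → ℕ → Ω, ∀ ζ, (∀ i, en ζ i ≤ ζ) ∧ ∀ η, η ≤ ζ → ∃ i, en ζ i = η := by
  have h : ∀ ζ : Ω, ∃ f : ℕ → Ω, (∀ i, f i ≤ ζ) ∧ ∀ η, η ≤ ζ → ∃ i, f i = η := by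
    intro ζ
    obtain ⟨f, hf⟩ := (countable_Iic ζ).exists_eq_range ⟨ζ, le_refl ζ⟩
    refine ⟨f, fun i => ?_, fun η hη => ?_⟩
    · have : f i ∈ Iic ζ := by rw [hf]; exact mem_range_self i
      exact this
    · have : η ∈ range f := by rw [← hf]; exact hη
      exact this
  choose f hf using h
  exact ⟨f, hf⟩

private theorem exists_ladder_aux (δ : Ω) (hδ : IsLim δ) : ∃ a : ℕ → Ω,
    StrictMono a ∧ (∀ n, a n < δ) ∧ ∀ x, x < δ → ∃ n, x < a n := by
  obtain ⟨⟨x0, hx0⟩, hlim⟩ := hδ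
  obtain ⟨f, hf⟩ := (OmType.countable_Iio δ).exists_eq_range ⟨x0, hx0⟩
  have hf1 : ∀ n, f n < δ := fun n => by
    have : f n ∈ Iio δ := by rw [hf]; exact mem_range_self n
    exact this
  have hstep : ∀ x : Iio δ, ∃ y : Iio δ, x.1 < y.1 := fun x => by
    obtain ⟨y, h1, h2⟩ := hlim x.1 x.2
    exact ⟨⟨y, h2⟩, h1⟩
  choose s hs using hstep
  let a : ℕ → Iio δ := fun n => Nat.rec (s ⟨f 0, hf1 0⟩)
    (fun n r => s ⟨max r.1 (f (n + 1)), max_lt r.2 (hf1 (n + 1))⟩) n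
  have ha : ∀ n, a (n + 1) = s ⟨max (a n).1 (f (n + 1)), max_lt (a n).2 (hf1 (n + 1))⟩ :=
    fun n => rfl
  refine ⟨fun n => (a n).1, strictMono_nat_of_lt_succ fun n => ?_, fun n => (a n).2,
    fun x hx => ?_⟩
  · rw [ha]
    exact lt_of_le_of_lt (le_max_left _ _)
      (hs ⟨max (a n).1 (f (n + 1)), max_lt (a n).2 (hf1 (n + 1))⟩)
  · have : x ∈ range f := by rw [← hf]; exact hx
    obtain ⟨n, rfl⟩ := this
    refine ⟨n, ?_⟩
    cases n with
    | zero => exact hs ⟨f 0, hf1 0⟩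
    | succ n =>
      show f (n + 1) < (a (n + 1)).1
      rw [ha]
      exact lt_of_le_of_lt (le_max_right _ _)
        (hs ⟨max (a n).1 (f (n + 1)), max_lt (a n).2 (hf1 (n + 1))⟩)

theorem exists_ladder (Ω : Type) [OmType Ω] : ∃ lad : Ω → ℕ → Ω, ∀ δ, IsLim δ →
    StrictMono (lad δ) ∧ (∀ n, lad δ n < δ) ∧ ∀ x, x < δ → ∃ n, x < lad δ n := by
  classical
  have h : ∀ δ : Ω, ∃ a : ℕ → Ω, IsLim δ → StrictMono a ∧ (∀ n, a n < δ) ∧
      ∀ x, x < δ → ∃ n, x < a n := by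
    intro δ
    by_cases hδ : IsLim δ
    · obtain ⟨a, ha⟩ := exists_ladder_aux δ hδ
      exact ⟨a, fun _ => ha⟩
    · exact ⟨fun _ => δ, fun h => absurd h hδ⟩
  choose f hf using h
  exact ⟨f, hf⟩

end Pool.Agent.H60.BS
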