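import Pool.Agent.H60.BS.UCode
import Pool.Agent.H60.BS.Ord
import Pool.Agent.H60.BS.MadDefs
import Pool.Agent.H60.AD.Upper

/-!
# Card: from the cardinals to the data (about 130 lines)

PROOF of `exists_F`. The set in the definition of `bCard` is nonempty (`bCard = ℵ₁ ≠ 0`, as `sInf ∅ = 0`),
so `csInf_mem` gives `F'` with `#F' = ℵ₁ = #Ω` and the property; let `F : Ω → F'` be a surjection
(`Cardinal.eq`, an equivalence `Ω ≃ F'`).

PROOF of `exists_mad`. As before get `𝒜` with `#𝒜 = ℵ₁`, Borel, `UnionMad 𝒜`, and `𝒮` with `#𝒮 = ℵ₁`,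
splitting; equivalences `A : Ω ≃ 𝒜`, `Sp : Ω ≃ 𝒮`. `B a = A a \ ⋃ b < a, A b`: Borel (the σ-algebra on
`ℕ → Bool` is `borel`, `BorelSpace.measurable_eq`; `OmType.countable_Iio`), disjoint; the union of the
`B a` is `⋃₀ 𝒜` (least index, `WellFounded.min`). `c`: `Set.Infinite.natEmbedding` for
`hmad.infinite`. `mad`: `hmad.maximal` for the characteristic function of `z`. `V a` from
`exists_code` for the Borel set `B a \ range c` (`range c` is countable, hence Borel: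
`Set.Countable.measurableSet`). `en` from `exists_enum`.
-/

set_option autoImplicit false

open Set Cardinal

namespace Pool.Agent.H60.BS

open Pool.Agent.H60.AD

variable {Ω : Type} [OmType Ω]

private theorem card_mem_of_sInf {S : Set Cardinal.{0}} (h : sInf S = ℵ₁) : ℵ₁ ∈ S := by
  have hne : S.Nonempty := by
    by_contra hcon
    rw [not_nonempty_iff_eq_empty] at hcon
    rw [hcon, Cardinal.sInf_empty] at h
    exact (Cardinal.aleph_pos 1).ne h
  rw [← h]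
  exact csInf_mem hne

theorem exists_F (hΩ : #Ω = ℵ₁) (hb : bCard = ℵ₁) :
    ∃ F : Ω → ℕ → ℕ, ∀ g : ℕ → ℕ, ∃ α, ∀ m : ℕ, ∃ n, m ≤ n ∧ g n < F α n := by
  obtain ⟨F', hF', hunb⟩ := card_mem_of_sInf hb
  obtain ⟨e⟩ := Cardinal.eq.1 (hΩ.trans hF'.symm)
  refine ⟨fun α => (e α : ℕ → ℕ), fun g => ?_⟩
  obtain ⟨f, hf, h⟩ := hunb g
  refine ⟨e.symm ⟨f, hf⟩, fun m => ?_⟩
  obtain ⟨n, hn1, hn2⟩ := h m
  refine ⟨n, hn1, ?_⟩
  show g n < (e (e.symm ⟨f, hf⟩) : ℕ → ℕ) n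
  rw [e.apply_symm_apply]
  exact hn2

theorem exists_mad (hΩ : #Ω = ℵ₁) (ha : aBorel = ℵ₁) (hs : sCard = ℵ₁) :
    Nonempty (MadData Ω) := by
  classical
  obtain ⟨𝒜, h𝒜, hmeas, hmad⟩ := card_mem_of_sInf ha
  obtain ⟨𝒮, h𝒮, hsp⟩ := card_mem_of_sInf hs
  obtain ⟨A⟩ := Cardinal.eq.1 (hΩ.trans h𝒜.symm)
  obtain ⟨Sp⟩ := Cardinal.eq.1 (hΩ.trans h𝒮.symm)
  have hmA : ∀ a, MeasurableSet (A a : Set (ℕ → Bool)) := by
    intro a
    have h1 := hmeas _ (A a).2
    have h2 := BorelSpace.measurable_eq (α := ℕ → Bool)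
    rw [h2]
    exact h1
  let B : Ω → Set (ℕ → Bool) := fun a =>
    (A a : Set (ℕ → Bool)) \ ⋃ b ∈ Iio a, (A b : Set (ℕ → Bool))
  have hBsub : ∀ a, ∀ x ∈ B a, x ∈ ⋃₀ 𝒜 := fun a x hx => ⟨(A a : Set (ℕ → Bool)), (A a).2, hx.1⟩
  have hmB : ∀ a, MeasurableSet (B a) := fun a =>
    (hmA a).diff (MeasurableSet.biUnion (OmType.countable_Iio a) fun b _ => hmA b)
  have hcov : ∀ x ∈ ⋃₀ 𝒜, ∃ a, x ∈ B a := by
    rintro x ⟨s, hs1, hx⟩
    have hne : {a : Ω | x ∈ (A a : Set (ℕ → Bool))}.Nonempty := by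
      refine ⟨A.symm ⟨s, hs1⟩, ?_⟩
      show x ∈ (A (A.symm ⟨s, hs1⟩) : Set (ℕ → Bool))
      rw [A.apply_symm_apply]
      exact hx
    refine ⟨(OmType.wf (Ω := Ω)).min _ hne, (OmType.wf (Ω := Ω)).min_mem _ hne, ?_⟩
    intro hcon
    simp only [mem_iUnion, mem_Iio, exists_prop] at hcon
    obtain ⟨b, hb1, hb2⟩ := hcon
    exact (OmType.wf (Ω := Ω)).not_lt_min _ hb2 hb1
  have hdisj : ∀ a b x, x ∈ B a → x ∈ B b → a = b := by
    have key : ∀ a b x, x ∈ B a → x ∈ B b → ¬ a < b := by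
      intro a b x hxa hxb hab
      apply hxb.2
      simp only [mem_iUnion, mem_Iio, exists_prop]
      exact ⟨a, hab, hxa.1⟩
    intro a b x hxa hxb
    rcases lt_trichotomy a b with h | h | h
    · exact absurd h (key a b x hxa hxb)
    · exact h
    · exact absurd h (key b a x hxb hxa)
  let em := hmad.infinite.natEmbedding
  let c : ℕ → (ℕ → Bool) := fun n => (em n : ℕ → Bool)
  have hcode : ∀ a, ∃ C : Set ((ℕ → Bool) × (ℕ → ℕ)), IsClosed C ∧
      (∀ y, (∃ f, (y, f) ∈ C) ↔ y ∈ B a \ range c) ∧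
      ∀ y f f', (y, f) ∈ C → (y, f') ∈ C → f = f' := fun a =>
    exists_code ((hmB a).diff (countable_range c).measurableSet)
  choose V hV1 hV2 hV3 using hcode
  obtain ⟨en, hen⟩ := exists_enum Ω
  refine ⟨{ B := B, meas := hmB, disj := hdisj,
            inf := fun a x hx => hmad.mem_infinite x (hBsub a x hx),
            ad := fun a b x hx y hy hxy =>
              hmad.almost_disjoint x (hBsub a x hx) y (hBsub b y hy) hxy,
            mad := ?_, c := c,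
            c_inj := fun m n h => em.injective (Subtype.ext h),
            c_mem := fun n => hcov _ (em n).2,
            Sp := fun a => (Sp a : Set ℕ), Sp_split := ?_,
            en := en, en_surj := fun ζ η h => (hen ζ).2 η h,
            V := V, V_closed := hV1, V_iff := ?_, V_uniq := hV3 }⟩
  · intro z hz
    have hz2 : {n | (fun n => decide (n ∈ z)) n = true} = z := by
      ext n
      simp
    obtain ⟨x, hx, h⟩ := hmad.maximal (fun n => decide (n ∈ z)) (by rw [hz2]; exact hz)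
    rw [hz2] at h
    obtain ⟨a, ha1⟩ := hcov x hx
    exact ⟨a, x, ha1, h⟩
  · intro z hz
    obtain ⟨s, hs1, h1, h2⟩ := hsp z hz
    refine ⟨Sp.symm ⟨s, hs1⟩, ?_⟩
    show (z ∩ (Sp (Sp.symm ⟨s, hs1⟩) : Set ℕ)).Infinite ∧
      (z \ (Sp (Sp.symm ⟨s, hs1⟩) : Set ℕ)).Infinite
    rw [Sp.apply_symm_apply]
    exact ⟨h1, h2⟩
  · intro a y
    rw [hV2]
    constructor
    · rintro ⟨h1, h2⟩
      exact ⟨h1, fun n hn => h2 ⟨n, hn.symm⟩⟩
    · rintro ⟨h1, h2⟩
      exact ⟨h1, fun ⟨n, hn⟩ => h2 n hn.symm⟩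

end Pool.Agent.H60.BS
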