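import Pool.Agent.H60.BS.EBas

/-!
# ELim: the sets `S.e P ζ` converge (about 110 lines)

PROOF. Well-founded induction on `ζ ≤ δ`. If `ζ` is not a limit or not above `l0`, or if `k` is in no
block of `h ζ`, both sides are false. Let `k` be in the block `j` (it is unique,
`block_unique`); so `k ∈ S.e P ζ ↔ Bk P ζ j k` and the same for `Q`. The following finitely many
facts hold for most `P` (`Filter.eventually_all_finite`, `Filter.eventually_and`):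
* `sg (lad ζ m) P = sg (lad ζ m) Q` for all `m ≤ j` (`lad ζ m < ζ ≤ δ`, so `hL.sg` applies). So
  `mj P ζ j = mj Q ζ j` (`mj ≤ j`; both are the least element of sets which agree below `j + 1`).
* Let `Z = {ζ' | ζ' < ζ ∧ D (lad ζ) ζ' < j}`, a finite set (`finite_D`, `lad_cof`). For all
  `ζ' ∈ Z`: `(P ζ').a = (Q ζ').a`, `(P ζ').f i = (Q ζ').f i` for `i < j`, `sg ζ' P = sg ζ' Q`;
  `wn P ζ' τ = wn Q ζ' τ` for the finitely many `τ < sg ζ' Q` with `τ < ζ`, `D (lad ζ) τ < j`;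
  `(P ζ').p i = (Q ζ').p i` for `i < k`, so `pi ζ' (P ζ').p k = pi ζ' (Q ζ').p k =: r`, and
  `(P ζ').y r = (Q ζ').y r`, so `k ∈ xs ζ' (P ζ') ↔ k ∈ xs ζ' (Q ζ')`; and by the induction
  hypothesis `k ∈ S.e P ζ' ↔ k ∈ S.e Q ζ'`.
* With these facts `Bk P ζ j k ↔ Bk Q ζ j k`.
-/

set_option autoImplicit false

open Set Filter

namespace Pool.Agent.H60.BS

variable {Ω : Type} [OmType Ω]

private theorem xs_lim (S : Pre Ω) {𝒰 : Filter (Path Ω)} {δ : Ω} {Q : Path Ω} (hL : S.Lim 𝒰 δ Q)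
    {ζ : Ω} (hζ : ζ < δ) (k : ℕ) :
    ∀ᶠ P in 𝒰, (k ∈ S.xs ζ (P ζ) ↔ k ∈ S.xs ζ (Q ζ)) := by
  have h1 : ∀ᶠ P in 𝒰, ∀ i ∈ Iio k, (P ζ).p i = (Q ζ).p i :=
    (Filter.eventually_all_finite (finite_Iio k)).2 fun i _ => hL.p ζ hζ i
  filter_upwards [h1, hL.y ζ hζ (S.pi ζ (Q ζ).p k)] with P h2 h3
  have h4 : S.pi ζ (P ζ).p k = S.pi ζ (Q ζ).p k := S.pi_dep ζ _ _ k fun i hi => h2 i hi
  show (P ζ).y (S.pi ζ (P ζ).p k) = true ↔ (Q ζ).y (S.pi ζ (Q ζ).p k) = true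
  rw [h4, h3]

private theorem mem_e_block (S : Pre Ω) (P : Path Ω) {ζ : Ω} {j k : ℕ} (h1 : IsLim ζ)
    (h2 : S.l0 < ζ) (h3 : S.h ζ j ≤ k) (h4 : k < S.h ζ (j + 1)) :
    k ∈ S.e P ζ ↔ S.Bk P ζ j k := by
  rw [S.mem_e]
  constructor
  · rintro ⟨_, _, j', h5, h6, h7⟩
    obtain rfl := block_unique S ζ h3 h4 h5 h6
    exact h7
  · intro h
    exact ⟨h1, h2, j, h3, h4, h⟩

private theorem mj_congr (S : Pre Ω) {P Q : Path Ω} {ζ : Ω} {j : ℕ}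
    (h : ∀ m, m ≤ j → sg (S.lad ζ m) P = sg (S.lad ζ m) Q) : S.mj P ζ j ≤ S.mj Q ζ j := by
  have h1 : S.mj Q ζ j ≤ j := mj_le S Q ζ (Or.inl le_rfl)
  apply mj_le
  rw [h _ h1]
  exact mj_spec S Q ζ j

theorem e_lim (S : Pre Ω) {𝒰 : Filter (Path Ω)} {δ : Ω} {Q : Path Ω} (hL : S.Lim 𝒰 δ Q) :
    ∀ ζ : Ω, ζ ≤ δ → ∀ k, ∀ᶠ P in 𝒰, (k ∈ S.e P ζ ↔ k ∈ S.e Q ζ) := by
  intro ζ
  induction ζ using WellFoundedLT.induction with
  | ind ζ ih =>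
  intro hζ k
  by_cases hc : IsLim ζ ∧ S.l0 < ζ ∧ ∃ j, S.h ζ j ≤ k ∧ k < S.h ζ (j + 1)
  swap
  · refine Filter.Eventually.of_forall fun P => ?_
    constructor
    · intro h
      obtain ⟨a, b, j, c, d, _⟩ := (S.mem_e P ζ k).1 h
      exact absurd ⟨a, b, j, c, d⟩ hc
    · intro h
      obtain ⟨a, b, j, c, d, _⟩ := (S.mem_e Q ζ k).1 h
      exact absurd ⟨a, b, j, c, d⟩ hc
  obtain ⟨hl, h0, j, hj1, hj2⟩ := hc
  have F1 : ∀ᶠ P in 𝒰, ∀ m ∈ Iic j, sg (S.lad ζ m) P = sg (S.lad ζ m) Q :=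
    (Filter.eventually_all_finite (finite_Iic j)).2 fun m _ =>
      hL.sg _ ((S.lad_lt ζ hl m).trans_le hζ)
  have hZ : {ζ' : Ω | ζ' < ζ ∧ S.D (S.lad ζ) ζ' < j}.Finite :=
    (finite_D S (S.lad ζ) j).subset fun x hx => ⟨S.lad_cof ζ hl x hx.1, hx.2.le⟩
  have F2 : ∀ᶠ P in 𝒰, ∀ ζ' ∈ {ζ' : Ω | ζ' < ζ ∧ S.D (S.lad ζ) ζ' < j},
      (P ζ').a = (Q ζ').a ∧ (∀ i ∈ Iio j, (P ζ').f i = (Q ζ').f i) ∧
      sg ζ' P = sg ζ' Q ∧
      (∀ τ ∈ {ζ' : Ω | ζ' < ζ ∧ S.D (S.lad ζ) ζ' < j},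
        τ < sg ζ' Q → S.wn P ζ' τ = S.wn Q ζ' τ) ∧
      (k ∈ S.xs ζ' (P ζ') ↔ k ∈ S.xs ζ' (Q ζ')) ∧ (k ∈ S.e P ζ' ↔ k ∈ S.e Q ζ') := by
    rw [Filter.eventually_all_finite hZ]
    intro ζ' hz
    have hzd : ζ' < δ := hz.1.trans_le hζ
    have g2 : ∀ᶠ P in 𝒰, ∀ i ∈ Iio j, (P ζ').f i = (Q ζ').f i :=
      (Filter.eventually_all_finite (finite_Iio j)).2 fun i _ => hL.f ζ' hzd i
    have g4 : ∀ᶠ P in 𝒰, ∀ τ ∈ {ζ' : Ω | ζ' < ζ ∧ S.D (S.lad ζ) ζ' < j},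
        τ < sg ζ' Q → S.wn P ζ' τ = S.wn Q ζ' τ := by
      rw [Filter.eventually_all_finite hZ]
      intro τ _
      by_cases hτ : τ < sg ζ' Q
      · filter_upwards [hL.wn ζ' hzd τ hτ] with P hP _ using hP
      · exact Filter.Eventually.of_forall fun P h => absurd h hτ
    filter_upwards [hL.a ζ' hzd, g2, hL.sg ζ' hzd, g4, xs_lim S hL hzd k,
      ih ζ' hz.1 hzd.le k] with P a1 a2 a3 a4 a5 a6
    exact ⟨a1, a2, a3, a4, a5, a6⟩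
  filter_upwards [F1, F2] with P f1 f2
  rw [mem_e_block S P hl h0 hj1 hj2, mem_e_block S Q hl h0 hj1 hj2]
  have hm : S.mj P ζ j = S.mj Q ζ j :=
    le_antisymm (mj_congr S fun m hm => f1 m hm) (mj_congr S fun m hm => (f1 m hm).symm)
  have hmj : S.mj Q ζ j ≤ j := mj_le S Q ζ (Or.inl le_rfl)
  have hsg : sg (S.lad ζ (S.mj P ζ j)) P = sg (S.lad ζ (S.mj Q ζ j)) Q := by
    rw [hm]
    exact f1 _ hmj
  unfold Pre.Bk
  rw [hsg, hm]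
  refine and_congr_right fun _ => ?_
  refine forall_congr' fun m => forall_congr' fun hm1 => forall_congr' fun ζ' =>
    forall_congr' fun hz1 => forall_congr' fun hz2 => ?_
  obtain ⟨a1, a2, a3, a4, a5, a6⟩ := f2 ζ' ⟨hz1.trans (S.lad_lt ζ hl m), hz2⟩
  have hLv : S.Lv P ζ j k ζ' ↔ S.Lv Q ζ j k ζ' := by
    unfold Pre.Lv
    rw [a1, a3, a5]
    refine and_congr_right fun _ => and_congr ?_ (and_congr_right fun _ =>
      and_congr_left fun _ => ?_)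
    · exact forall_congr' fun i => forall_congr' fun hi => by rw [a2 i hi]
    · exact forall_congr' fun τ => forall_congr' fun h1 => forall_congr' fun h2 =>
        forall_congr' fun h3 => by rw [a4 τ ⟨h2, h3⟩ h1]
  rw [hLv, a6]

end Pool.Agent.H60.BS
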