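import Pool.Agent.H60.BS.LimE
import Pool.Agent.H60.BS.ELim

/-!
# Clo: the families `S.Es δ` are closed (about 60 lines)

PROOF. Let `C = closure (S.Es δ)`. Only `C ∩ {infinite} ⊆ S.Es δ` needs a proof. Let `x ∈ C` with
`{n | x n = true}` infinite. If `δ` is not a limit then `S.Es δ` is empty (`S.mem_e`) and so is
`C`. Otherwise: `mem_closure_iff_ultrafilter` gives an ultrafilter `𝒢` on `ℕ → Bool` with
`S.Es δ ∈ 𝒢` and `𝒢 ≤ 𝓝 x`. Choose for every `w ∈ S.Es δ` a valid path `φ w` with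
`{n | w n = true} = S.e (φ w) δ`, and let `𝒰 = 𝒢.map φ`. Then most `P` are valid and for every
`k`: most `P` satisfy `k ∈ S.e P δ ↔ x k = true` (most `w` have `w k = x k`). `exists_lim` gives `Q`
and `e_lim` (with `ζ = δ`) gives `k ∈ S.e Q δ ↔ x k = true` (the ultrafilter is not trivial). So
`{n | x n = true} = S.e Q δ`.
-/

set_option autoImplicit false

open Set Filter

namespace Pool.Agent.H60.BS

variable {Ω : Type} [OmType Ω]

theorem Es_closed (S : Sys Ω) (δ : Ω) :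
    ∃ C : Set (ℕ → Bool), IsClosed C ∧ S.Es δ = C ∩ {x | {n | x n = true}.Infinite} := by
  classical
  refine ⟨closure (S.Es δ), isClosed_closure, ?_⟩
  apply Set.Subset.antisymm
  · intro x hx
    exact ⟨subset_closure hx, hx.1⟩
  rintro x ⟨hx, hxinf⟩
  by_cases hδ : IsLim δ
  swap
  · exfalso
    have he : S.Es δ = ∅ := by
      ext w
      simp only [Set.mem_empty_iff_false, iff_false]
      rintro ⟨hw1, P, -, hw2⟩
      obtain ⟨k, hk⟩ := hw1.nonempty
      rw [hw2] at hk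
      exact hδ ((S.mem_e P δ k).1 hk).1
    rw [he, closure_empty] at hx
    exact hx
  obtain ⟨𝒢, hG1, hG2⟩ := mem_closure_iff_ultrafilter.1 hx
  have : Nonempty (Path Ω) :=
    ⟨fun _ => ⟨Classical.arbitrary Ω, fun _ => false, fun _ => false, fun _ => 0⟩⟩
  have hex : ∀ w, w ∈ S.Es δ → ∃ P : Path Ω, S.VPath P ∧ {n | w n = true} = S.e P δ :=
    fun w hw => hw.2
  choose! φ hφ using hex
  have hval : ∀ᶠ P in ((𝒢.map φ : Ultrafilter (Path Ω)) : Filter (Path Ω)), S.VPath P := by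
    rw [Ultrafilter.coe_map, Filter.eventually_map]
    filter_upwards [hG1] with w hw using (hφ w hw).1
  have hkey : ∀ k, ∀ᶠ P in ((𝒢.map φ : Ultrafilter (Path Ω)) : Filter (Path Ω)),
      (k ∈ S.e P δ ↔ x k = true) := by
    intro k
    rw [Ultrafilter.coe_map, Filter.eventually_map]
    have hk : ∀ᶠ w in (𝒢 : Filter (ℕ → Bool)), w k = x k := by
      apply hG2
      have hc : Continuous fun w : ℕ → Bool => w k := continuous_apply k
      have hopen : IsOpen ((fun w : ℕ → Bool => w k) ⁻¹' {x k}) :=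
        (isOpen_discrete ({x k} : Set Bool)).preimage hc
      exact hopen.mem_nhds rfl
    filter_upwards [hG1, hk] with w hw hwk
    rw [← (hφ w hw).2, Set.mem_ofPred_eq, hwk]
  have hinf : ∀ J : ℕ, ∃ k, J ≤ k ∧
      ∀ᶠ P in ((𝒢.map φ : Ultrafilter (Path Ω)) : Filter (Path Ω)), k ∈ S.e P δ := by
    intro J
    obtain ⟨k, hk, hJ⟩ := hxinf.exists_gt J
    exact ⟨k, hJ.le, (hkey k).mono fun P hP => hP.2 hk⟩
  obtain ⟨Q, hQ, hLim⟩ := exists_lim S (𝒢.map φ) hδ hval hinf
  refine ⟨hxinf, Q, hQ, ?_⟩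
  ext k
  have h1 := (hkey k).and (e_lim S.toPre hLim δ le_rfl k)
  obtain ⟨P, hP1, hP2⟩ := h1.exists
  exact hP1.symm.trans hP2

end Pool.Agent.H60.BS
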