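import Pool.Agent.H60.BS.Ord

/-!
# Clos: closure points (about 60 lines)

PROOF. For `γ : Ω` the set `W γ = {F l L n | l, L lists with entries below γ, n : ℕ}` is countable
(`Iio γ` is countable, so the set of lists with entries in the countable sets `{x | x.1 < γ}` and
`Iio γ` is countable: e.g. it is the image of the countable type
`List (Iio γ × ℕ) × List (Iio γ) × ℕ`). Let `d 0 = l0`, `d (n+1) = ssup (W (d n) ∪ {d n})`. Then
`d` is strictly increasing. `δ = ssup (range d)`: every `x < δ` is `≤ d n` for some `n`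
(`exists_of_lt_ssup`), so `δ` is a limit, `l0 = d 0 < δ`, and lists with entries below `δ` have
entries below some `d n` (finitely many entries), so `F l L n < d (n+1) < δ`.
-/

set_option autoImplicit false

open Set Cardinal

namespace Pool.Agent.H60.BS

variable {Ω : Type} [OmType Ω]

/-- The values of `F` on lists with entries below `γ`. -/
def closW (F : List (Ω × ℕ) → List Ω → ℕ → Ω) (γ : Ω) : Set Ω :=
  range (fun t : List (Iio γ × ℕ) × List (Iio γ) × ℕ =>
    F (t.1.map (fun x => (x.1.val, x.2))) (t.2.1.map Subtype.val) t.2.2)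

theorem closW_countable (F : List (Ω × ℕ) → List Ω → ℕ → Ω) (γ : Ω) : (closW F γ).Countable := by
  haveI : Countable (Iio γ) := (OmType.countable_Iio γ).to_subtype
  exact countable_range _

theorem exists_list_lift {α β : Type} (f : α → β) (l : List β) (h : ∀ x ∈ l, ∃ a, f a = x) :
    ∃ l' : List α, l'.map f = l := by
  induction l with
  | nil => exact ⟨[], rfl⟩
  | cons b l ih =>
    obtain ⟨a, ha⟩ := h b (by simp)
    obtain ⟨l', hl'⟩ := ih (fun x hx => h x (by simp [hx]))
    exact ⟨a :: l', by simp [ha, hl']⟩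

theorem mem_closW (F : List (Ω × ℕ) → List Ω → ℕ → Ω) (γ : Ω) (l : List (Ω × ℕ)) (L : List Ω)
    (n : ℕ) (hl : ∀ x ∈ l, x.1 < γ) (hL : ∀ x ∈ L, x < γ) : F l L n ∈ closW F γ := by
  obtain ⟨l', hl'⟩ := exists_list_lift (fun x : Iio γ × ℕ => (x.1.val, x.2)) l
    (fun x hx => ⟨(⟨x.1, hl x hx⟩, x.2), rfl⟩)
  obtain ⟨L', hL'⟩ := exists_list_lift (Subtype.val : Iio γ → Ω) L
    (fun x hx => ⟨⟨x, hL x hx⟩, rfl⟩)
  exact ⟨(l', L', n), by simp only [hl', hL']⟩

theorem exists_closure (l0 : Ω) (F : List (Ω × ℕ) → List Ω → ℕ → Ω) :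
    ∃ δ, IsLim δ ∧ l0 < δ ∧ ∀ l L n, (∀ x ∈ l, x.1 < δ) → (∀ x ∈ L, x < δ) → F l L n < δ := by
  classical
  let d : ℕ → Ω := fun n => Nat.rec l0 (fun _ γ => ssup (closW F γ ∪ {γ})) n
  have hd0 : d 0 = l0 := rfl
  have hds : ∀ n, d (n + 1) = ssup (closW F (d n) ∪ {d n}) := fun _ => rfl
  have hc : ∀ γ : Ω, (closW F γ ∪ {γ}).Countable := fun γ =>
    (closW_countable F γ).union (countable_singleton γ)
  have hlt : ∀ n, d n < d (n + 1) := by
    intro n
    rw [hds]
    exact lt_ssup (hc _) (by simp)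
  have hmono : StrictMono d := strictMono_nat_of_lt_succ hlt
  have hcr : (range d).Countable := countable_range d
  have hdδ : ∀ n, d n < ssup (range d) := fun n => lt_ssup hcr (mem_range_self n)
  have hex : ∀ x, x < ssup (range d) → ∃ n, x < d n := by
    intro x hx
    obtain ⟨a, ⟨n, rfl⟩, ha⟩ := exists_of_lt_ssup hx
    exact ⟨n + 1, lt_of_le_of_lt ha (hlt n)⟩
  have hexl : ∀ L : List Ω, (∀ x ∈ L, x < ssup (range d)) → ∃ N, ∀ x ∈ L, x < d N := by
    intro L
    induction L with
    | nil => intro _; exact ⟨0, by simp⟩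
    | cons b L ih =>
      intro h
      obtain ⟨N, hN⟩ := ih (fun x hx => h x (by simp [hx]))
      obtain ⟨M, hM⟩ := hex b (h b (by simp))
      refine ⟨max N M, ?_⟩
      intro x hx
      rcases List.mem_cons.1 hx with rfl | hx
      · exact lt_of_lt_of_le hM (hmono.monotone (le_max_right _ _))
      · exact lt_of_lt_of_le (hN x hx) (hmono.monotone (le_max_left _ _))
  refine ⟨ssup (range d), ⟨⟨l0, hdδ 0⟩, ?_⟩, hdδ 0, ?_⟩
  · intro x hx
    obtain ⟨n, hn⟩ := hex x hx
    exact ⟨d n, hn, hdδ n⟩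
  · intro l L n hl hL
    obtain ⟨N, hN⟩ := hexl L hL
    obtain ⟨M, hM⟩ := hexl (l.map (fun x => x.1)) (by
      intro x hx
      obtain ⟨y, hy, rfl⟩ := List.mem_map.1 hx
      exact hl y hy)
    have h1 : F l L n ∈ closW F (d (max N M)) := by
      refine mem_closW F _ l L n ?_ ?_
      · intro x hx
        exact lt_of_lt_of_le (hM x.1 (List.mem_map.2 ⟨x, hx, rfl⟩))
          (hmono.monotone (le_max_right _ _))
      · intro x hx
        exact lt_of_lt_of_le (hN x hx) (hmono.monotone (le_max_left _ _))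
    have h2 : F l L n < d (max N M + 1) := by
      rw [hds]
      exact lt_ssup (hc _) (Or.inl h1)
    exact lt_trans h2 (hdδ (max N M + 1))

end Pool.Agent.H60.BS
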