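import Pool.Agent.H60.AD.Defs

/-!
# Definitions for the theorem `𝔞_Borel = 𝔟 = 𝔰 = ℵ₁ → 𝔞_closed = ℵ₁`

* `OmType Ω`: `Ω` is a well order of type `ω₁`.
* `ssup A`: the strict supremum of `A`.
* `Ent Ω`: the entries (index of a Borel set, a branch, a member of the Borel set, its code).
* `Pre Ω`, `Sys Ω`: the data from which the closed families are built.
* `Path Ω`: functions from `Ω` to entries.
* `S.e P δ`: the set of natural numbers attached to the restriction of the path `P` to `δ`.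
-/

set_option autoImplicit false

open Set Cardinal

namespace Pool.Agent.H60.BS

open Pool.Agent.H60.AD

/-- `𝔰`: the least size of a splitting family. -/
noncomputable def sCard : Cardinal.{0} :=
  sInf {κ : Cardinal.{0} | ∃ F : Set (Set ℕ), #F = κ ∧
    ∀ z : Set ℕ, z.Infinite → ∃ A ∈ F, (z ∩ A).Infinite ∧ (z \ A).Infinite}

/-- Well orders of type `ω₁`. -/
class OmType (Ω : Type) extends LinearOrder Ω where
  wf : WellFounded ((· < ·) : Ω → Ω → Prop)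
  countable_Iio : ∀ a : Ω, (Iio a).Countable
  bdd : ∀ A : Set Ω, A.Countable → ∃ b, ∀ a ∈ A, a < b

variable {Ω : Type} [OmType Ω]

instance : WellFoundedLT Ω := ⟨OmType.wf⟩

instance : Nonempty Ω := ⟨(OmType.bdd (∅ : Set Ω) countable_empty).choose⟩

open Classical in
/-- The strict supremum: the least element above all elements of `A`. -/
noncomputable def ssup (A : Set Ω) : Ω :=
  if h : {b : Ω | ∀ a ∈ A, a < b}.Nonempty then (OmType.wf (Ω := Ω)).min _ h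
  else Classical.arbitrary Ω

/-- Limit elements. -/
def IsLim (δ : Ω) : Prop := (∃ x, x < δ) ∧ ∀ x, x < δ → ∃ y, x < y ∧ y < δ

/-- The entries. -/
structure Ent (Ω : Type) where
  a : Ω
  p : ℕ → Bool
  y : ℕ → Bool
  f : ℕ → ℕ

/-- The basic data. -/
structure Pre (Ω : Type) [OmType Ω] where
  num : Ω → Ω → ℕ
  num_inj : ∀ γ, InjOn (num γ) (Iio γ)
  lad : Ω → ℕ → Ω
  lad_mono : ∀ δ, IsLim δ → StrictMono (lad δ)
  lad_lt : ∀ δ, IsLim δ → ∀ n, lad δ n < δ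
  lad_cof : ∀ δ, IsLim δ → ∀ x, x < δ → ∃ n, x < lad δ n
  h : Ω → ℕ → ℕ
  h_mono : ∀ δ, StrictMono (h δ)
  h_unb : ∀ g : ℕ → ℕ, ∃ γ, ∀ δ, γ ≤ δ → ∀ J, ∃ j, J ≤ j ∧ g (h δ j) < h δ (j + 1)
  V : Ω → Set ((ℕ → Bool) × (ℕ → ℕ))
  V_closed : ∀ a, IsClosed (V a)
  pi : Ω → (ℕ → Bool) → ℕ → ℕ
  pi_dep : ∀ ζ p q k, (∀ i, i < k → p i = q i) → pi ζ p k = pi ζ q k
  l0 : Ω

/-- Valid entries. -/
def Pre.Valid (S : Pre Ω) (E : Ent Ω) : Prop := (E.y, E.f) ∈ S.V E.a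

/-- The set of natural numbers given by an entry at level `ζ`. -/
def Pre.xs (S : Pre Ω) (ζ : Ω) (E : Ent Ω) : Set ℕ := {k | E.y (S.pi ζ E.p k) = true}

/-- `w` is not almost covered by finitely many sets of level `ζ`. -/
def Pre.Pos (S : Pre Ω) (ζ : Ω) (w : Set ℕ) : Prop :=
  ∀ s : Set (Ent Ω), s.Finite → (∀ E ∈ s, S.Valid E) → (w \ ⋃ E ∈ s, S.xs ζ E).Infinite

/-- The data together with the properties of the levels. -/
structure Sys (Ω : Type) [OmType Ω] extends Pre Ω where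
  ad : ∀ ζ E E', toPre.Valid E → toPre.Valid E' → E ≠ E' →
    (toPre.xs ζ E ∩ toPre.xs ζ E').Finite
  mad : ∀ ζ (u : Set ℕ), u.Infinite → ∃ E, toPre.Valid E ∧ (u ∩ toPre.xs ζ E).Infinite
  lam : ∀ w : Set ℕ, w.Infinite → ∃ l, ∀ ζ, l ≤ ζ → toPre.Pos ζ w
  unb : ∀ ζ (v : Set ℕ), toPre.Pos ζ v → ∀ β : Ω,
    ∃ E, toPre.Valid E ∧ β ≤ E.a ∧ (v ∩ toPre.xs ζ E).Infinite
  pos0 : toPre.Pos l0 univ

/-- Paths. -/
abbrev Path (Ω : Type) := Ω → Ent Ω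

/-- All entries of the path are valid. -/
def Pre.VPath (S : Pre Ω) (P : Path Ω) : Prop := ∀ ζ, S.Valid (P ζ)

/-- The strict supremum of the indices below `ζ`. -/
noncomputable def sg (ζ : Ω) (P : Path Ω) : Ω := ssup ((fun ξ => (P ξ).a) '' Iio ζ)

/-- The number of a witness for `τ < sg ζ P`. -/
noncomputable def Pre.wn (S : Pre Ω) (P : Path Ω) (ζ τ : Ω) : ℕ :=
  sInf {n | ∃ ξ, ξ < ζ ∧ S.num ζ ξ = n ∧ τ ≤ (P ξ).a}

/-- The first index where the sequence `a` is above `β`. -/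
noncomputable def idx (a : ℕ → Ω) (β : Ω) : ℕ := sInf {i | β < a i}

/-- The rank of `β` with respect to the sequence `a`. -/
noncomputable def Pre.D (S : Pre Ω) (a : ℕ → Ω) (β : Ω) : ℕ :=
  max (idx a β) (S.num (a (idx a β)) β)

/-- `β` is below `δ` and has rank at most `N` for the ladder of `δ`. -/
def Pre.bd (S : Pre Ω) (δ β : Ω) (N : ℕ) : Prop := β < δ ∧ S.D (S.lad δ) β ≤ N

/-- The number of active steps of the ladder of `δ` in the block `j`. -/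
noncomputable def Pre.mj (S : Pre Ω) (P : Path Ω) (δ : Ω) (j : ℕ) : ℕ :=
  sInf {m | j ≤ m ∨ ¬ S.bd δ (sg (S.lad δ m) P) j}

/-- The condition on `k` in the block `j` coming from the level `ζ`. -/
def Pre.Lv (S : Pre Ω) (P : Path Ω) (δ : Ω) (j k : ℕ) (ζ : Ω) : Prop :=
  S.bd δ (P ζ).a (S.h δ (j + 1)) ∧ (∀ i, i < j → (P ζ).f i ≤ S.h δ (j + 1)) ∧
    S.bd δ (sg ζ P) (S.h δ (j + 1)) ∧
    (∀ τ, τ < sg ζ P → τ < δ → S.D (S.lad δ) τ < j → S.wn P ζ τ ≤ S.h δ (j + 1)) ∧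
    k ∈ S.xs ζ (P ζ)

/-- The condition on `k` in the block `j`, where `R ζ` stands for the set of level `ζ`. -/
def Pre.BkR (S : Pre Ω) (P : Path Ω) (δ : Ω) (j k : ℕ) (R : (ζ : Ω) → ζ < δ → Set ℕ) : Prop :=
  S.bd δ (sg (S.lad δ (S.mj P δ j)) P) (S.h δ (j + 1)) ∧
    ∀ m, m < S.mj P δ j → ∀ ζ (hζ : ζ < δ), ζ < S.lad δ m → S.D (S.lad δ) ζ < j →
      S.Lv P δ j k ζ ∧ k ∉ R ζ hζ

/-- The set attached to the restriction of the path `P` to `δ`. -/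
noncomputable def Pre.e (S : Pre Ω) (P : Path Ω) : Ω → Set ℕ :=
  (OmType.wf (Ω := Ω)).fix fun δ R =>
    {k | IsLim δ ∧ S.l0 < δ ∧ ∃ j, S.h δ j ≤ k ∧ k < S.h δ (j + 1) ∧ S.BkR P δ j k R}

/-- The condition on `k` in the block `j`. -/
def Pre.Bk (S : Pre Ω) (P : Path Ω) (δ : Ω) (j k : ℕ) : Prop :=
  S.bd δ (sg (S.lad δ (S.mj P δ j)) P) (S.h δ (j + 1)) ∧
    ∀ m, m < S.mj P δ j → ∀ ζ, ζ < S.lad δ m → S.D (S.lad δ) ζ < j →
      S.Lv P δ j k ζ ∧ k ∉ S.e P ζ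

theorem Pre.mem_e (S : Pre Ω) (P : Path Ω) (δ : Ω) (k : ℕ) :
    k ∈ S.e P δ ↔ IsLim δ ∧ S.l0 < δ ∧ ∃ j, S.h δ j ≤ k ∧ k < S.h δ (j + 1) ∧ S.Bk P δ j k := by
  have h1 : S.e P δ = {k | IsLim δ ∧ S.l0 < δ ∧ ∃ j, S.h δ j ≤ k ∧ k < S.h δ (j + 1) ∧
      S.BkR P δ j k (fun ζ _ => S.e P ζ)} := by
    unfold Pre.e
    rw [WellFounded.fix_eq]
  rw [h1]
  constructor
  · rintro ⟨h2, h3, j, h4, h5, h6, h7⟩
    exact ⟨h2, h3, j, h4, h5, h6, fun m hm ζ hζ hD =>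
      h7 m hm ζ (hζ.trans (S.lad_lt δ h2 m)) hζ hD⟩
  · rintro ⟨h2, h3, j, h4, h5, h6, h7⟩
    exact ⟨h2, h3, j, h4, h5, h6, fun m hm ζ _ hζ hD => h7 m hm ζ hζ hD⟩

/-- The family of all sets attached to valid paths at `δ`. -/
def Pre.Es (S : Pre Ω) (δ : Ω) : Set (ℕ → Bool) :=
  {x | {n | x n = true}.Infinite ∧ ∃ P : Path Ω, S.VPath P ∧ {n | x n = true} = S.e P δ}

/-- `Q` is a limit of the paths along the filter `𝒰` below `δ`. -/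
structure Pre.Lim (S : Pre Ω) (𝒰 : Filter (Path Ω)) (δ : Ω) (Q : Path Ω) : Prop where
  a : ∀ ζ, ζ < δ → ∀ᶠ P in 𝒰, (P ζ).a = (Q ζ).a
  p : ∀ ζ, ζ < δ → ∀ i, ∀ᶠ P in 𝒰, (P ζ).p i = (Q ζ).p i
  y : ∀ ζ, ζ < δ → ∀ i, ∀ᶠ P in 𝒰, (P ζ).y i = (Q ζ).y i
  f : ∀ ζ, ζ < δ → ∀ i, ∀ᶠ P in 𝒰, (P ζ).f i = (Q ζ).f i
  sg : ∀ ζ, ζ < δ → ∀ᶠ P in 𝒰, sg ζ P = sg ζ Q
  wn : ∀ ζ, ζ < δ → ∀ τ, τ < BS.sg ζ Q → ∀ᶠ P in 𝒰, S.wn P ζ τ = S.wn Q ζ τ

/-- `(P, ζ, u)` is a node for `z`: `u` is an infinite subset of `z` that is almost contained in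
the sets of `P` below `ζ`. -/
structure Pre.IsNode (S : Pre Ω) (z : Set ℕ) (P : Path Ω) (ζ : Ω) (u : Set ℕ) : Prop where
  valid : S.VPath P
  infinite : u.Infinite
  sub : u ⊆ z
  almost : ∀ ξ, ξ < ζ → (u \ S.xs ξ (P ξ)).Finite

/-- The machine that produces nodes. -/
structure Machine (S : Pre Ω) (z : Set ℕ) where
  T : Type
  root : T
  lv : T → Ω
  P : T → Path Ω
  lam : T → Ω
  P1 : T → Path Ω
  u1 : T → Set ℕ
  nx : T → Ω → ℕ → T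
  valid : ∀ t, S.VPath (P t)
  valid1 : ∀ t, S.VPath (P1 t)
  lv_le : ∀ t, lv t ≤ lam t
  agree1 : ∀ t ξ, ξ < lv t → P1 t ξ = P t ξ
  u1_sub : ∀ t, u1 t ⊆ z
  u1_inf : ∀ t, (u1 t).Infinite
  u1_almost : ∀ t ξ, ξ < lam t → (u1 t \ S.xs ξ (P1 t ξ)).Finite
  lv_nx : ∀ t γ i, lam t < γ → lv (nx t γ i) = γ
  agree : ∀ t γ i, lam t < γ → ∀ ξ, ξ < lam t → P (nx t γ i) ξ = P1 t ξ
  sg_mono : ∀ t γ, lam t < γ → StrictMono fun i => sg γ (P (nx t γ i))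

/-- The bound `N` is good for `s` at the node `t`, for the sequence `a` with `n` active steps. -/
def Machine.Good {S : Pre Ω} {z : Set ℕ} (M : Machine S z) (t : M.T) (a : ℕ → Ω) (n s N : ℕ) :
    Prop :=
  (∃ k, s ≤ k ∧ k < N ∧ k ∈ M.u1 t ∧ ∀ m, m < n → ∀ ζ, ζ < a m → S.D a ζ < s →
      k ∈ S.xs ζ (M.P1 t ζ) ∧ k ∉ S.e (M.P1 t) ζ) ∧
    (∀ m, m < n → ∀ ζ, ζ < a m → S.D a ζ < s →
      S.D a (M.P1 t ζ).a ≤ N ∧ (∀ i, i < s → (M.P1 t ζ).f i ≤ N) ∧ S.D a (sg ζ (M.P1 t)) ≤ N ∧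
        ∀ τ, τ < sg ζ (M.P1 t) → S.D a τ < s → S.wn (M.P1 t) ζ τ ≤ N) ∧
    ∃ i, s < S.D a (sg (a n) (M.P (M.nx t (a n) i))) ∧
      S.D a (sg (a n) (M.P (M.nx t (a n) i))) ≤ N

/-- The node reached by a list of instructions. -/
def Machine.node {S : Pre Ω} {z : Set ℕ} (M : Machine S z) (l : List (Ω × ℕ)) : M.T :=
  l.foldl (fun t x => M.nx t x.1 x.2) M.root

end Pool.Agent.H60.BS
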