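import Pool.Agent.H60.BS.Ord

/-!
# EBas: basic facts on ranks, labels and the sets `S.e P δ` (about 110 lines)

* `finite_D`: `β < a i` for some `i` gives `β < a (idx a β)` (`Nat.sInf_mem`); if the rank is at
  most `N` then `idx a β ≤ N` and `num (a (idx a β)) β ≤ N`. So the set is contained in
  `⋃ i ≤ N, {β ∈ Iio (a i) | num (a i) β ≤ N}`, finite by `num_inj`.
* `D_congr`: `idx a β = idx b β` (both are the least `i ≤ n`), and `a` and `b` agree there.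
* `sg_congr`, `wn_congr`: the definitions only use `P ξ`, `ξ < ζ`.
* `e_congr`: well-founded induction on `δ` with `S.mem_e`: all occurrences of `P` are at levels
  `ζ < lad δ m < δ`, and `sg (lad δ m) P`, `sg ζ P`, `wn P ζ τ` only use levels below `δ`. (If `δ` is
  not a limit both sides are empty.)
* `block`: `h δ` is strictly increasing and unbounded (`StrictMono.le_apply`); take the largest `j`
  with `h δ j ≤ k` (e.g. `Nat.findGreatest`). `block_unique`: `StrictMono.lt_iff_lt`.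
* `sg_mono`: monotonicity of `ssup` in the set (`ssup_le`, `lt_ssup`, countability of the image).
* `lt_sg`: `lt_ssup`.
* `mj_le`, `mj_spec`, `of_lt_mj`: `Nat.sInf_le`, `Nat.sInf_mem` (the set contains `j`),
  `Nat.notMem_of_lt_sInf`.
-/

set_option autoImplicit false

open Set

namespace Pool.Agent.H60.BS

variable {Ω : Type} [OmType Ω]

theorem finite_D (S : Pre Ω) (a : ℕ → Ω) (N : ℕ) : {β | (∃ i, β < a i) ∧ S.D a β ≤ N}.Finite := by
  have hfin : (⋃ i ∈ Finset.range (N + 1), {β | β < a i ∧ S.num (a i) β ≤ N}).Finite := by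
    refine Set.Finite.biUnion (Finset.finite_toSet _) fun i _ => ?_
    have h1 : (S.num (a i) '' {β | β < a i ∧ S.num (a i) β ≤ N}).Finite := by
      refine (Set.finite_Iic N).subset ?_
      rintro _ ⟨β, hβ, rfl⟩
      exact hβ.2
    refine Set.Finite.of_finite_image h1 ?_
    exact (S.num_inj (a i)).mono fun β hβ => hβ.1
  refine hfin.subset ?_
  rintro β ⟨⟨i, hi⟩, hD⟩
  have h1 : β < a (idx a β) := Nat.sInf_mem (s := {i | β < a i}) ⟨i, hi⟩
  have h2 : idx a β ≤ N := (le_max_left _ _).trans hD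
  have h3 : S.num (a (idx a β)) β ≤ N := (le_max_right _ _).trans hD
  simp only [Set.mem_iUnion]
  exact ⟨idx a β, Finset.mem_range.2 (Nat.lt_succ_of_le h2), h1, h3⟩

theorem D_congr (S : Pre Ω) {a b : ℕ → Ω} {n : ℕ} (h : ∀ i, i ≤ n → a i = b i) {β : Ω}
    (hβ : β < a n) : S.D a β = S.D b β := by
  have h1 : β < a (idx a β) := Nat.sInf_mem (s := {i | β < a i}) ⟨n, hβ⟩
  have h1' : idx a β ≤ n := Nat.sInf_le (s := {i | β < a i}) hβ
  have hβ' : β < b n := h n le_rfl ▸ hβ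
  have h2 : β < b (idx b β) := Nat.sInf_mem (s := {i | β < b i}) ⟨n, hβ'⟩
  have h2' : idx b β ≤ n := Nat.sInf_le (s := {i | β < b i}) hβ'
  have h3 : idx a β = idx b β := by
    apply le_antisymm
    · refine Nat.sInf_le (s := {i | β < a i}) ?_
      show β < a (idx b β)
      rw [h _ h2']
      exact h2
    · refine Nat.sInf_le (s := {i | β < b i}) ?_
      show β < b (idx a β)
      rw [← h _ h1']
      exact h1
  unfold Pre.D
  rw [← h3, h _ h1']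

theorem sg_congr {ζ : Ω} {P Q : Path Ω} (h : ∀ ξ, ξ < ζ → P ξ = Q ξ) : sg ζ P = sg ζ Q := by
  unfold sg
  congr 1
  refine Set.image_congr fun ξ hξ => ?_
  rw [h ξ hξ]

theorem sg_mono (P : Path Ω) {ζ η : Ω} (h : ζ ≤ η) : sg ζ P ≤ sg η P := by
  refine ssup_le fun x hx => ?_
  obtain ⟨ξ, hξ, rfl⟩ := hx
  refine lt_ssup ((OmType.countable_Iio η).image _) ?_
  exact ⟨ξ, lt_of_lt_of_le hξ h, rfl⟩

theorem lt_sg (P : Path Ω) {ξ ζ : Ω} (h : ξ < ζ) : (P ξ).a < sg ζ P := by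
  exact lt_ssup ((OmType.countable_Iio ζ).image _) ⟨ξ, h, rfl⟩

theorem wn_congr (S : Pre Ω) {ζ : Ω} {P Q : Path Ω} (h : ∀ ξ, ξ < ζ → P ξ = Q ξ) (τ : Ω) :
    S.wn P ζ τ = S.wn Q ζ τ := by
  unfold Pre.wn
  congr 1
  ext n
  simp only [Set.mem_ofPred_eq]
  constructor
  · rintro ⟨ξ, h1, h2, h3⟩
    exact ⟨ξ, h1, h2, by rw [← h ξ h1]; exact h3⟩
  · rintro ⟨ξ, h1, h2, h3⟩
    exact ⟨ξ, h1, h2, by rw [h ξ h1]; exact h3⟩

theorem e_congr (S : Pre Ω) {P Q : Path Ω} : ∀ δ : Ω, (∀ ξ, ξ < δ → P ξ = Q ξ) →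
    S.e P δ = S.e Q δ := by
  intro δ
  induction δ using (OmType.wf (Ω := Ω)).induction with
  | _ δ ih =>
    intro h
    have key : ∀ (P Q : Path Ω), (∀ ξ, ξ < δ → P ξ = Q ξ) →
        (∀ ζ, ζ < δ → S.e P ζ = S.e Q ζ) → S.e P δ ⊆ S.e Q δ := by
      intro P Q h ih k hk
      rw [S.mem_e] at hk ⊢
      obtain ⟨hL, h0, j, hj1, hj2, hB1, hB2⟩ := hk
      have hsg : ∀ ζ, ζ < δ → sg ζ P = sg ζ Q := fun ζ hζ =>
        sg_congr fun ξ hξ => h ξ (hξ.trans hζ)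
      have hmj : S.mj P δ j = S.mj Q δ j := by
        unfold Pre.mj
        congr 1
        ext m
        simp only [Set.mem_ofPred_eq]
        rw [hsg _ (S.lad_lt δ hL m)]
      refine ⟨hL, h0, j, hj1, hj2, ?_, ?_⟩
      · rw [← hmj, ← hsg _ (S.lad_lt δ hL _)]
        exact hB1
      · intro m hm ζ hζ hD
        rw [← hmj] at hm
        have hζδ : ζ < δ := hζ.trans (S.lad_lt δ hL m)
        obtain ⟨⟨h1, h2, h3, h4, h5⟩, h6⟩ := hB2 m hm ζ hζ hD
        rw [h ζ hζδ] at h1 h2 h5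
        rw [hsg ζ hζδ] at h3 h4
        rw [ih ζ hζδ] at h6
        refine ⟨⟨h1, h2, h3, ?_, h5⟩, h6⟩
        intro τ t1 t2 t3
        rw [← wn_congr S (P := P) (Q := Q) (fun ξ hξ => h ξ (hξ.trans hζδ)) τ]
        exact h4 τ t1 t2 t3
    refine Set.Subset.antisymm (key P Q h fun ζ hζ => ih ζ hζ fun ξ hξ => h ξ (hξ.trans hζ)) ?_
    exact key Q P (fun ξ hξ => (h ξ hξ).symm) fun ζ hζ =>
      (ih ζ hζ fun ξ hξ => h ξ (hξ.trans hζ)).symm

theorem block (S : Pre Ω) (δ : Ω) {J k : ℕ} (h : S.h δ J ≤ k) :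
    ∃ j, J ≤ j ∧ S.h δ j ≤ k ∧ k < S.h δ (j + 1) := by
  classical
  have hle : ∀ j, j ≤ S.h δ j := fun j => (S.h_mono δ).le_apply
  refine ⟨Nat.findGreatest (fun j => S.h δ j ≤ k) k, ?_, ?_, ?_⟩
  · exact Nat.le_findGreatest ((hle J).trans h) h
  · exact Nat.findGreatest_spec (P := fun j => S.h δ j ≤ k) ((hle J).trans h) h
  · by_contra hc
    push Not at hc
    have := Nat.le_findGreatest (P := fun j => S.h δ j ≤ k) ((hle _).trans hc) hc
    omega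

theorem block_unique (S : Pre Ω) (δ : Ω) {j j' k : ℕ} (h1 : S.h δ j ≤ k) (h2 : k < S.h δ (j + 1))
    (h3 : S.h δ j' ≤ k) (h4 : k < S.h δ (j' + 1)) : j = j' := by
  have a1 : j < j' + 1 := (S.h_mono δ).lt_iff_lt.1 (lt_of_le_of_lt h1 h4)
  have a2 : j' < j + 1 := (S.h_mono δ).lt_iff_lt.1 (lt_of_le_of_lt h3 h2)
  omega

theorem le_h (S : Pre Ω) (δ : Ω) (j : ℕ) : j ≤ S.h δ j := by
  exact (S.h_mono δ).le_apply

theorem bd_mono (S : Pre Ω) {δ β : Ω} {N N' : ℕ} (h : S.bd δ β N) (hN : N ≤ N') :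
    S.bd δ β N' := by
  exact ⟨h.1, h.2.trans hN⟩

theorem mj_le (S : Pre Ω) (P : Path Ω) (δ : Ω) {j m : ℕ}
    (h : j ≤ m ∨ ¬ S.bd δ (sg (S.lad δ m) P) j) : S.mj P δ j ≤ m := by
  exact Nat.sInf_le (s := {m | j ≤ m ∨ ¬ S.bd δ (sg (S.lad δ m) P) j}) h

theorem mj_spec (S : Pre Ω) (P : Path Ω) (δ : Ω) (j : ℕ) :
    j ≤ S.mj P δ j ∨ ¬ S.bd δ (sg (S.lad δ (S.mj P δ j)) P) j := by
  exact Nat.sInf_mem (s := {m | j ≤ m ∨ ¬ S.bd δ (sg (S.lad δ m) P) j}) ⟨j, Or.inl le_rfl⟩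

theorem of_lt_mj (S : Pre Ω) (P : Path Ω) (δ : Ω) {j m : ℕ} (h : m < S.mj P δ j) :
    m < j ∧ S.bd δ (sg (S.lad δ m) P) j := by
  have h1 : ¬ (j ≤ m ∨ ¬ S.bd δ (sg (S.lad δ m) P) j) :=
    Nat.notMem_of_lt_sInf (s := {m | j ≤ m ∨ ¬ S.bd δ (sg (S.lad δ m) P) j}) h
  push Not at h1
  exact h1

end Pool.Agent.H60.BS
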