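import Pool.Agent.H60.BS.Bt

/-!
# ESub: the sets `S.e P δ` are almost disjoint (about 70 lines)

PROOF of `e_sub`. `δ` is a limit (`S.mem_e`). Use `mj_large` for `𝒰 = pure P` (`hinf` holds since
`S.e P δ` is infinite): if `ζ < lad δ m` and `j ≥ max J (D (lad δ) ζ + 1)` then every `k ∈ S.e P δ`
in the block `j` is in `S.xs ζ (P ζ) \ S.e P ζ` (last parts of `Bk`, `Lv`). So the difference is
contained in `{k | k < h δ (J' + 1)}`.

PROOF of `e_ad`. If some `ζ < min δ δ'` has `P ζ ≠ Q ζ`, then the intersection is almost contained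
in `xs ζ (P ζ) ∩ xs ζ (Q ζ)`, which is finite (`S.ad`). Otherwise, say `δ ≤ δ'` (the other case
is symmetric): `S.e P δ = S.e Q δ` by `e_congr`, so `δ ≠ δ'`, `δ < δ'` and by `e_sub` the set
`S.e Q δ'` is almost contained in `xs δ (Q δ) \ S.e Q δ`.
-/

set_option autoImplicit false

open Set Filter

namespace Pool.Agent.H60.BS

variable {Ω : Type} [OmType Ω]

theorem e_sub (S : Pre Ω) {P : Path Ω} {δ : Ω} (hinf : (S.e P δ).Infinite) {ζ : Ω} (hζ : ζ < δ) :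
    (S.e P δ \ (S.xs ζ (P ζ) \ S.e P ζ)).Finite := by
  obtain ⟨k0, hk0⟩ := hinf.nonempty
  obtain ⟨hlim, hl0, -⟩ := (S.mem_e P δ k0).1 hk0
  obtain ⟨m, hm⟩ := S.lad_cof δ hlim ζ hζ
  have hinf' : ∀ J : ℕ, ∃ k, J ≤ k ∧ ∀ᶠ P' in (pure P : Filter (Path Ω)), k ∈ S.e P' δ := by
    intro J
    obtain ⟨k, hk, hJ⟩ := hinf.exists_gt J
    exact ⟨k, hJ.le, by simpa using hk⟩
  obtain ⟨J, hJ⟩ := mj_large S hinf' m
  rw [Filter.eventually_pure] at hJ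
  apply (Set.finite_lt_nat (S.h δ (max J (S.D (S.lad δ) ζ + 1)))).subset
  rintro k ⟨hk, hk2⟩
  by_contra hcon
  simp only [Set.mem_ofPred_eq, not_lt] at hcon
  apply hk2
  obtain ⟨-, -, j, hj1, hj2, hj3, hj4⟩ := (S.mem_e P δ k).1 hk
  have hjJ : max J (S.D (S.lad δ) ζ + 1) ≤ j := by
    by_contra hlt
    have hlt' : j + 1 ≤ max J (S.D (S.lad δ) ζ + 1) := by omega
    have : S.h δ (j + 1) ≤ S.h δ (max J (S.D (S.lad δ) ζ + 1)) := (S.h_mono δ).monotone hlt'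
    omega
  have h1 := hJ j (le_trans (le_max_left _ _) hjJ)
  have h2 : S.D (S.lad δ) ζ < j :=
    lt_of_lt_of_le (Nat.lt_succ_self _) (le_trans (le_max_right _ _) hjJ)
  obtain ⟨hLv, hne⟩ := hj4 m h1 ζ hm h2
  exact ⟨hLv.2.2.2.2, hne⟩

theorem e_ad (S : Sys Ω) {P Q : Path Ω} (hP : S.VPath P) (hQ : S.VPath Q) {δ δ' : Ω}
    (h1 : (S.e P δ).Infinite) (h2 : (S.e Q δ').Infinite) (hne : S.e P δ ≠ S.e Q δ') :
    (S.e P δ ∩ S.e Q δ').Finite := by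
  by_cases hex : ∃ ζ, ζ < δ ∧ ζ < δ' ∧ P ζ ≠ Q ζ
  · obtain ⟨ζ, hζ, hζ', hPQ⟩ := hex
    have a1 := e_sub S.toPre h1 hζ
    have a2 := e_sub S.toPre h2 hζ'
    have a3 := S.ad ζ (P ζ) (Q ζ) (hP ζ) (hQ ζ) hPQ
    apply ((a1.union a2).union a3).subset
    rintro k ⟨hk1, hk2⟩
    by_cases c1 : k ∈ S.xs ζ (P ζ) \ S.e P ζ
    · by_cases c2 : k ∈ S.xs ζ (Q ζ) \ S.e Q ζ
      · exact Or.inr ⟨c1.1, c2.1⟩
      · exact Or.inl (Or.inr ⟨hk2, c2⟩)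
    · exact Or.inl (Or.inl ⟨hk1, c1⟩)
  · push Not at hex
    rcases lt_trichotomy δ δ' with h | h | h
    · have hc : S.e P δ = S.e Q δ := e_congr S.toPre δ (fun ξ hξ => hex ξ hξ (hξ.trans h))
      have a2 := e_sub S.toPre h2 h
      apply a2.subset
      rintro k ⟨hk1, hk2⟩
      exact ⟨hk2, fun hc2 => hc2.2 (hc ▸ hk1)⟩
    · subst h
      exact absurd (e_congr S.toPre δ (fun ξ hξ => hex ξ hξ hξ)) hne
    · have hc : S.e Q δ' = S.e P δ' :=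
        e_congr S.toPre δ' (fun ξ hξ => (hex ξ (hξ.trans h) hξ).symm)
      have a1 := e_sub S.toPre h1 h
      apply a1.subset
      rintro k ⟨hk1, hk2⟩
      exact ⟨hk1, fun hc2 => hc2.2 (hc ▸ hk2)⟩

end Pool.Agent.H60.BS
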