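import Pool.Agent.H60.BS.Defs

/-!
# Exi: a well order of type `ω₁` (about 50 lines)

PROOF. Take `Ω = (Cardinal.ord ℵ₁).ToType` (or `Set.Iio (ω₁ : Ordinal)`, brought to `Type`). Initial
segments have cardinality `< ℵ₁` (`Cardinal.mk_Iio_ord_toType`), hence are countable; a countable
set is bounded since the cofinality of `ω₁` is `ℵ₁` (`Cardinal.isRegular_aleph_one`): if it were
unbounded, `Ω` would be a countable union of the countable sets `Iic a`.
-/

set_option autoImplicit false

open Set Cardinal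

namespace Pool.Agent.H60.BS

theorem exists_omType : ∃ (Ω : Type) (_ : OmType Ω), #Ω = ℵ₁ := by
  have hcard : #((ℵ₁ : Cardinal.{0}).ord.ToType) = ℵ₁ := Cardinal.mk_ord_toType _
  have hIio : ∀ a : (ℵ₁ : Cardinal.{0}).ord.ToType, (Iio a).Countable := by
    intro a
    have h := Cardinal.mk_Iio_toType_ord_lt a
    rw [← Cardinal.le_aleph0_iff_set_countable]
    have h2 : #(Iio a) < Order.succ ℵ₀ := h.trans_le Cardinal.succ_aleph0.ge
    exact Order.lt_succ_iff.1 h2
  have hIic : ∀ a : (ℵ₁ : Cardinal.{0}).ord.ToType, (Iic a).Countable := by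
    intro a
    rw [← Iio_insert]
    exact (hIio a).insert a
  refine ⟨(ℵ₁ : Cardinal.{0}).ord.ToType, ⟨wellFounded_lt, hIio, ?_⟩, hcard⟩
  intro A hA
  by_contra hcon
  push Not at hcon
  have h1 : (univ : Set (ℵ₁ : Cardinal.{0}).ord.ToType) ⊆ ⋃ a ∈ A, Iic a := by
    intro b _
    obtain ⟨a, ha, hab⟩ := hcon b
    exact mem_biUnion ha hab
  have h2 : (univ : Set (ℵ₁ : Cardinal.{0}).ord.ToType).Countable :=
    (hA.biUnion fun a _ => hIic a).mono h1
  have h3 : #((ℵ₁ : Cardinal.{0}).ord.ToType) ≤ ℵ₀ := by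
    rw [← Cardinal.mk_univ]
    exact Cardinal.le_aleph0_iff_set_countable.2 h2
  rw [hcard] at h3
  exact absurd h3 (not_le.2 Cardinal.aleph0_lt_aleph_one)

end Pool.Agent.H60.BS
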