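import Pool.Agent.H60.BS.Ord

/-!
# Ext: pseudo-intersections and extension of nodes (about 110 lines)

* `exists_pseudo`: pick `x i ∈ u i` strictly increasing; `v = range x` (`u` is decreasing, so
  `x j ∈ u i` for `j ≥ i`).
* `ext_levels`: the countable set `A` is empty or the range of `a : ℕ → Ω`. Define `u i`, `E i`
  recursively: `u 0 = u`, `E i` is a valid entry with `u i ∩ xs (a i) (E i)` infinite (`S.mad`),
  `u (i+1) = u i ∩ xs (a i) (E i)`. Let `P' ξ = E i` for the least `i` with `a i = ξ` (and any valid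
  entry, from `S.mad ξ univ`, if there is none). Let `v` be a pseudo-intersection of the `u i` with
  `v ⊆ u 0`.
* `node_ext`: `ext_levels` for `A = {ξ | ζ ≤ ξ ∧ ξ < γ}` and `u`; the new path is `P` below `ζ` and
  `P'` elsewhere.
* `node_mono`: clear.
-/

set_option autoImplicit false

open Set

namespace Pool.Agent.H60.BS

variable {Ω : Type} [OmType Ω]

theorem exists_pseudo (u : ℕ → Set ℕ) (hanti : ∀ i, u (i + 1) ⊆ u i) (hinf : ∀ i, (u i).Infinite) :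
    ∃ v, v ⊆ u 0 ∧ v.Infinite ∧ ∀ i, (v \ u i).Finite := by
  have hA : Antitone u := antitone_nat_of_succ_le hanti
  have h1 : ∀ (i m : ℕ), ∃ n, n ∈ u i ∧ m < n := fun i m => (hinf i).exists_gt m
  choose g hg1 hg2 using h1
  let x : ℕ → ℕ := fun i => Nat.rec (g 0 0) (fun i m => g (i + 1) m) i
  have hx0 : x 0 = g 0 0 := rfl
  have hxs : ∀ i, x (i + 1) = g (i + 1) (x i) := fun i => rfl
  have hxm : ∀ i, x i ∈ u i := by
    intro i
    cases i with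
    | zero => rw [hx0]; exact hg1 0 0
    | succ i => rw [hxs]; exact hg1 _ _
  have hx : StrictMono x := strictMono_nat_of_lt_succ fun i => by
    rw [hxs]
    exact hg2 _ _
  refine ⟨range x, ?_, infinite_range_of_injective hx.injective, ?_⟩
  · rintro _ ⟨i, rfl⟩
    exact hA (Nat.zero_le i) (hxm i)
  · intro i
    refine ((finite_Iio i).image x).subset ?_
    rintro _ ⟨⟨j, rfl⟩, hj⟩
    refine ⟨j, ?_, rfl⟩
    rw [mem_Iio]
    by_contra hij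
    exact hj (hA (not_lt.1 hij) (hxm j))

theorem ext_levels (S : Sys Ω) {A : Set Ω} (hA : A.Countable) {u : Set ℕ} (hu : u.Infinite) :
    ∃ P' : Path Ω, S.VPath P' ∧ ∃ v, v ⊆ u ∧ v.Infinite ∧
      ∀ ξ ∈ A, (v \ S.xs ξ (P' ξ)).Finite := by
  classical
  have h1 : ∀ (ξ : Ω) (w : {w : Set ℕ // w.Infinite}),
      ∃ E, S.Valid E ∧ (w.1 ∩ S.xs ξ E).Infinite := fun ξ w => S.mad ξ w.1 w.2
  choose E hEv hEi using h1
  rcases A.eq_empty_or_nonempty with hemp | hne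
  · refine ⟨fun ξ => E ξ ⟨univ, infinite_univ⟩, fun ξ => hEv _ _, u, Subset.rfl, hu, ?_⟩
    intro ξ hξ
    rw [hemp] at hξ
    exact absurd hξ (notMem_empty ξ)
  obtain ⟨a, ha⟩ := hA.exists_eq_range hne
  let U : ℕ → {w : Set ℕ // w.Infinite} := fun i =>
    Nat.rec ⟨u, hu⟩ (fun i w => ⟨w.1 ∩ S.xs (a i) (E (a i) w), hEi (a i) w⟩) i
  have hU0 : (U 0).1 = u := rfl
  have hUs : ∀ i, (U (i + 1)).1 = (U i).1 ∩ S.xs (a i) (E (a i) (U i)) := fun i => rfl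
  let P' : Path Ω := fun ξ =>
    if h : ∃ i, a i = ξ then E ξ (U (Nat.find h)) else E ξ ⟨univ, infinite_univ⟩
  have hP' : ∀ ξ (h : ∃ i, a i = ξ), P' ξ = E ξ (U (Nat.find h)) := fun ξ h => dif_pos h
  obtain ⟨v, hv0, hvinf, hv⟩ := exists_pseudo (fun i => (U i).1)
    (fun i => by
      show (U (i + 1)).1 ⊆ (U i).1
      rw [hUs]
      exact inter_subset_left) (fun i => (U i).2)
  refine ⟨P', ?_, v, hv0, hvinf, ?_⟩
  · intro ξ
    by_cases h : ∃ i, a i = ξ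
    · rw [hP' ξ h]
      exact hEv _ _
    · have h2 : P' ξ = E ξ ⟨univ, infinite_univ⟩ := dif_neg h
      rw [h2]
      exact hEv _ _
  · intro ξ hξ
    rw [ha] at hξ
    have h : ∃ i, a i = ξ := hξ
    have hf : a (Nat.find h) = ξ := Nat.find_spec h
    rw [hP' ξ h]
    refine (hv (Nat.find h + 1)).subset ?_
    intro k hk
    refine ⟨hk.1, fun hkU => hk.2 ?_⟩
    have hkU' : k ∈ (U (Nat.find h + 1)).1 := hkU
    rw [hUs, hf] at hkU'
    exact hkU'.2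

theorem node_ext (S : Sys Ω) {z : Set ℕ} {P : Path Ω} {ζ : Ω} {u : Set ℕ}
    (hN : S.IsNode z P ζ u) {γ : Ω} (hγ : ζ ≤ γ) :
    ∃ P' v, S.IsNode z P' γ v ∧ v ⊆ u ∧ ∀ ξ, ξ < ζ → P' ξ = P ξ := by
  classical
  have hA : {ξ | ζ ≤ ξ ∧ ξ < γ}.Countable :=
    (OmType.countable_Iio γ).mono fun ξ hξ => hξ.2
  obtain ⟨Q, hQ, v, hvu, hvinf, hv⟩ := ext_levels S hA hN.infinite
  obtain ⟨R, h1, h2⟩ : ∃ R : Path Ω, (∀ ξ, ξ < ζ → R ξ = P ξ) ∧ ∀ ξ, ¬ ξ < ζ → R ξ = Q ξ :=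
    ⟨fun ξ => if ξ < ζ then P ξ else Q ξ, fun ξ hξ => if_pos hξ, fun ξ hξ => if_neg hξ⟩
  refine ⟨R, v, ⟨?_, hvinf, hvu.trans hN.sub, ?_⟩, hvu, h1⟩
  · intro ξ
    by_cases hξ : ξ < ζ
    · rw [h1 ξ hξ]
      exact hN.valid ξ
    · rw [h2 ξ hξ]
      exact hQ ξ
  · intro ξ hξγ
    by_cases hξ : ξ < ζ
    · rw [h1 ξ hξ]
      exact (hN.almost ξ hξ).subset (sdiff_subset_sdiff_left hvu)
    · rw [h2 ξ hξ]
      exact hv ξ ⟨not_lt.1 hξ, hξγ⟩

theorem node_mono (S : Pre Ω) {z : Set ℕ} {P : Path Ω} {ζ : Ω} {u v : Set ℕ}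
    (hN : S.IsNode z P ζ u) (hv : v ⊆ u) (hinf : v.Infinite) : S.IsNode z P ζ v :=
  ⟨hN.valid, hinf, hv.trans hN.sub, fun ξ hξ =>
    (hN.almost ξ hξ).subset (sdiff_subset_sdiff_left hv)⟩

end Pool.Agent.H60.BS
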