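import Pool.Agent.H60.BS.EBas

/-!
# GoodE: good bounds exist (about 110 lines)

PROOF. Let `Z = {ζ | ∃ m < n, ζ < a m ∧ D a ζ < s}`: finite (`finite_D`), and all its elements are
below `lam t`. For `ζ ∈ Z` the sets `u1 t \ xs ζ (P1 t ζ)` (`u1_almost`) and `u1 t ∩ e (P1 t) ζ`
(`hunc`, `u1_sub`) are finite. So there is `k ∈ u1 t`, `k ≥ s`, outside these finitely many finite
sets. The numbers `D a (P1 t ζ).a`, `(P1 t ζ).f i` (`i < s`), `D a (sg ζ (P1 t))` for `ζ ∈ Z` are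
finitely many. For `ζ ∈ Z` the set `{τ | τ < sg ζ (P1 t) ∧ D a τ < s}` is finite (`finite_D`;
`sg ζ (P1 t) ≤ sg (lam t) (P1 t) < a K` by `sg_mono`). The values `s i = sg (a n) (P (nx t (a n) i))`
are pairwise distinct (`sg_mono` of the machine) and `< a K`; only finitely many elements below
`a K` have rank `≤ s` (`finite_D`), so some `i` has `s < D a (s i)`. `N` is the maximum of `k + 1`
and all numbers. (`Set.Finite.bddAbove` or `Finset.exists_le`/`Finset.sup`.)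
-/

set_option autoImplicit false

open Set

namespace Pool.Agent.H60.BS

variable {Ω : Type} [OmType Ω]

theorem exists_good (S : Pre Ω) {z : Set ℕ} (M : Machine S z)
    (hunc : ∀ P, S.VPath P → ∀ δ, (z ∩ S.e P δ).Finite) (t : M.T) (a : ℕ → Ω) (n K : ℕ)
    (h1 : ∀ m, m < n → a m ≤ M.lam t) (h2 : M.lam t < a n)
    (h3 : sg (M.lam t) (M.P1 t) < a K) (h4 : ∀ i, sg (a n) (M.P (M.nx t (a n) i)) < a K) (s : ℕ) :
    ∃ N, M.Good t a n s N := by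
  classical
  have hZ : {ζ | ∃ m, m < n ∧ ζ < a m ∧ S.D a ζ < s}.Finite := by
    refine (finite_D S a s).subset ?_
    rintro ζ ⟨m, _, h, h'⟩
    exact ⟨⟨m, h⟩, h'.le⟩
  have hlam : ∀ ζ ∈ {ζ | ∃ m, m < n ∧ ζ < a m ∧ S.D a ζ < s}, ζ < M.lam t := by
    rintro ζ ⟨m, hm, h, _⟩
    exact lt_of_lt_of_le h (h1 m hm)
  have hk : ∃ k, s ≤ k ∧ k ∈ M.u1 t ∧ ∀ ζ ∈ {ζ | ∃ m, m < n ∧ ζ < a m ∧ S.D a ζ < s},
      k ∈ S.xs ζ (M.P1 t ζ) ∧ k ∉ S.e (M.P1 t) ζ := by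
    have hb : (⋃ ζ ∈ {ζ | ∃ m, m < n ∧ ζ < a m ∧ S.D a ζ < s},
        ((M.u1 t \ S.xs ζ (M.P1 t ζ)) ∪ (M.u1 t ∩ S.e (M.P1 t) ζ))).Finite := by
      refine Set.Finite.biUnion hZ fun ζ hζ => ?_
      refine (M.u1_almost t ζ (hlam ζ hζ)).union ?_
      exact (hunc (M.P1 t) (M.valid1 t) ζ).subset (Set.inter_subset_inter_left _ (M.u1_sub t))
    have h5 := (M.u1_inf t).sdiff (hb.union (Set.finite_Iio s))
    obtain ⟨k, hk1, hk2⟩ := h5.nonempty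
    refine ⟨k, ?_, hk1, ?_⟩
    · by_contra hc
      push Not at hc
      exact hk2 (Or.inr hc)
    · intro ζ hζ
      constructor
      · by_contra hc
        refine hk2 (Or.inl ?_)
        rw [Set.mem_iUnion₂]
        exact ⟨ζ, hζ, Or.inl ⟨hk1, hc⟩⟩
      · intro hc
        refine hk2 (Or.inl ?_)
        rw [Set.mem_iUnion₂]
        exact ⟨ζ, hζ, Or.inr ⟨hk1, hc⟩⟩
  obtain ⟨k, hk1, hk2, hk3⟩ := hk
  have hF : ∀ ζ, ∃ F : ℕ, ζ < M.lam t → S.D a (M.P1 t ζ).a ≤ F ∧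
      (∀ i, i < s → (M.P1 t ζ).f i ≤ F) ∧ S.D a (sg ζ (M.P1 t)) ≤ F ∧
        ∀ τ, τ < sg ζ (M.P1 t) → S.D a τ < s → S.wn (M.P1 t) ζ τ ≤ F := by
    intro ζ
    by_cases hζ : ζ < M.lam t
    · have hfin : {τ | τ < sg ζ (M.P1 t) ∧ S.D a τ < s}.Finite := by
        refine (finite_D S a s).subset ?_
        rintro τ ⟨h5, h6⟩
        exact ⟨⟨K, lt_of_lt_of_le h5 ((sg_mono (M.P1 t) hζ.le).trans h3.le)⟩, h6.le⟩
      obtain ⟨W, hW⟩ := (hfin.image (S.wn (M.P1 t) ζ)).bddAbove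
      obtain ⟨G, hG⟩ := ((Set.finite_Iio s).image (M.P1 t ζ).f).bddAbove
      refine ⟨max (max (S.D a (M.P1 t ζ).a) G) (max (S.D a (sg ζ (M.P1 t))) W), fun _ => ?_⟩
      refine ⟨(le_max_left _ _).trans (le_max_left _ _), ?_,
        (le_max_left _ _).trans (le_max_right _ _), ?_⟩
      · intro i hi
        exact (hG ⟨i, hi, rfl⟩).trans ((le_max_right _ _).trans (le_max_left _ _))
      · intro τ h5 h6
        exact (hW ⟨τ, ⟨h5, h6⟩, rfl⟩).trans ((le_max_right _ _).trans (le_max_right _ _))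
    · exact ⟨0, fun h => absurd h hζ⟩
  choose F hF using hF
  obtain ⟨N0, hN0⟩ := (hZ.image F).bddAbove
  have hi : ∃ i, s < S.D a (sg (a n) (M.P (M.nx t (a n) i))) := by
    by_contra hc
    push Not at hc
    have hinj := (M.sg_mono t (a n) h2).injective
    have hr := Set.infinite_range_of_injective hinj
    refine hr ((finite_D S a s).subset ?_)
    rintro _ ⟨i, rfl⟩
    exact ⟨⟨K, h4 i⟩, hc i⟩
  obtain ⟨i, hi⟩ := hi
  refine ⟨max (max (k + 1) N0) (S.D a (sg (a n) (M.P (M.nx t (a n) i)))), ?_, ?_, ?_⟩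
  · refine ⟨k, hk1, ?_, hk2, fun m hm ζ hζ hD => hk3 ζ ⟨m, hm, hζ, hD⟩⟩
    exact lt_of_lt_of_le (Nat.lt_succ_self k) ((le_max_left _ _).trans (le_max_left _ _))
  · intro m hm ζ hζ hD
    have h5 : F ζ ≤ max (max (k + 1) N0) (S.D a (sg (a n) (M.P (M.nx t (a n) i)))) :=
      (hN0 ⟨ζ, ⟨m, hm, hζ, hD⟩, rfl⟩).trans ((le_max_right _ _).trans (le_max_left _ _))
    obtain ⟨h6, h7, h8, h9⟩ := hF ζ (hlam ζ ⟨m, hm, hζ, hD⟩)
    exact ⟨h6.trans h5, fun i hi => (h7 i hi).trans h5, h8.trans h5,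
      fun τ h10 h11 => (h9 τ h10 h11).trans h5⟩
  · exact ⟨i, hi, le_max_right _ _⟩

theorem good_congr (S : Pre Ω) {z : Set ℕ} (M : Machine S z) (t : M.T) {a b : ℕ → Ω} {n K : ℕ}
    (hab : ∀ i, i ≤ K → a i = b i) (hmono : StrictMono b) (hnK : n ≤ K)
    (h1 : ∀ m, m < n → b m ≤ M.lam t)
    (h3 : sg (M.lam t) (M.P1 t) < b K) (h4 : ∀ i, sg (b n) (M.P (M.nx t (b n) i)) < b K) {s N : ℕ}
    (h : M.Good t a n s N) : M.Good t b n s N := by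
  have hn : a n = b n := hab n hnK
  have hD : ∀ β, β < b K → S.D b β = S.D a β := fun β hβ =>
    (D_congr S hab (by rw [hab K le_rfl]; exact hβ)).symm
  have hbm : ∀ m, m < n → a m = b m := fun m hm => hab m (hm.le.trans hnK)
  have hlt : ∀ m, m < n → ∀ ζ, ζ < b m → ζ < b K := fun m hm ζ hζ =>
    hζ.trans (hmono (lt_of_lt_of_le hm hnK))
  obtain ⟨⟨k, hk1, hk2, hk3, hk4⟩, hB, i, hi1, hi2⟩ := h
  refine ⟨⟨k, hk1, hk2, hk3, ?_⟩, ?_, i, ?_, ?_⟩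
  · intro m hm ζ hζ hs
    rw [hD ζ (hlt m hm ζ hζ)] at hs
    exact hk4 m hm ζ (by rw [hbm m hm]; exact hζ) hs
  · intro m hm ζ hζ hs
    rw [hD ζ (hlt m hm ζ hζ)] at hs
    obtain ⟨h6, h7, h8, h9⟩ := hB m hm ζ (by rw [hbm m hm]; exact hζ) hs
    have hζl : ζ < M.lam t := lt_of_lt_of_le hζ (h1 m hm)
    have hsg : sg ζ (M.P1 t) < b K := lt_of_le_of_lt (sg_mono (M.P1 t) hζl.le) h3
    refine ⟨?_, h7, ?_, ?_⟩
    · rw [hD _ ((lt_sg (M.P1 t) hζl).trans h3)]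
      exact h6
    · rw [hD _ hsg]
      exact h8
    · intro τ h10 h11
      rw [hD _ (h10.trans hsg)] at h11
      exact h9 τ h10 h11
  · rw [hD _ (h4 i), ← hn]
    exact hi1
  · rw [hD _ (h4 i), ← hn]
    exact hi2

end Pool.Agent.H60.BS
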