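import Pool.Agent.H60.BS.Bt

/-!
# LimE: limits of paths along an ultrafilter (about 140 lines)

PROOF. Let `ζ < δ`.
* `labels` (with `J = 0`): for some `N`, most `P` have `bd δ (P ζ).a N` and `bd δ (sg ζ P) N`. The
  set `{β | β < δ ∧ D (lad δ) β ≤ N}` is finite (`finite_D`, `S.lad_cof`), so there are `a ζ`, `s ζ`
  with `(P ζ).a = a ζ` and `sg ζ P = s ζ` for most `P` (an ultrafilter that contains a finite union
  contains a member: `Ultrafilter.eventually_exists_mem_iff` or `Filter.Finite...`, or by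
  `Ultrafilter` and `Set.Finite` induction).
* `labels` with `J = i + 1`: `(P ζ).f i ≤ N`, so there is `f ζ i` with `(P ζ).f i = f ζ i` for most
  `P`. `Bool` is finite, so there are `p ζ i`, `y ζ i`.
* `Q ζ = ⟨a ζ, p ζ, y ζ, f ζ⟩` for `ζ < δ`; for `ζ ≥ δ` let `Q ζ` be any valid entry (`S.mad ζ univ`).
* `Q` is valid: `(y ζ, f ζ)` is the limit of `((P ζ).y, (P ζ).f)` along `𝒰` (product topology,
  every coordinate is eventually constant: `tendsto_pi_nhds`), these are in the closed set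
  `V (a ζ)` for most `P` (`IsClosed.mem_of_tendsto`).
* `sg ζ Q = s ζ`: for `ξ < ζ` we have `(Q ξ).a = (P ξ).a < sg ζ P = s ζ` for most `P`, so
  `sg ζ Q ≤ s ζ` (`ssup_le`). Conversely let `τ < s ζ`; as `s ζ < δ`, `τ < δ`. For most `P` we have
  `wn P ζ τ ≤ N` (`labels` with `J = D (lad δ) τ + 1`), so there is `n` with `wn P ζ τ = n` for
  most `P`. As `τ < sg ζ P`, the set in the definition of `wn` is nonempty (`exists_of_lt_ssup`),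
  so there is `ξ < ζ` with `num ζ ξ = n` and `τ ≤ (P ξ).a`; `ξ` does not depend on `P` (injectivity).
  So `τ ≤ (Q ξ).a < sg ζ Q`. Hence `s ζ ≤ sg ζ Q` (otherwise take `τ = sg ζ Q`).
* `wn Q ζ τ = n` for `τ < sg ζ Q = s ζ`, `n` as above: `wn Q ζ τ ≤ n` by the witness `ξ`. If
  `n' < n` were attained by some `ξ' < ζ` with `num ζ ξ' = n'`, `τ ≤ (Q ξ').a`, then
  `τ ≤ (P ξ').a` for most `P`, so `wn P ζ τ ≤ n' < n` for most `P`.
-/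

set_option autoImplicit false

open Set Filter

namespace Pool.Agent.H60.BS

variable {Ω : Type} [OmType Ω]

private theorem ultra_const {X Y : Type} (𝒰 : Ultrafilter X) (f : X → Y) {s : Set Y}
    (hs : s.Finite) (h : ∀ᶠ x in (𝒰 : Filter X), f x ∈ s) :
    ∃ y ∈ s, ∀ᶠ x in (𝒰 : Filter X), f x = y := by
  have he : {x | f x ∈ s} = ⋃ y ∈ s, {x | f x = y} := by
    ext x
    simp
  have h' : (⋃ y ∈ s, {x | f x = y}) ∈ 𝒰 := by
    rw [← he]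
    exact h
  exact (Ultrafilter.finite_biUnion_mem_iff hs).1 h'

theorem exists_lim (S : Sys Ω) (𝒰 : Ultrafilter (Path Ω)) {δ : Ω} (hδ : IsLim δ)
    (hval : ∀ᶠ P in (𝒰 : Filter (Path Ω)), S.VPath P)
    (hinf : ∀ J : ℕ, ∃ k, J ≤ k ∧ ∀ᶠ P in (𝒰 : Filter (Path Ω)), k ∈ S.e P δ) :
    ∃ Q, S.VPath Q ∧ S.Lim (𝒰 : Filter (Path Ω)) δ Q := by
  classical
  have hfin : ∀ N, {β | S.bd δ β N}.Finite := by
    intro N
    apply (finite_D S.toPre (S.lad δ) N).subset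
    rintro β ⟨h1, h2⟩
    exact ⟨S.lad_cof δ hδ β h1, h2⟩
  have ha : ∀ ζ, ζ < δ → ∃ a : Ω, ∀ᶠ P in (𝒰 : Filter (Path Ω)), (P ζ).a = a := by
    intro ζ hζ
    obtain ⟨N, hN⟩ := labels S.toPre hδ hinf hζ 0
    obtain ⟨a, -, h⟩ := ultra_const 𝒰 (fun P => (P ζ).a) (hfin N) (hN.mono fun P hP => hP.1)
    exact ⟨a, h⟩
  have hs : ∀ ζ, ζ < δ → ∃ s : Ω, s < δ ∧ ∀ᶠ P in (𝒰 : Filter (Path Ω)), sg ζ P = s := by
    intro ζ hζ
    obtain ⟨N, hN⟩ := labels S.toPre hδ hinf hζ 0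
    obtain ⟨s, hs, h⟩ := ultra_const 𝒰 (fun P => sg ζ P) (hfin N) (hN.mono fun P hP => hP.2.2.1)
    exact ⟨s, hs.1, h⟩
  have hf : ∀ ζ, ζ < δ → ∀ i : ℕ, ∃ n : ℕ, ∀ᶠ P in (𝒰 : Filter (Path Ω)), (P ζ).f i = n := by
    intro ζ hζ i
    obtain ⟨N, hN⟩ := labels S.toPre hδ hinf hζ (i + 1)
    obtain ⟨n, -, h⟩ := ultra_const 𝒰 (fun P => (P ζ).f i) (Set.finite_Iic N)
      (hN.mono fun P hP => hP.2.1 i (Nat.lt_succ_self i))
    exact ⟨n, h⟩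
  have hp : ∀ ζ, ζ < δ → ∀ i : ℕ, ∃ b : Bool, ∀ᶠ P in (𝒰 : Filter (Path Ω)), (P ζ).p i = b := by
    intro ζ _ i
    obtain ⟨b, -, h⟩ := ultra_const 𝒰 (fun P => (P ζ).p i) (Set.finite_univ)
      (Filter.Eventually.of_forall fun P => Set.mem_univ _)
    exact ⟨b, h⟩
  have hy : ∀ ζ, ζ < δ → ∀ i : ℕ, ∃ b : Bool, ∀ᶠ P in (𝒰 : Filter (Path Ω)), (P ζ).y i = b := by
    intro ζ _ i
    obtain ⟨b, -, h⟩ := ultra_const 𝒰 (fun P => (P ζ).y i) (Set.finite_univ)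
      (Filter.Eventually.of_forall fun P => Set.mem_univ _)
    exact ⟨b, h⟩
  choose! a ha using ha
  choose! s hs using hs
  choose! f hf using hf
  choose! p hp using hp
  choose! y hy using hy
  have hE : ∀ ζ, ∃ E, S.Valid E := fun ζ => by
    obtain ⟨E, hE, -⟩ := S.mad ζ univ Set.infinite_univ
    exact ⟨E, hE⟩
  choose E0 hE0 using hE
  let Q : Path Ω := fun ζ => if ζ < δ then ⟨a ζ, p ζ, y ζ, f ζ⟩ else E0 ζ
  have hQ : ∀ ζ, ζ < δ → Q ζ = ⟨a ζ, p ζ, y ζ, f ζ⟩ := fun ζ hζ => if_pos hζ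
  have hQa : ∀ ζ, ζ < δ → (Q ζ).a = a ζ := fun ζ hζ => by rw [hQ ζ hζ]
  -- witnesses
  have hW : ∀ ζ, ζ < δ → ∀ τ, τ < s ζ → ∃ n ξ, ξ < ζ ∧ S.num ζ ξ = n ∧
      (∀ᶠ P in (𝒰 : Filter (Path Ω)), S.wn P ζ τ = n) ∧ τ ≤ a ξ := by
    intro ζ hζ τ hτ
    obtain ⟨hsδ, hsP⟩ := hs ζ hζ
    have hτδ : τ < δ := hτ.trans hsδ
    obtain ⟨N, hN⟩ := labels S.toPre hδ hinf hζ (S.D (S.lad δ) τ + 1)
    have h1 : ∀ᶠ P in (𝒰 : Filter (Path Ω)), S.wn P ζ τ ≤ N := by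
      filter_upwards [hN, hsP] with P hP1 hP2
      exact hP1.2.2.2 τ (hP2 ▸ hτ) hτδ (Nat.lt_succ_self _)
    obtain ⟨n, -, hn⟩ := ultra_const 𝒰 (fun P => S.wn P ζ τ) (Set.finite_Iic N) h1
    have h2 : ∀ᶠ P in (𝒰 : Filter (Path Ω)), ∃ ξ, ξ < ζ ∧ S.num ζ ξ = n ∧ τ ≤ (P ξ).a := by
      filter_upwards [hn, hsP] with P hP1 hP2
      have hτP : τ < sg ζ P := hP2 ▸ hτ
      obtain ⟨b, ⟨ξ, hξ, rfl⟩, hb⟩ := exists_of_lt_ssup hτP
      have hne : {n | ∃ ξ, ξ < ζ ∧ S.num ζ ξ = n ∧ τ ≤ (P ξ).a}.Nonempty :=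
        ⟨S.num ζ ξ, ξ, hξ, rfl, hb⟩
      have := Nat.sInf_mem hne
      obtain ⟨ξ', h3, h4, h5⟩ := this
      exact ⟨ξ', h3, h4.trans hP1, h5⟩
    obtain ⟨P0, ξ0, hξ0, hn0, -⟩ := h2.exists
    have h3 : ∀ᶠ P in (𝒰 : Filter (Path Ω)), τ ≤ (P ξ0).a := by
      filter_upwards [h2] with P hP
      obtain ⟨ξ, hξ, h4, h5⟩ := hP
      have : ξ = ξ0 := S.num_inj ζ hξ hξ0 (h4.trans hn0.symm)
      exact this ▸ h5
    obtain ⟨P1, hP1, hP2⟩ := (h3.and (ha ξ0 (hξ0.trans hζ))).exists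
    exact ⟨n, ξ0, hξ0, hn0, hn, hP2 ▸ hP1⟩
  have hsg : ∀ ζ, ζ < δ → sg ζ Q = s ζ := by
    intro ζ hζ
    apply le_antisymm
    · apply ssup_le
      rintro _ ⟨ξ, hξ, rfl⟩
      have hξ' : ξ < ζ := hξ
      have h1 : (Q ξ).a = a ξ := hQa ξ (hξ'.trans hζ)
      obtain ⟨P, hP1, hP2⟩ := ((ha ξ (hξ'.trans hζ)).and (hs ζ hζ).2).exists
      show (Q ξ).a < s ζ
      rw [h1, ← hP1, ← hP2]
      exact lt_sg P hξ'
    · by_contra hlt
      have hlt' : sg ζ Q < s ζ := not_le.1 hlt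
      obtain ⟨n, ξ, hξ, -, -, h1⟩ := hW ζ hζ _ hlt'
      have h2 : (Q ξ).a < sg ζ Q := lt_sg Q hξ
      rw [hQa ξ (hξ.trans hζ)] at h2
      exact absurd h2 (not_lt.2 h1)
  refine ⟨Q, ?_, ⟨?_, ?_, ?_, ?_, ?_, ?_⟩⟩
  · intro ζ
    by_cases hζ : ζ < δ
    · rw [hQ ζ hζ]
      have hT : Filter.Tendsto (fun P : Path Ω => ((P ζ).y, (P ζ).f)) (𝒰 : Filter (Path Ω))
          (nhds (y ζ, f ζ)) := by
        apply Filter.Tendsto.prodMk_nhds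
        · rw [tendsto_pi_nhds]
          intro i
          exact tendsto_const_nhds.congr' ((hy ζ hζ i).mono fun P hP => hP.symm)
        · rw [tendsto_pi_nhds]
          intro i
          exact tendsto_const_nhds.congr' ((hf ζ hζ i).mono fun P hP => hP.symm)
      refine (S.V_closed (a ζ)).mem_of_tendsto hT ?_
      filter_upwards [hval, ha ζ hζ] with P hP1 hP2
      have := hP1 ζ
      unfold Pre.Valid at this
      rw [hP2] at this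
      exact this
    · have : Q ζ = E0 ζ := if_neg hζ
      rw [this]
      exact hE0 ζ
  · intro ζ hζ
    rw [hQ ζ hζ]
    exact ha ζ hζ
  · intro ζ hζ i
    rw [hQ ζ hζ]
    exact hp ζ hζ i
  · intro ζ hζ i
    rw [hQ ζ hζ]
    exact hy ζ hζ i
  · intro ζ hζ i
    rw [hQ ζ hζ]
    exact hf ζ hζ i
  · intro ζ hζ
    rw [hsg ζ hζ]
    exact (hs ζ hζ).2
  · intro ζ hζ τ hτ
    rw [hsg ζ hζ] at hτ
    obtain ⟨n, ξ, hξ, hn, hwn, hle⟩ := hW ζ hζ τ hτ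
    have h1 : S.wn Q ζ τ ≤ n :=
      Nat.sInf_le ⟨ξ, hξ, hn, by rw [hQa ξ (hξ.trans hζ)]; exact hle⟩
    have hne : {n | ∃ ξ, ξ < ζ ∧ S.num ζ ξ = n ∧ τ ≤ (Q ξ).a}.Nonempty :=
      ⟨n, ξ, hξ, hn, by rw [hQa ξ (hξ.trans hζ)]; exact hle⟩
    obtain ⟨ξ', hξ', h2, h3⟩ := Nat.sInf_mem hne
    rw [hQa ξ' (hξ'.trans hζ)] at h3
    have h4 : n ≤ S.wn Q ζ τ := by
      obtain ⟨P, hP1, hP2⟩ := (hwn.and (ha ξ' (hξ'.trans hζ))).exists
      rw [← hP1]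
      apply Nat.sInf_le
      refine ⟨ξ', hξ', h2, ?_⟩
      rw [hP2]
      exact h3
    have h5 : S.wn Q ζ τ = n := le_antisymm h1 h4
    rw [h5]
    exact hwn

end Pool.Agent.H60.BS
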