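import Pool.Agent.H60.BS.MBas

/-!
# MAd: the sets of one level are almost disjoint; they are not split (about 100 lines)

PROOF of `xs_ad`. Write `p = E.p`, `q = E'.p`.
* `p ≠ q`: let `p i ≠ q i`. For `k > i`... for every `k` not `≤ i`: `dn ζ p k ≤ i` or
  `dn ζ q k ≤ i` (otherwise `ph ζ k i = p i` and `ph ζ k i = q i` by `ph_eq`). So the intersection is
  contained in `⋃ n ≤ i, {k | E.y (pi ζ p k) ∧ dn ζ p k = n}` and the same for `E'`: finite by
  `dn_fin`.
* `p = q`, `E.y ≠ E'.y`: `pi ζ p` is injective and maps the intersection into the intersection of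
  two distinct members (`M.ad`).
* `p = q`, `E.y = E'.y`: the indices agree (`M.disj`), the codes agree (`M.V_uniq`), so `E = E'`.

PROOF of `unsplit`. Let `en ζ i = η`. For all but finitely many `k ∈ xs ζ E` we have
`i < dn ζ E.p k` (`dn_fin` for `n ≤ i`), so `ph ζ k i = E.p i` (`ph_eq`), i.e.
`k ∈ Sp η ↔ E.p i = true`.
-/

set_option autoImplicit false

open Set

namespace Pool.Agent.H60.BS

variable {Ω : Type} [OmType Ω] (M : MadData Ω)

theorem dn_le_fin {y : ℕ → Bool} (hy : M.Mem y) (ζ : Ω) (p : ℕ → Bool) (i : ℕ) :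
    {k | y (M.pi ζ p k) = true ∧ M.dn ζ p k ≤ i}.Finite := by
  have h1 : {k | y (M.pi ζ p k) = true ∧ M.dn ζ p k ≤ i} ⊆
      ⋃ n ∈ Iic i, {k | y (M.pi ζ p k) = true ∧ M.dn ζ p k = n} := by
    rintro k ⟨h1, h2⟩
    simp only [mem_iUnion]
    exact ⟨M.dn ζ p k, h2, h1, rfl⟩
  exact ((finite_Iic i).biUnion fun n _ => dn_fin M hy ζ p n).subset h1

theorem xs_ad (ζ : Ω) {E E' : Ent Ω} (hE : M.Valid E) (hE' : M.Valid E') (hne : E ≠ E') :
    (M.xs ζ E ∩ M.xs ζ E').Finite := by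
  have hm := mem_of_valid M hE
  have hm' := mem_of_valid M hE'
  by_cases hp : E.p = E'.p
  · by_cases hy : E.y = E'.y
    · exfalso
      apply hne
      have h1 : E.y ∈ M.B E.a := ((M.V_iff E.a E.y).1 ⟨E.f, hE⟩).1
      have h2 : E'.y ∈ M.B E'.a := ((M.V_iff E'.a E'.y).1 ⟨E'.f, hE'⟩).1
      rw [← hy] at h2
      have h3 : E.a = E'.a := M.disj _ _ _ h1 h2
      have h4 : E.f = E'.f := by
        have h5 : (E.y, E'.f) ∈ M.V E.a := by
          rw [hy, h3]
          exact hE'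
        exact M.V_uniq E.a E.y E.f E'.f hE h5
      cases E
      cases E'
      simp only at hp hy h3 h4
      subst hp
      subst hy
      subst h3
      subst h4
      rfl
    · obtain ⟨a, ha⟩ := hm.1
      obtain ⟨b, hb⟩ := hm'.1
      have h1 := M.ad a b E.y ha E'.y hb hy
      have h2 : M.xs ζ E ∩ M.xs ζ E' =
          M.pi ζ E.p ⁻¹' ({n | E.y n = true} ∩ {n | E'.y n = true}) := by
        ext k
        simp only [MadData.xs, mem_inter_iff, mem_ofPred_eq, mem_preimage, hp]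
      rw [h2]
      exact h1.preimage (pi_inj M ζ E.p).injOn
  · obtain ⟨i, hi⟩ := Function.ne_iff.1 hp
    refine ((dn_le_fin M hm ζ E.p i).union (dn_le_fin M hm' ζ E'.p i)).subset ?_
    rintro k ⟨h1, h2⟩
    by_cases h3 : M.dn ζ E.p k ≤ i
    · exact Or.inl ⟨h1, h3⟩
    · refine Or.inr ⟨h2, ?_⟩
      by_contra h4
      apply hi
      rw [← ph_eq M (not_le.1 h3), ← ph_eq M (not_le.1 h4)]

theorem unsplit {ζ η : Ω} (hη : η ≤ ζ) {E : Ent Ω} (hE : M.Valid E) :
    (M.xs ζ E ∩ M.Sp η).Finite ∨ (M.xs ζ E \ M.Sp η).Finite := by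
  obtain ⟨i, hi⟩ := M.en_surj ζ η hη
  have hf := dn_le_fin M (mem_of_valid M hE) ζ E.p i
  cases hp : E.p i with
  | false =>
    left
    refine hf.subset ?_
    rintro k ⟨h1, h2⟩
    refine ⟨h1, ?_⟩
    by_contra h4
    have h5 := ph_eq M (not_le.1 h4)
    rw [hp] at h5
    simp only [MadData.ph, hi, decide_eq_false_iff_not] at h5
    exact h5 h2
  | true =>
    right
    refine hf.subset ?_
    rintro k ⟨h1, h2⟩
    refine ⟨h1, ?_⟩
    by_contra h4
    have h5 := ph_eq M (not_le.1 h4)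
    rw [hp] at h5
    simp only [MadData.ph, hi, decide_eq_true_eq] at h5
    exact h2 h5

end Pool.Agent.H60.BS
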