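import Pool.Agent.H60.BS.MadDefs

/-!
# MBas: basic facts on the functions `cls`, `dn`, `pi` (about 130 lines)

* `cls_cases`, `cls_le`: `Nat.sInf_mem` (the set contains `j`), `Nat.sInf_le`.
* `cls_infinite`: `{j | c n j = true} \ (⋃ m < n, {j | c m j = true} ∪ {j | j < n})` is infinite
  (`inf`, `ad`, `c_inj`, `c_mem`) and contained in `{j | cls j = n}`.
* `cls_pi`, `le_pi`: `Nat.nth_mem_of_infinite`, `Nat.nth_strictMono` (`StrictMono.le_apply`).
* `pi_inj`: if `pi ζ p k = pi ζ p k'` then the classes `dn ζ p k = dn ζ p k'` agree (`cls_pi`), and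
  `Nat.nth` of the same infinite predicate is injective.
* `dn_congr`: if `p`, `q` agree below `k` then the sets agree below `k`, and both contain `k`.
* `ph_eq`: `Nat.notMem_of_lt_sInf`. `le_dn`: a smaller element of the set would be `≠ k` and a
  difference `< n`.
* `mem_fin`: `{j | cls j = n} ⊆ {n} ∪ {j | c n j = true}` and `ad`.
* `dn_fin`: `pi ζ p` is injective and maps the set into `{j | y j = true ∧ cls j = n}` (`cls_pi`).
* `conv`: `z = pi ζ p '' w` is infinite; `mad` gives `x ∈ B a` with `{x} ∩ z` infinite, so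
  `{k ∈ w | x (pi ζ p k) = true}` is infinite. If `x = c n`, then `cls (pi ζ p k) ≤ n` for all these
  `k` (`cls_le`), i.e. `dn ζ p k ≤ n`: finitely many, contradiction.
* `code`: `V_iff`.
-/

set_option autoImplicit false

open Set

namespace Pool.Agent.H60.BS

variable {Ω : Type} [OmType Ω] (M : MadData Ω)

theorem cls_cases (j : ℕ) : M.cls j = j ∨ M.c (M.cls j) j = true := by
  exact Nat.sInf_mem (s := {n | n = j ∨ M.c n j = true}) ⟨j, Or.inl rfl⟩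

theorem cls_le {n j : ℕ} (h : M.c n j = true) : M.cls j ≤ n := by
  exact Nat.sInf_le (s := {n | n = j ∨ M.c n j = true}) (Or.inr h)

theorem cls_infinite (n : ℕ) : {j | M.cls j = n}.Infinite := by
  obtain ⟨a, ha⟩ := M.c_mem n
  have h1 : (⋃ m ∈ Finset.range n, {j | M.c n j = true} ∩ {j | M.c m j = true}).Finite := by
    refine Set.Finite.biUnion (Finset.finite_toSet _) fun m hm => ?_
    obtain ⟨b, hb⟩ := M.c_mem m
    refine M.ad a b _ ha _ hb fun h => ?_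
    have h2 := M.c_inj h
    have h3 : m < n := by simpa using hm
    omega
  have h2 := (M.inf a _ ha).sdiff (h1.union (Set.finite_Iio n))
  refine h2.mono ?_
  rintro j ⟨hj1, hj2⟩
  show M.cls j = n
  have hj1' : M.c n j = true := hj1
  have hj3 : ¬ j < n := fun h => hj2 (Or.inr h)
  have hj4 : ∀ m, m < n → M.c m j ≠ true := by
    intro m hm hc
    refine hj2 (Or.inl ?_)
    simp only [Set.mem_iUnion]
    exact ⟨m, Finset.mem_range.2 hm, hj1, hc⟩
  refine le_antisymm (cls_le M hj1') ?_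
  by_contra hlt
  push Not at hlt
  rcases cls_cases M j with h | h
  · omega
  · exact hj4 _ hlt h

theorem cls_pi (ζ : Ω) (p : ℕ → Bool) (k : ℕ) : M.cls (M.pi ζ p k) = M.dn ζ p k := by
  exact Nat.nth_mem_of_infinite (p := fun j => M.cls j = M.dn ζ p k)
    (cls_infinite M (M.dn ζ p k)) k

theorem le_pi (ζ : Ω) (p : ℕ → Bool) (k : ℕ) : k ≤ M.pi ζ p k := by
  exact (Nat.nth_strictMono (p := fun j => M.cls j = M.dn ζ p k)
    (cls_infinite M (M.dn ζ p k))).le_apply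

theorem pi_inj (ζ : Ω) (p : ℕ → Bool) : Function.Injective (M.pi ζ p) := by
  intro k k' h
  have h1 : M.dn ζ p k = M.dn ζ p k' := by
    rw [← cls_pi, ← cls_pi, h]
  unfold MadData.pi at h
  rw [← h1] at h
  exact Nat.nth_injective (p := fun j => M.cls j = M.dn ζ p k)
    (cls_infinite M (M.dn ζ p k)) h

theorem dn_congr (ζ : Ω) (p q : ℕ → Bool) (k : ℕ) (h : ∀ i, i < k → p i = q i) :
    M.dn ζ p k = M.dn ζ q k := by
  have key : ∀ p q : ℕ → Bool, (∀ i, i < k → p i = q i) → M.dn ζ p k ≤ M.dn ζ q k := by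
    intro p q h
    have h1 : M.dn ζ q k = k ∨ M.ph ζ k (M.dn ζ q k) ≠ q (M.dn ζ q k) :=
      Nat.sInf_mem (s := {i | i = k ∨ M.ph ζ k i ≠ q i}) ⟨k, Or.inl rfl⟩
    have h2 : M.dn ζ q k ≤ k := Nat.sInf_le (s := {i | i = k ∨ M.ph ζ k i ≠ q i}) (Or.inl rfl)
    refine Nat.sInf_le (s := {i | i = k ∨ M.ph ζ k i ≠ p i}) ?_
    rcases h2.eq_or_lt with h3 | h3
    · exact Or.inl h3
    · rcases h1 with h4 | h4
      · exact Or.inl h4
      · refine Or.inr ?_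
        rw [h _ h3]
        exact h4
  exact le_antisymm (key p q h) (key q p fun i hi => (h i hi).symm)

theorem pi_dep (ζ : Ω) (p q : ℕ → Bool) (k : ℕ) (h : ∀ i, i < k → p i = q i) :
    M.pi ζ p k = M.pi ζ q k := by
  unfold MadData.pi
  rw [dn_congr M ζ p q k h]

theorem ph_eq {ζ : Ω} {p : ℕ → Bool} {k i : ℕ} (h : i < M.dn ζ p k) : M.ph ζ k i = p i := by
  have h1 : ¬ (i = k ∨ M.ph ζ k i ≠ p i) :=
    Nat.notMem_of_lt_sInf (s := {i | i = k ∨ M.ph ζ k i ≠ p i}) h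
  by_contra h2
  exact h1 (Or.inr h2)

theorem le_dn {ζ : Ω} {p : ℕ → Bool} {k n : ℕ} (hn : n ≤ k) (h : ∀ i, i < n → M.ph ζ k i = p i) :
    n ≤ M.dn ζ p k := by
  by_contra hlt
  push Not at hlt
  have h1 : M.dn ζ p k = k ∨ M.ph ζ k (M.dn ζ p k) ≠ p (M.dn ζ p k) :=
    Nat.sInf_mem (s := {i | i = k ∨ M.ph ζ k i ≠ p i}) ⟨k, Or.inl rfl⟩
  rcases h1 with h2 | h2
  · omega
  · exact h2 (h _ hlt)

theorem mem_fin {y : ℕ → Bool} (hy : M.Mem y) (n : ℕ) :
    {j | y j = true ∧ M.cls j = n}.Finite := by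
  obtain ⟨⟨a, ha⟩, hc⟩ := hy
  obtain ⟨b, hb⟩ := M.c_mem n
  have h1 := M.ad a b y ha _ hb (hc n)
  refine (h1.union (Set.finite_singleton n)).subset ?_
  rintro j ⟨hj1, hj2⟩
  rcases cls_cases M j with h | h
  · right
    show j = n
    rw [← hj2, h]
  · left
    rw [hj2] at h
    exact ⟨hj1, h⟩

theorem dn_fin {y : ℕ → Bool} (hy : M.Mem y) (ζ : Ω) (p : ℕ → Bool) (n : ℕ) :
    {k | y (M.pi ζ p k) = true ∧ M.dn ζ p k = n}.Finite := by
  refine ((mem_fin M hy n).preimage (pi_inj M ζ p).injOn).subset ?_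
  rintro k ⟨hk1, hk2⟩
  refine ⟨hk1, ?_⟩
  show M.cls (M.pi ζ p k) = n
  rw [cls_pi]
  exact hk2

theorem conv {ζ : Ω} {p : ℕ → Bool} {w : Set ℕ} (hw : w.Infinite)
    (h : ∀ n, {k ∈ w | M.dn ζ p k = n}.Finite) :
    ∃ y, M.Mem y ∧ {k ∈ w | y (M.pi ζ p k) = true}.Infinite := by
  have hz : (M.pi ζ p '' w).Infinite := hw.image (pi_inj M ζ p).injOn
  obtain ⟨a, x, hx, hinf⟩ := M.mad _ hz
  have h1 : {k ∈ w | x (M.pi ζ p k) = true}.Infinite := by
    intro hfin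
    refine hinf ((hfin.image (M.pi ζ p)).subset ?_)
    rintro _ ⟨hj1, k, hk, rfl⟩
    exact ⟨k, ⟨hk, hj1⟩, rfl⟩
  refine ⟨x, ⟨⟨a, hx⟩, ?_⟩, h1⟩
  intro n hn
  refine h1 ?_
  have h2 : (⋃ m ∈ Finset.range (n + 1), {k ∈ w | M.dn ζ p k = m}).Finite :=
    Set.Finite.biUnion (Finset.finite_toSet _) fun m _ => h m
  refine h2.subset ?_
  rintro k ⟨hk1, hk2⟩
  rw [hn] at hk2
  have h3 := cls_le M hk2
  rw [cls_pi] at h3
  simp only [Set.mem_iUnion]
  exact ⟨M.dn ζ p k, Finset.mem_range.2 (Nat.lt_succ_of_le h3), hk1, rfl⟩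

theorem mem_of_valid {E : Ent Ω} (hE : M.Valid E) : M.Mem E.y := by
  have h1 := (M.V_iff E.a E.y).1 ⟨E.f, hE⟩
  exact ⟨⟨E.a, h1.1⟩, h1.2⟩

theorem code {y : ℕ → Bool} (hy : M.Mem y) (p : ℕ → Bool) :
    ∃ a f, y ∈ M.B a ∧ M.Valid ⟨a, p, y, f⟩ := by
  obtain ⟨⟨a, ha⟩, hc⟩ := hy
  obtain ⟨f, hf⟩ := (M.V_iff a y).2 ⟨ha, hc⟩
  exact ⟨a, f, ha, hf⟩

end Pool.Agent.H60.BS
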