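import Pool.Agent.H60.BS.MBas
import Pool.Agent.H60.BS.Ext

/-!
# MMad: branches; the levels are maximal (about 90 lines)

PROOF of `branch`. By recursion choose `p`: the set `A n = {k ∈ u | ∀ i < n, f k i = p i}` has `Φ`;
it is the union of the two sets where moreover `f k n = false` resp. `true`, so `p n` can be chosen
such that `Φ (A (n+1))`.

PROOF of `xs_mad`. `branch` for `Φ A = A.Infinite` and `f = ph ζ` gives `p` with all
`A n = {k ∈ u | ∀ i < n, ph ζ k i = p i}` infinite. Let `w` be a pseudo-intersection of the `A n`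
with `w ⊆ A 0 = u` (`exists_pseudo`). For `k ∈ w ∩ A (n+1)`, `k ≥ n+1`: `n < dn ζ p k` (`le_dn`). So
`{k ∈ w | dn ζ p k = n}` is finite. Now `conv` and `code`.

PROOF of `pos_union`: if `A` and `B` are not positive then they are almost covered by finite sets
`s`, `s'` of valid entries, and `A ∪ B` is almost covered by `s ∪ s'`.
-/

set_option autoImplicit false

open Set

namespace Pool.Agent.H60.BS

variable {Ω : Type} [OmType Ω]

theorem branch (Φ : Set ℕ → Prop) (hΦ : ∀ A B, Φ (A ∪ B) → Φ A ∨ Φ B) {u : Set ℕ} (hu : Φ u)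
    (f : ℕ → ℕ → Bool) : ∃ p : ℕ → Bool, ∀ n, Φ {k ∈ u | ∀ i, i < n → f k i = p i} := by
  classical
  let q : Set ℕ → ℕ → Bool := fun A n => if Φ (A ∩ {k | f k n = true}) then true else false
  let A : ℕ → Set ℕ := fun n => Nat.rec u (fun n A => A ∩ {k | f k n = q A n}) n
  have hA0 : A 0 = u := rfl
  have hAs : ∀ n, A (n + 1) = A n ∩ {k | f k n = q (A n) n} := fun n => rfl
  have hstep : ∀ (B : Set ℕ) (n : ℕ), Φ B → Φ (B ∩ {k | f k n = q B n}) := by
    intro B n hB
    by_cases h : Φ (B ∩ {k | f k n = true})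
    · have h1 : q B n = true := if_pos h
      rw [h1]
      exact h
    · have h1 : q B n = false := if_neg h
      rw [h1]
      have h2 : B = (B ∩ {k | f k n = true}) ∪ (B ∩ {k | f k n = false}) := by
        ext k
        cases hk : f k n <;> simp [hk]
      rw [h2] at hB
      exact (hΦ _ _ hB).resolve_left h
  have hΦA : ∀ n, Φ (A n) := by
    intro n
    induction n with
    | zero => exact hu
    | succ n ih =>
      rw [hAs]
      exact hstep _ _ ih
  refine ⟨fun n => q (A n) n, fun n => ?_⟩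
  have hmem : ∀ n k, k ∈ A n ↔ k ∈ u ∧ ∀ i, i < n → f k i = q (A i) i := by
    intro n k
    induction n with
    | zero =>
      rw [hA0]
      exact ⟨fun h => ⟨h, fun i hi => absurd hi (Nat.not_lt_zero i)⟩, fun h => h.1⟩
    | succ n ih =>
      rw [hAs, mem_inter_iff, ih, mem_ofPred_eq]
      constructor
      · rintro ⟨⟨h1, h2⟩, h3⟩
        refine ⟨h1, fun i hi => ?_⟩
        rcases Nat.lt_succ_iff_lt_or_eq.mp hi with h | h
        · exact h2 i h
        · rw [h]
          exact h3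
      · rintro ⟨h1, h2⟩
        exact ⟨⟨h1, fun i hi => h2 i (by omega)⟩, h2 n (by omega)⟩
  have h1 : {k ∈ u | ∀ i, i < n → f k i = q (A i) i} = A n := by
    ext k
    rw [hmem]
    rfl
  show Φ {k ∈ u | ∀ i, i < n → f k i = q (A i) i}
  rw [h1]
  exact hΦA n

theorem xs_mad (M : MadData Ω) (ζ : Ω) {u : Set ℕ} (hu : u.Infinite) :
    ∃ E, M.Valid E ∧ (u ∩ M.xs ζ E).Infinite := by
  obtain ⟨p, hp⟩ := branch (fun A : Set ℕ => A.Infinite) (fun A B h => infinite_union.mp h) hu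
    (M.ph ζ)
  obtain ⟨v, hv0, hvinf, hvfin⟩ := exists_pseudo
    (fun n => {k ∈ u | ∀ i, i < n → M.ph ζ k i = p i})
    (fun n k hk => ⟨hk.1, fun i hi => hk.2 i (by omega)⟩) hp
  have hvu : v ⊆ u := fun k hk => (hv0 hk).1
  have hfin : ∀ n, {k ∈ v | M.dn ζ p k = n}.Finite := by
    intro n
    refine ((hvfin (n + 1)).union (finite_lt_nat (n + 1))).subset ?_
    rintro k ⟨hkv, hkn⟩
    by_cases h1 : k < n + 1
    · exact Or.inr h1
    · left
      refine ⟨hkv, fun hk => ?_⟩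
      have h2 : n + 1 ≤ M.dn ζ p k := le_dn M (by omega) hk.2
      omega
  obtain ⟨y, hy, hyinf⟩ := conv M hvinf hfin
  obtain ⟨a, f, -, hval⟩ := code M hy p
  refine ⟨⟨a, p, y, f⟩, hval, hyinf.mono ?_⟩
  rintro k ⟨hkv, hky⟩
  exact ⟨hvu hkv, hky⟩

theorem pos_union (M : MadData Ω) (ζ : Ω) (A B : Set ℕ) (h : M.Pos ζ (A ∪ B)) :
    M.Pos ζ A ∨ M.Pos ζ B := by
  by_contra hcon
  rw [not_or] at hcon
  obtain ⟨hA, hB⟩ := hcon
  unfold MadData.Pos at hA hB
  push Not at hA hB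
  obtain ⟨s, hs, hsv, hsA⟩ := hA
  obtain ⟨t, ht, htv, htB⟩ := hB
  have h1 := h (s ∪ t) (hs.union ht) (fun E hE => hE.elim (hsv E) (htv E))
  apply h1
  refine (hsA.union htB).subset ?_
  rintro k ⟨hk, hkn⟩
  rcases hk with hk | hk
  · left
    refine ⟨hk, fun h2 => hkn ?_⟩
    obtain ⟨E, hE, hkE⟩ := mem_iUnion₂.mp h2
    exact mem_iUnion₂.mpr ⟨E, Or.inl hE, hkE⟩
  · right
    refine ⟨hk, fun h2 => hkn ?_⟩
    obtain ⟨E, hE, hkE⟩ := mem_iUnion₂.mp h2
    exact mem_iUnion₂.mpr ⟨E, Or.inr hE, hkE⟩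

end Pool.Agent.H60.BS
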