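import Pool.Agent.H60.BS.MMad
import Pool.Agent.H60.BS.MAd

/-!
# MUnb: many members over one branch, and a small set (about 130 lines)

PROOF of `manyY`. `branch` for `Φ = M.Pos ζ` (`pos_union`) and `f = ph ζ` gives `p` with all
`A n = {k ∈ v | ∀ i < n, ph ζ k i = p i}` positive. Suppose the set `Y` in the claim is finite. For
`y ∈ Y` choose (`code`) a valid entry with `p` and `y`; let `s` be the finite set of these. All
`A n \ ⋃ E ∈ s, xs ζ E` are infinite and decreasing; let `w` be a pseudo-intersection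
(`exists_pseudo`) contained in the first one. As in `MMad.xs_mad`, `{k ∈ w | dn ζ p k = n}` is finite
for all `n` (`le_dn`), so `conv` gives `y` with `M.Mem y` and `{k ∈ w | y (pi ζ p k) = true}`
infinite; so `y ∈ Y`; but `w` is disjoint from `xs ζ E` for the chosen entry `E` of `y`. Contradiction.

PROOF of `exists_t`. `t = {j | ∃ i k, k ∈ v ∧ j = pi ζ p k ∧ Y i j = true ∧ i ≤ cls j}`.
* `{j ∈ t | cls j = n} ⊆ ⋃ i ≤ n, {j | Y i j = true ∧ cls j = n}`: finite by `mem_fin`.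
* `{j ∈ t | Y i j = true}` contains
  `{j | ∃ k ∈ v, j = pi ζ p k ∧ Y i j = true} \ ⋃ n < i, {j | Y i j = true ∧ cls j = n}`, which is
  infinite: the first set is the image of an infinite set under the injective map `pi ζ p`.
-/

set_option autoImplicit false

open Set

namespace Pool.Agent.H60.BS

variable {Ω : Type} [OmType Ω] (M : MadData Ω)

theorem manyY {ζ : Ω} {v : Set ℕ} (hv : M.Pos ζ v) :
    ∃ p : ℕ → Bool, {y | M.Mem y ∧ {k ∈ v | y (M.pi ζ p k) = true}.Infinite}.Infinite := by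
  classical
  obtain ⟨p, hp⟩ := branch (fun A => M.Pos ζ A) (pos_union M ζ) hv (M.ph ζ)
  refine ⟨p, ?_⟩
  by_contra hfin
  rw [Set.not_infinite] at hfin
  have hcode : ∀ y, y ∈ {y | M.Mem y ∧ {k ∈ v | y (M.pi ζ p k) = true}.Infinite} →
      ∃ E : Ent Ω, M.Valid E ∧ E.p = p ∧ E.y = y := by
    intro y hy
    obtain ⟨a, f, _, h2⟩ := code M hy.1 p
    exact ⟨⟨a, p, y, f⟩, h2, rfl, rfl⟩
  have hne : Nonempty (Ent Ω) :=
    ⟨⟨Classical.arbitrary Ω, fun _ => false, fun _ => false, fun _ => 0⟩⟩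
  choose! E hE1 hE2 hE3 using hcode
  let s : Set (Ent Ω) := E '' {y | M.Mem y ∧ {k ∈ v | y (M.pi ζ p k) = true}.Infinite}
  have hs : s.Finite := hfin.image E
  have hsv : ∀ F ∈ s, M.Valid F := by
    rintro _ ⟨y, hy, rfl⟩
    exact hE1 y hy
  let D : ℕ → Set ℕ := fun n => {k ∈ v | ∀ i, i < n → M.ph ζ k i = p i} \ ⋃ F ∈ s, M.xs ζ F
  have hD : ∀ n, (D n).Infinite := fun n => hp n s hs hsv
  have hDanti : ∀ n, D (n + 1) ⊆ D n := by
    intro n k hk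
    exact ⟨⟨hk.1.1, fun i hi => hk.1.2 i (Nat.lt_succ_of_lt hi)⟩, hk.2⟩
  obtain ⟨w, hw0, hwinf, hw⟩ := exists_pseudo D hDanti hD
  have hdn : ∀ n, {k ∈ w | M.dn ζ p k = n}.Finite := by
    intro n
    refine ((hw (n + 1)).union (Set.finite_Iio (n + 1))).subset ?_
    intro k hk
    by_cases hkn : k < n + 1
    · exact Or.inr hkn
    · left
      refine ⟨hk.1, fun hkD => ?_⟩
      have h1 := le_dn M (n := n + 1) (not_lt.1 hkn) hkD.1.2
      have h2 : M.dn ζ p k = n := hk.2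
      omega
  obtain ⟨y, hy1, hy2⟩ := conv M hwinf hdn
  have hyY : y ∈ {y | M.Mem y ∧ {k ∈ v | y (M.pi ζ p k) = true}.Infinite} := by
    refine ⟨hy1, hy2.mono ?_⟩
    intro k hk
    exact ⟨(hw0 hk.1).1.1, hk.2⟩
  obtain ⟨k, hk⟩ := hy2.nonempty
  apply (hw0 hk.1).2
  rw [mem_iUnion₂]
  refine ⟨E y, ⟨y, hyY, rfl⟩, ?_⟩
  show (E y).y (M.pi ζ (E y).p k) = true
  rw [hE2 y hyY, hE3 y hyY]
  exact hk.2

theorem exists_t {ζ : Ω} {v : Set ℕ} (p : ℕ → Bool) (Y : ℕ → ℕ → Bool) (hY : ∀ i, M.Mem (Y i))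
    (hY2 : ∀ i, {k ∈ v | Y i (M.pi ζ p k) = true}.Infinite) :
    ∃ t : Set ℕ, t ⊆ M.pi ζ p '' v ∧ (∀ n, {j ∈ t | M.cls j = n}.Finite) ∧
      ∀ i, {j ∈ t | Y i j = true}.Infinite := by
  refine ⟨{j | ∃ i k, k ∈ v ∧ j = M.pi ζ p k ∧ Y i j = true ∧ i ≤ M.cls j}, ?_, ?_, ?_⟩
  · rintro j ⟨i, k, hk, rfl, _, _⟩
    exact ⟨k, hk, rfl⟩
  · intro n
    have h1 : (⋃ i ∈ Iic n, {j | Y i j = true ∧ M.cls j = n}).Finite :=
      (Set.finite_Iic n).biUnion (fun i _ => mem_fin M (hY i) n)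
    refine h1.subset ?_
    rintro j ⟨⟨i, k, hk, hj, hYj, hi⟩, hn⟩
    rw [mem_iUnion₂]
    exact ⟨i, (by rw [mem_Iic]; exact hi.trans (le_of_eq hn)), hYj, hn⟩
  · intro i
    have h1 : (⋃ n ∈ Iio i, {j | Y i j = true ∧ M.cls j = n}).Finite :=
      (Set.finite_Iio i).biUnion (fun n _ => mem_fin M (hY i) n)
    have h2 : (M.pi ζ p '' {k ∈ v | Y i (M.pi ζ p k) = true}).Infinite :=
      (hY2 i).image (pi_inj M ζ p).injOn
    refine (h2.sdiff h1).mono ?_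
    rintro j ⟨⟨k, hk, rfl⟩, hj⟩
    refine ⟨⟨i, k, hk.1, rfl, hk.2, ?_⟩, hk.2⟩
    by_contra hlt
    apply hj
    rw [mem_iUnion₂]
    exact ⟨M.cls (M.pi ζ p k), not_le.1 hlt, hk.2, rfl⟩

end Pool.Agent.H60.BS
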