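import Pool.Agent.H60.BS.NoBor

/-!
# Trans: no Borel family is mad on an infinite set (about 120 lines)

PROOF. Let `θ` be the increasing enumeration of `t` (`Nat.nth (· ∈ t)` or
`Nat.orderEmbeddingOfSet`), `ρ x = x ∘ θ`, continuous. `Bt = {x ∈ B | {j ∈ t | x j = true}.Infinite}` is
Borel (as in `AD/Upper.lean`, `measurableSet_infinite`, or: `∀ n, ∃ m ≥ n, m ∈ t ∧ x m = true`). `ρ` is
injective on `Bt`: if `x ≠ x'` in `Bt` and `x ∘ θ = x' ∘ θ`, then `{x} ∩ {x'} ⊇ {j ∈ t | x j = true}` is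
infinite, against `had`. By Lusin-Souslin (`MeasurableSet.image_of_measurable_injOn` or
`MeasurableSet.image_of_continuousOn_injOn`, `PolishSpace (ℕ → Bool)` is `AD.polish` in
`AD/Upper.lean`) `B' = ρ '' Bt` is Borel. `UnionMad {B'}` (`⋃₀ {B'} = B'`):
* infinite: `ρ` is injective on the infinite set `{x ∈ B | ...}` from `hinf`.
* `mem_infinite`: `{n | x (θ n) = true}` is the preimage of `{j ∈ t | x j = true}` under the bijection
  `θ : ℕ → t`.
* `almost_disjoint`: `x ∘ θ ≠ x' ∘ θ` gives `x ≠ x'`; `θ` is injective and maps the intersection into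
  the finite set `{x} ∩ {x'}`.
* `maximal`: for infinite `z` the set `θ '' {n | z n = true} ⊆ t` is infinite; `hmax` gives `x ∈ B`;
  `x ∈ Bt`, and `{n | x (θ n) = true} ∩ z` is infinite.
This contradicts `no_borel_mad`.
-/

set_option autoImplicit false

open Set

namespace Pool.Agent.H60.BS

private theorem meas_inf (t : Set ℕ) :
    MeasurableSet {x : ℕ → Bool | {j ∈ t | x j = true}.Infinite} := by
  have h : {x : ℕ → Bool | {j ∈ t | x j = true}.Infinite} =
      ⋂ n : ℕ, ⋃ m ∈ {m : ℕ | n ≤ m ∧ m ∈ t}, {x : ℕ → Bool | x m = true} := by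
    ext x
    rw [mem_iInter, mem_ofPred_eq]
    constructor
    · intro hx n
      rw [mem_iUnion₂]
      obtain ⟨m, hm, hnm⟩ := hx.exists_gt n
      exact ⟨m, ⟨hnm.le, hm.1⟩, hm.2⟩
    · intro hx
      refine Set.infinite_of_forall_exists_gt fun n => ?_
      have h1 := hx (n + 1)
      rw [mem_iUnion₂] at h1
      obtain ⟨m, ⟨hnm, hmt⟩, hm⟩ := h1
      exact ⟨m, ⟨hmt, hm⟩, hnm⟩
  rw [h]
  refine MeasurableSet.iInter fun n => ?_
  refine MeasurableSet.biUnion (Set.to_countable _) fun m _ => ?_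
  exact measurableSet_eq_fun (measurable_pi_apply m) measurable_const

theorem transport {B : Set (ℕ → Bool)} (hB : MeasurableSet B)
    (had : ∀ x ∈ B, ∀ y ∈ B, x ≠ y → ({n | x n = true} ∩ {n | y n = true}).Finite)
    {t : Set ℕ} (hinf : {x ∈ B | {j ∈ t | x j = true}.Infinite}.Infinite)
    (hmax : ∀ z : Set ℕ, z ⊆ t → z.Infinite → ∃ x ∈ B, ({n | x n = true} ∩ z).Infinite) :
    False := by
  classical
  have htinf : t.Infinite := by
    obtain ⟨x, hx⟩ := hinf.nonempty
    exact hx.2.mono (fun j hj => hj.1)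
  have : Infinite t := htinf.to_subtype
  let θ : ℕ → ℕ := fun n => Nat.nth (· ∈ t) n
  have hθm : StrictMono θ := Nat.nth_strictMono htinf
  have hθt : ∀ n, θ n ∈ t := fun n => Nat.nth_mem_of_infinite htinf n
  have hθs : ∀ j ∈ t, ∃ n, θ n = j := by
    intro j hj
    have h1 : j ∈ range (Nat.nth (· ∈ t)) := by
      rw [Nat.range_nth_of_infinite (p := fun x => x ∈ t) htinf]
      exact hj
    exact h1
  let ρ : (ℕ → Bool) → (ℕ → Bool) := fun x n => x (θ n)
  have hρ : Continuous ρ := continuous_pi fun n => continuous_apply (θ n)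
  let Bt : Set (ℕ → Bool) := {x ∈ B | {j ∈ t | x j = true}.Infinite}
  have hBt : MeasurableSet Bt := hB.inter (meas_inf t)
  have hset : ∀ x : ℕ → Bool, θ '' {n | ρ x n = true} = {j ∈ t | x j = true} := by
    intro x
    ext j
    constructor
    · rintro ⟨n, hn, rfl⟩
      exact ⟨hθt n, hn⟩
    · rintro ⟨hj, hx⟩
      obtain ⟨n, rfl⟩ := hθs j hj
      exact ⟨n, hx, rfl⟩
  have hinj : InjOn ρ Bt := by
    intro x hx x' hx' heq
    by_contra hne
    refine hx.2 ((had x hx.1 x' hx'.1 hne).subset ?_)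
    rintro j ⟨hjt, hj⟩
    obtain ⟨n, rfl⟩ := hθs j hjt
    refine ⟨hj, ?_⟩
    have h1 : ρ x n = ρ x' n := congrFun heq n
    show x' (θ n) = true
    have h2 : x (θ n) = x' (θ n) := h1
    rw [← h2]
    exact hj
  have hcm : TopologicalSpace.IsCompletelyMetrizableSpace (ℕ → Bool) := inferInstance
  have hpol : PolishSpace (ℕ → Bool) := by constructor
  have hB' : MeasurableSet (ρ '' Bt) := hBt.image_of_continuousOn_injOn hρ.continuousOn hinj
  refine no_borel_mad hB' ⟨?_, ?_, ?_, ?_⟩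
  · rw [sUnion_singleton]
    exact hinf.image hinj
  · rw [sUnion_singleton]
    rintro _ ⟨x, hx, rfl⟩
    have h1 : (θ '' {n | ρ x n = true}).Infinite := by
      rw [hset]; exact hx.2
    exact h1.of_image θ
  · rw [sUnion_singleton]
    rintro _ ⟨x, hx, rfl⟩ _ ⟨y, hy, rfl⟩ hne
    have hxy : x ≠ y := fun h => hne (by rw [h])
    have h1 := had x hx.1 y hy.1 hxy
    have h2 : (θ '' ({n | ρ x n = true} ∩ {n | ρ y n = true})).Finite := by
      refine h1.subset ?_
      rintro _ ⟨n, ⟨hn1, hn2⟩, rfl⟩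
      exact ⟨hn1, hn2⟩
    exact h2.of_finite_image hθm.injective.injOn
  · rw [sUnion_singleton]
    intro z hz
    have hz' : (θ '' {n | z n = true}).Infinite := hz.image hθm.injective.injOn
    obtain ⟨x, hxB, hx⟩ := hmax (θ '' {n | z n = true}) (by
      rintro _ ⟨n, _, rfl⟩
      exact hθt n) hz'
    have hxt : x ∈ Bt := by
      refine ⟨hxB, hx.mono ?_⟩
      rintro j ⟨hj1, n, _, rfl⟩
      exact ⟨hθt n, hj1⟩
    refine ⟨ρ x, ⟨x, hxt, rfl⟩, ?_⟩
    have h3 : (θ '' ({n | ρ x n = true} ∩ {n | z n = true})).Infinite := by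
      refine hx.mono ?_
      rintro j ⟨hj1, n, hn, rfl⟩
      exact ⟨n, ⟨hj1, hn⟩, rfl⟩
    exact h3.of_image θ

end Pool.Agent.H60.BS
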