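import Pool.Agent.H60.BS.MUnb
import Pool.Agent.H60.BS.Trans

/-!
# MUnb2: unbounded indices (about 80 lines)

PROOF. Suppose that all valid `E` with `v ∩ xs ζ E` infinite have `E.a < β`. `manyY` gives `p` and an
injective sequence `Y` (`Set.Infinite.natEmbedding`) in that infinite set; `exists_t` gives `t`.
Observation (*): if `x` is a member (`x ∈ B a` for some `a`) and `{j ∈ t | x j = true}` is infinite,
then `M.Mem x` and `x ∈ B a'` for some `a' < β`. Indeed if `x = c n` then `cls j ≤ n` for the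
infinitely many `j` (`cls_le`), against `{j ∈ t | cls j = n'}` finite for all `n' ≤ n`. So `M.Mem x`;
`code` gives `E = ⟨a', p, x, f⟩` valid with `x ∈ B a'`, and `v ∩ xs ζ E = {k ∈ v | x (pi ζ p k) = true}` is
infinite, since `pi ζ p` maps it onto a superset of `{j ∈ t | x j = true}` (`t ⊆ pi ζ p '' v`). So
`a' < β`.
Let `B' = ⋃ a < β, B a`, a countable union (`OmType.countable_Iio`), Borel (`M.meas`). Apply
`transport` to `B'` and `t`: `had` from `M.ad`; `hinf`: all `Y i` are in the set by (*) and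
`exists_t`, `Y` is injective; `hmax`: for `z ⊆ t` infinite `M.mad` gives a member `x` with
`{x} ∩ z` infinite, so `{j ∈ t | x j = true}` is infinite, and `x ∈ B'` by (*).
-/

set_option autoImplicit false

open Set

namespace Pool.Agent.H60.BS

variable {Ω : Type} [OmType Ω] (M : MadData Ω)

theorem unbounded {ζ : Ω} {v : Set ℕ} (hv : M.Pos ζ v) (β : Ω) :
    ∃ E, M.Valid E ∧ β ≤ E.a ∧ (v ∩ M.xs ζ E).Infinite := by
  by_contra hcon
  have hcon' : ∀ E, M.Valid E → (v ∩ M.xs ζ E).Infinite → E.a < β := by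
    intro E h1 h2
    by_contra h3
    exact hcon ⟨E, h1, not_lt.1 h3, h2⟩
  obtain ⟨p, hp⟩ := manyY M hv
  obtain ⟨t, ht1, ht2, ht3⟩ := exists_t M p (fun i => ((hp.natEmbedding _ i : _) : ℕ → Bool))
    (fun i => (hp.natEmbedding _ i).2.1) (fun i => (hp.natEmbedding _ i).2.2)
  have hkey : ∀ a x, x ∈ M.B a → {j ∈ t | x j = true}.Infinite → ∃ a', a' < β ∧ x ∈ M.B a' := by
    intro a x hx hinf
    have hmem : M.Mem x := by
      refine ⟨⟨a, hx⟩, ?_⟩
      intro n hn
      apply hinf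
      refine ((finite_Iic n).biUnion fun m _ => ht2 m).subset ?_
      rintro j ⟨hj1, hj2⟩
      have h1 : M.cls j ≤ n := cls_le M (by rw [← hn]; exact hj2)
      simp only [mem_iUnion]
      exact ⟨M.cls j, h1, hj1, rfl⟩
    obtain ⟨a', f, ha', hval⟩ := code M hmem p
    refine ⟨a', hcon' ⟨a', p, x, f⟩ hval ?_, ha'⟩
    have h2 : {j ∈ t | x j = true} ⊆ M.pi ζ p '' (v ∩ M.xs ζ ⟨a', p, x, f⟩) := by
      rintro j ⟨hj1, hj2⟩
      obtain ⟨k, hk, rfl⟩ := ht1 hj1
      exact ⟨k, ⟨hk, hj2⟩, rfl⟩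
    exact (hinf.mono h2).of_image _
  refine transport (B := ⋃ a ∈ Iio β, M.B a) ?_ ?_ (t := t) ?_ ?_
  · exact MeasurableSet.biUnion (OmType.countable_Iio β) fun a _ => M.meas a
  · intro x hx y hy hne
    simp only [mem_iUnion] at hx hy
    obtain ⟨a, _, ha⟩ := hx
    obtain ⟨b, _, hb⟩ := hy
    exact M.ad a b x ha y hb hne
  · refine (Set.infinite_range_of_injective
      (f := fun i => ((hp.natEmbedding _ i : _) : ℕ → Bool)) ?_).mono ?_
    · intro i i' h
      exact (hp.natEmbedding _).injective (Subtype.ext h)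
    · rintro _ ⟨i, rfl⟩
      have h1 := ht3 i
      obtain ⟨a, ha⟩ := (hp.natEmbedding _ i).2.1.1
      obtain ⟨a', ha', hx⟩ := hkey a _ ha h1
      refine ⟨?_, h1⟩
      simp only [mem_iUnion]
      exact ⟨a', ha', hx⟩
  · intro z hz hzinf
    obtain ⟨a, x, hx, hxz⟩ := M.mad z hzinf
    have h1 : {j ∈ t | x j = true}.Infinite := hxz.mono (by
      rintro j ⟨h1, h2⟩
      exact ⟨hz h2, h1⟩)
    obtain ⟨a', ha', hx'⟩ := hkey a x hx h1
    refine ⟨x, ?_, hxz⟩
    simp only [mem_iUnion]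
    exact ⟨a', ha', hx'⟩

end Pool.Agent.H60.BS
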