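import Pool.Agent.H60.BS.Step

/-!
# Mach: the machine exists (about 70 lines)

PROOF. `T` is the type of all nodes: `{t : Path Ω × Ω × Set ℕ // S.IsNode z t.1 t.2.1 t.2.2}`. The
root: the path of valid entries from `S.mad ξ univ`, any level such as the least element: apply
`ext_levels` to `A = ∅`... simply take the level `ssup ∅` (nothing is below it: `ssup_le`), `u = z`.
For a node `t` choose `lam t`, `P1 t`, `u1 t` by `step1`; for `γ > lam t` choose the sequence of
`step2`, and let `nx t γ i` be the node `(P' i, γ, v i)`; for other `γ` let `nx t γ i = t`.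
-/

set_option autoImplicit false

open Set

namespace Pool.Agent.H60.BS

variable {Ω : Type} [OmType Ω]

theorem exists_machine (S : Sys Ω) {z : Set ℕ} (hz : z.Infinite) :
    Nonempty (Machine S.toPre z) := by
  classical
  choose l hl P1 u1 hN1 hag hpos using
    fun t : {t : Path Ω × Ω × Set ℕ // S.IsNode z t.1 t.2.1 t.2.2} => step1 S t.2
  choose P' v hn hag2 hsm using
    fun (t : {t : Path Ω × Ω × Set ℕ // S.IsNode z t.1 t.2.1 t.2.2}) (γ : Ω) (h : l t < γ) =>
      step2 S (hN1 t) (hpos t) h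
  obtain ⟨E, hE, -⟩ := S.mad (ssup (∅ : Set Ω)) univ infinite_univ
  have hroot : S.IsNode z (fun _ => E) (ssup (∅ : Set Ω)) z := by
    refine ⟨fun _ => hE, hz, Subset.rfl, fun ξ hξ => ?_⟩
    exact absurd hξ (not_lt.2 (ssup_le fun a ha => absurd ha (notMem_empty a)))
  let nx : {t : Path Ω × Ω × Set ℕ // S.IsNode z t.1 t.2.1 t.2.2} → Ω → ℕ →
      {t : Path Ω × Ω × Set ℕ // S.IsNode z t.1 t.2.1 t.2.2} := fun t γ i =>
    if h : l t < γ then ⟨(P' t γ h i, γ, v t γ h i), hn t γ h i⟩ else t
  have hnx : ∀ t γ i (h : l t < γ), nx t γ i = ⟨(P' t γ h i, γ, v t γ h i), hn t γ h i⟩ :=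
    fun t γ i h => dif_pos h
  exact ⟨{
    T := {t : Path Ω × Ω × Set ℕ // S.IsNode z t.1 t.2.1 t.2.2}
    root := ⟨(fun _ => E, ssup ∅, z), hroot⟩
    lv := fun t => t.1.2.1
    P := fun t => t.1.1
    lam := l
    P1 := P1
    u1 := u1
    nx := nx
    valid := fun t => t.2.valid
    valid1 := fun t => (hN1 t).valid
    lv_le := hl
    agree1 := hag
    u1_sub := fun t => (hN1 t).sub
    u1_inf := fun t => (hN1 t).infinite
    u1_almost := fun t => (hN1 t).almost
    lv_nx := fun t γ i h => by rw [hnx t γ i h]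
    agree := fun t γ i h ξ hξ => by rw [hnx t γ i h]; exact hag2 t γ h i ξ hξ
    sg_mono := fun t γ h => by
      have e : (fun i => sg γ (nx t γ i).1.1) = fun i => sg γ (P' t γ h i) := by
        funext i
        rw [hnx t γ i h]
      rw [e]
      exact hsm t γ h }⟩

end Pool.Agent.H60.BS
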