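import Pool.Agent.H60.BS.Clo
import Pool.Agent.H60.BS.ESub
import Pool.Agent.H60.BS.Cap

/-!
# SysFin: the closed families form a mad family (about 90 lines)

PROOF. Let `𝒜 = range S.Es`, of cardinality at most `#Ω = ℵ₁` (`Cardinal.mk_range_le`). Every member
is closed in the infinite sets (`Es_closed`). `UnionMad 𝒜`:
* `mem_infinite`: by definition of `Es`.
* `almost_disjoint`: `e_ad` (`x ≠ y` gives `S.e P δ ≠ S.e Q δ'`).
* `maximal`: `capture` for `z`; `x` = the characteristic function of `S.e P δ` (infinite since the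
  intersection is infinite).
* `infinite`: suppose the union is finite. For each member `x` choose `P`, `δ` with
  `{n | x n = true} = S.e P δ`; `S.l0 < δ` (`S.mem_e`), so `{n | x n = true}` is almost contained in
  `xs l0 (P l0)` (`e_sub`), `P l0` valid. Let `s` be the finite set of the entries `P l0`. By
  `S.pos0` the set `w = univ \ ⋃ E ∈ s, xs l0 E` is infinite, so by maximality some member `x` has
  `{n | x n = true} ∩ w` infinite. Contradiction.
Then `csInf_le'`.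
-/

set_option autoImplicit false

open Set Cardinal

namespace Pool.Agent.H60.BS

open Pool.Agent.H60.AD

variable {Ω : Type} [OmType Ω]

private theorem SysFin_sub (S : Sys Ω) {P : Path Ω} {δ : Ω} (hinf : (S.e P δ).Infinite) :
    (S.e P δ \ S.xs S.l0 (P S.l0)).Finite := by
  have hl : S.l0 < δ := by
    obtain ⟨k, hk⟩ := hinf.nonempty
    exact ((S.mem_e P δ k).1 hk).2.1
  refine (e_sub S.toPre hinf hl).subset ?_
  rintro k ⟨h1, h2⟩
  exact ⟨h1, fun h => h2 h.1⟩

private theorem SysFin_max (S : Sys Ω) (z : ℕ → Bool) (hz : {n | z n = true}.Infinite) :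
    ∃ x ∈ ⋃₀ (range S.Es), ({n | x n = true} ∩ {n | z n = true}).Infinite := by
  classical
  obtain ⟨P, hP, δ, hinf⟩ := capture S hz
  have hset : {n | (fun k => decide (k ∈ S.e P δ)) n = true} = S.e P δ := by
    ext n
    simp
  refine ⟨fun k => decide (k ∈ S.e P δ), ⟨S.Es δ, ⟨δ, rfl⟩, ?_, P, hP, hset⟩, ?_⟩
  · rw [hset]
    exact hinf.mono inter_subset_right
  · rw [hset, inter_comm]
    exact hinf

private theorem SysFin_inf (S : Sys Ω) : (⋃₀ (range S.Es)).Infinite := by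
  classical
  intro hfin
  have h1 : ∀ x : ℕ → Bool, x ∈ ⋃₀ (range S.Es) → ∃ P : Path Ω, S.VPath P ∧
      ({n | x n = true} \ S.xs S.l0 (P S.l0)).Finite := by
    rintro x ⟨_, ⟨δ, rfl⟩, hx, P, hP, he⟩
    refine ⟨P, hP, ?_⟩
    rw [he]
    exact SysFin_sub S (he ▸ hx)
  obtain ⟨P0, -⟩ := capture S (z := univ) infinite_univ
  have : Nonempty (Path Ω) := ⟨P0⟩
  choose! F hF using h1
  have hs : ((fun x => F x S.l0) '' (⋃₀ (range S.Es))).Finite := hfin.image _
  have hv : ∀ E ∈ (fun x => F x S.l0) '' (⋃₀ (range S.Es)), S.Valid E := by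
    rintro E ⟨x, hx, rfl⟩
    exact (hF x hx).1 S.l0
  have hw := S.pos0 _ hs hv
  set w : Set ℕ := univ \ ⋃ E ∈ (fun x => F x S.l0) '' (⋃₀ (range S.Es)), S.xs S.l0 E with hwdef
  have hset : {n | (fun k => decide (k ∈ w)) n = true} = w := by
    ext n
    simp
  obtain ⟨x, hx, hxi⟩ := SysFin_max S (fun k => decide (k ∈ w)) (by rw [hset]; exact hw)
  rw [hset] at hxi
  refine hxi ((hF x hx).2.subset ?_)
  rintro k ⟨hk1, hk2⟩
  refine ⟨hk1, fun h => hk2.2 ?_⟩
  simp only [mem_iUnion]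
  exact ⟨F x S.l0, ⟨x, hx, rfl⟩, h⟩

theorem aClosed_le (S : Sys Ω) (hΩ : #Ω = ℵ₁) : aClosed ≤ ℵ₁ := by
  have hcard : #(range S.Es) ≤ ℵ₁ := hΩ ▸ Cardinal.mk_range_le
  refine le_trans (csInf_le' ⟨range S.Es, rfl, ?_, ?_⟩) hcard
  · rintro _ ⟨δ, rfl⟩
    exact Es_closed S δ
  · refine ⟨SysFin_inf S, ?_, ?_, SysFin_max S⟩
    · rintro x ⟨_, ⟨δ, rfl⟩, hx, _⟩
      exact hx
    · rintro x ⟨_, ⟨δ, rfl⟩, hx, P, hP, heP⟩ y ⟨_, ⟨δ', rfl⟩, hy, Q, hQ, heQ⟩ hne
      rw [heP, heQ]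
      refine e_ad S hP hQ (heP ▸ hx) (heQ ▸ hy) ?_
      intro h
      apply hne
      funext n
      have h1 : {n | x n = true} = {n | y n = true} := by rw [heP, heQ, h]
      have h2 : x n = true ↔ y n = true := Set.ext_iff.1 h1 n
      exact Bool.eq_iff_iff.2 h2

end Pool.Agent.H60.BS
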