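import Pool.Agent.H60.BS.Exi
import Pool.Agent.H60.BS.Build
import Pool.Agent.H60.BS.Card
import Pool.Agent.H60.BS.SysFin

/-!
# Main: `𝔞_Borel = 𝔟 = 𝔰 = ℵ₁` implies `𝔞_closed = ℵ₁`
-/

set_option autoImplicit false

open Set Cardinal

namespace Pool.Agent.H60.BS

open Pool.Agent.H60.AD

theorem main (hb : bCard = ℵ₁) (hs : sCard = ℵ₁) (ha : aBorel = ℵ₁) : aClosed = ℵ₁ := by
  obtain ⟨Ω, _, hΩ⟩ := exists_omType
  obtain ⟨F, hF⟩ := exists_F hΩ hb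
  obtain ⟨M⟩ := exists_mad hΩ ha hs
  obtain ⟨S⟩ := exists_sys M F hF
  exact le_antisymm (aClosed_le S hΩ) (ha ▸ aBorel_le_aClosed)

theorem main2 (hb : bCard = ℵ₁) (hs : sCard = ℵ₁) : aBorel = ℵ₁ ↔ aClosed = ℵ₁ :=
  ⟨main hb hs, fun h => le_antisymm (h ▸ aBorel_le_aClosed) aleph1_le_aBorel⟩

theorem aClosed_le_continuum : aClosed ≤ 𝔠 := by
  obtain ⟨M, hM⟩ := Pool.Agent.H60.AD.exists_mad
  have h0 : aCard ≤ #M := csInf_le' ⟨M, rfl, hM⟩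
  refine aClosed_le_aCard.trans (h0.trans ?_)
  have h1 : #M ≤ #(ℕ → Bool) := mk_set_le M
  refine h1.trans (le_of_eq ?_)
  simp

theorem main3 (hb : bCard = ℵ₁) (hs : sCard = ℵ₁) (h : aClosed ≤ ℵ_ 2) : aBorel = aClosed := by
  rcases lt_or_ge aBorel (ℵ_ 2) with h1 | h1
  · have h2 : aBorel = ℵ₁ := by
      refine le_antisymm ?_ aleph1_le_aBorel
      have h3 : (ℵ_ 2 : Cardinal.{0}) = Order.succ ℵ₁ := by
        rw [Cardinal.succ_aleph]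
        norm_num
      rw [h3] at h1
      exact Order.lt_succ_iff.1 h1
    rw [h2, main hb hs h2]
  · exact le_antisymm aBorel_le_aClosed (h.trans h1)

theorem main4 (hb : bCard = ℵ₁) (hs : sCard = ℵ₁) (h : (𝔠 : Cardinal.{0}) ≤ ℵ_ 2) : aBorel = aClosed :=
  main3 hb hs (aClosed_le_continuum.trans h)

end Pool.Agent.H60.BS
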