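import Pool.Agent.H60.BS.MadDefs
import Pool.Agent.H60.AD.Lower
import Pool.Agent.H60.AD.Upper

/-!
# NoBor: there is no Borel mad family (about 40 lines)

PROOF. `Pool.Agent.H60.AD.parCard_le` for `𝒜 = {B}` gives a family `𝓡₀` of at most one Borel
partition without an infinite almost homogeneous set; but `almostHomog_of_borel` (Galvin-Prikry)
gives an almost homogeneous infinite set for one Borel partition (see the statements in
`AD/Lower.lean`). The σ-algebra on `ℕ → Bool` is `borel` (`BorelSpace.measurable_eq`).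
-/

set_option autoImplicit false

open Set Cardinal

namespace Pool.Agent.H60.BS

open Pool.Agent.H60.AD

theorem no_borel_mad {B : Set (ℕ → Bool)} (hB : MeasurableSet B) : ¬ UnionMad {B} := by
  intro hmad
  have hmeq : borel (ℕ → Bool) = MeasurableSpace.pi := BorelSpace.measurable_eq.symm
  obtain ⟨𝓡, hcard, hR, hW⟩ := parCard_le (𝒜 := {B}) (by
    intro A hA
    rw [mem_singleton_iff.1 hA, hmeq]
    exact hB) hmad
  rw [mk_singleton] at hcard
  obtain ⟨R₀, hR₀, _⟩ := hW univ infinite_univ
  have hsub : 𝓡.Subsingleton := by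
    rw [← Set.subsingleton_coe]
    exact le_one_iff_subsingleton.1 hcard
  obtain ⟨W, hWmem, _⟩ := (almostHomog_of_borel (hR R₀ hR₀)).dense univ infinite_univ
  obtain ⟨hWi, hWh⟩ := hWmem
  obtain ⟨R, hR', hnot⟩ := hW W hWi
  rw [hsub hR' hR₀] at hnot
  exact hnot hWh

theorem aleph1_le_aBorel : ℵ₁ ≤ aBorel := by
  refine le_csInf borel_nonempty ?_
  rintro κ ⟨𝒜, rfl, hA, hmad⟩
  by_contra hlt
  rw [not_le] at hlt
  have hcount : 𝒜.Countable := by
    rw [← le_aleph0_iff_set_countable]
    rw [← succ_aleph0] at hlt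
    exact Order.lt_succ_iff.1 hlt
  have hmeq : borel (ℕ → Bool) = MeasurableSpace.pi := BorelSpace.measurable_eq.symm
  have hB : MeasurableSet (⋃₀ 𝒜) := by
    refine MeasurableSet.sUnion hcount fun A hA' => ?_
    have h1 := hA A hA'
    rwa [hmeq] at h1
  exact no_borel_mad hB (hmad.congr (by rw [sUnion_singleton]))

end Pool.Agent.H60.BS
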