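import Pool.Agent.H60.BS.Ext

/-!
# PPI: positive pseudo-intersections (about 100 lines)

PROOF. Build recursively valid entries `E t` and infinite sets `w t` with
* `w t ⊆ v t ∩ xs ζ (E t)`, `(w t \ v i).Finite` for all `i`, and `E t ≠ E s` for `s < t`.
Given `E s` for `s < t` (a finite set of valid entries), the sets `v i \ ⋃ s < t, xs ζ (E s)`, `i ≥ t`,
are infinite (`Pos`) and decreasing; let `w'` be a pseudo-intersection contained in the first
(`exists_pseudo`, shifted by `t`); for `i < t` also `w' ⊆ v t ⊆ v i`. By `S.mad` there is a valid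
`E t` with `w t = w' ∩ xs ζ (E t)` infinite; `E t ≠ E s` since `w'` is disjoint from `xs ζ (E s)`.
Let `w = ⋃ t, w t`. Then `w ⊆ v 0`, and `w \ v i = ⋃ t < i, (w t \ v i)` is finite. `Pos ζ w`:
given a finite set `s` of valid entries choose `t` with `E t ∉ s` (`E` is injective); then
`w t \ ⋃ E ∈ s, xs ζ E` is infinite, since `w t ⊆ xs ζ (E t)` meets every `xs ζ E`, `E ∈ s`, in a
finite set (`S.ad`).

`Pos.mono`: clear.
-/

set_option autoImplicit false

open Set

namespace Pool.Agent.H60.BS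

variable {Ω : Type} [OmType Ω]

private theorem ppi_step (S : Sys Ω) {ζ : Ω} (v : ℕ → Set ℕ) (hanti : ∀ i, v (i + 1) ⊆ v i)
    (hpos : ∀ i, S.Pos ζ (v i)) (t : ℕ) (F : Set (Ent Ω)) (hF : F.Finite)
    (hFv : ∀ E ∈ F, S.Valid E) :
    ∃ E w, S.Valid E ∧ E ∉ F ∧ w.Infinite ∧ w ⊆ v t ∧ w ⊆ S.xs ζ E ∧ ∀ i, (w \ v i).Finite := by
  have hA : Antitone v := antitone_nat_of_succ_le hanti
  obtain ⟨w', h0, hinf, hfin⟩ := exists_pseudo (fun i => v (t + i) \ ⋃ E ∈ F, S.xs ζ E)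
    (fun i => by
      intro k hk
      exact ⟨hanti (t + i) hk.1, hk.2⟩)
    (fun i => hpos (t + i) F hF hFv)
  obtain ⟨E, hE, hEi⟩ := S.mad ζ w' hinf
  refine ⟨E, w' ∩ S.xs ζ E, hE, ?_, hEi, ?_, inter_subset_right, ?_⟩
  · intro hEF
    obtain ⟨k, hk⟩ := hEi.nonempty
    have h1 := h0 hk.1
    exact h1.2 (mem_biUnion hEF hk.2)
  · intro k hk
    have h1 := h0 hk.1
    exact h1.1
  · intro i
    refine (hfin i).subset ?_
    intro k hk
    refine ⟨hk.1.1, fun hku => hk.2 ?_⟩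
    exact hA (Nat.le_add_left i t) hku.1

theorem Pos_mono (S : Pre Ω) {ζ : Ω} {v w : Set ℕ} (h : S.Pos ζ v) (hvw : v ⊆ w) :
    S.Pos ζ w := by
  intro s hs hv
  refine (h s hs hv).mono ?_
  intro k hk
  exact ⟨hvw hk.1, hk.2⟩

theorem exists_pos_pseudo (S : Sys Ω) {ζ : Ω} (v : ℕ → Set ℕ) (hanti : ∀ i, v (i + 1) ⊆ v i)
    (hpos : ∀ i, S.Pos ζ (v i)) : ∃ w, w ⊆ v 0 ∧ S.Pos ζ w ∧ ∀ i, (w \ v i).Finite := by
  classical
  have hA : Antitone v := antitone_nat_of_succ_le hanti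
  have hstep : ∀ (t : ℕ) (F : {F : Set (Ent Ω) // F.Finite ∧ ∀ E ∈ F, S.Valid E}),
      ∃ E w, S.Valid E ∧ E ∉ F.1 ∧ w.Infinite ∧ w ⊆ v t ∧ w ⊆ S.xs ζ E ∧
        ∀ i, (w \ v i).Finite :=
    fun t F => ppi_step S v hanti hpos t F.1 F.2.1 F.2.2
  choose Ef wf hV hN hI hS hX hD using hstep
  let F : ℕ → {F : Set (Ent Ω) // F.Finite ∧ ∀ E ∈ F, S.Valid E} := fun t =>
    Nat.rec ⟨∅, finite_empty, fun E hE => absurd hE (notMem_empty E)⟩
      (fun t G => ⟨insert (Ef t G) G.1, G.2.1.insert _, fun E hE => by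
        rcases hE with h | h
        · rw [h]; exact hV t G
        · exact G.2.2 E h⟩) t
  have hFs : ∀ t, (F (t + 1)).1 = insert (Ef t (F t)) (F t).1 := fun t => rfl
  have hFm : Monotone fun t => (F t).1 := monotone_nat_of_le_succ fun t => by
    show (F t).1 ⊆ (F (t + 1)).1
    rw [hFs]
    exact subset_insert _ _
  have hne : ∀ s t, s < t → Ef t (F t) ≠ Ef s (F s) := by
    intro s t hst heq
    apply hN t (F t)
    rw [heq]
    have h1 : Ef s (F s) ∈ (F (s + 1)).1 := by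
      rw [hFs]; exact mem_insert _ _
    exact hFm (Nat.succ_le_of_lt hst) h1
  have hinj : Function.Injective fun t => Ef t (F t) := by
    intro a b hab
    have hab' : Ef a (F a) = Ef b (F b) := hab
    rcases lt_trichotomy a b with h | h | h
    · exact absurd hab'.symm (hne a b h)
    · exact h
    · exact absurd hab' (hne b a h)
  refine ⟨⋃ t, wf t (F t), ?_, ?_, ?_⟩
  · intro k hk
    obtain ⟨t, ht⟩ := mem_iUnion.1 hk
    exact hA (Nat.zero_le t) (hS t (F t) ht)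
  · intro s hs hsv
    obtain ⟨t, ht⟩ : ∃ t, Ef t (F t) ∉ s := by
      by_contra hcon
      push Not at hcon
      exact (infinite_range_of_injective hinj) (hs.subset (by
        rintro _ ⟨t, rfl⟩
        exact hcon t))
    have hfin : (wf t (F t) ∩ ⋃ E ∈ s, S.xs ζ E).Finite := by
      refine (hs.biUnion (t := fun E => S.xs ζ (Ef t (F t)) ∩ S.xs ζ E) ?_).subset ?_
      · intro E hE
        exact S.ad ζ _ _ (hV t (F t)) (hsv E hE) (fun h => ht (by rw [h]; exact hE))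
      · intro k hk
        obtain ⟨E, hE, hkE⟩ := mem_iUnion₂.1 hk.2
        exact mem_biUnion hE ⟨hX t (F t) hk.1, hkE⟩
    intro hcon
    apply hI t (F t)
    refine (hcon.union hfin).subset ?_
    intro k hk
    by_cases hkc : k ∈ ⋃ E ∈ s, S.xs ζ E
    · exact Or.inr ⟨hk, hkc⟩
    · exact Or.inl ⟨mem_iUnion.2 ⟨t, hk⟩, hkc⟩
  · intro i
    refine ((finite_Iio i).biUnion (t := fun t => wf t (F t) \ v i)
      (fun t _ => hD t (F t) i)).subset ?_
    intro k hk
    obtain ⟨t, ht⟩ := mem_iUnion.1 hk.1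
    have hti : t < i := by
      by_contra hcon
      exact hk.2 (hA (not_lt.1 hcon) (hS t (F t) ht))
    exact mem_biUnion (mem_Iio.2 hti) ⟨ht, hk.2⟩

end Pool.Agent.H60.BS
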