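import Pool.Agent.H60.BS.PPI

/-!
# Step: the step at a node (about 130 lines)

PROOF of `step1`. Let `l w` be the level from `S.lam` for infinite `w`. Build nodes
`(P n, ζ n, u n)` with `(P 0, ζ 0, u 0) = (P, ζ, u)`; `ζ (n+1)` is above `ζ n` and `≥ l (u n)`
(`noMax`, `max`), and `(P (n+1), ζ (n+1), u (n+1))` is the extension from `node_ext`. Let
`λ = ssup (range ζ')`, `ζ'` the sequence of levels; it is a limit of the `ζ n`: every `ξ < λ` is below
some `ζ n` (`exists_of_lt_ssup` and strict monotonicity). Let `P1 ξ = P n ξ` for any `n` with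
`ξ < ζ n` (they agree), and `P ξ` for `ξ ≥ λ`. All `u n` are `Pos λ` (`λ ≥ ζ (n+1) ≥ l (u n)`). Let `u1`
be from `exists_pos_pseudo` (`Pos` sets are infinite: take `s = ∅`). For `ξ < ζ n` we have
`u1 ⊆* u n ⊆* xs ξ (P n ξ)`.

PROOF of `step2`. Build recursively: given an ordinal `β`, `S.unb` gives a valid `E` with
`β ≤ E.a` and `u1 ∩ xs λ E` infinite. Let `P'` be `P1` with the value at `λ` replaced by `E`
(`Function.update`); it is a node of level `succ λ` in the sense that all `ξ ≤ λ` are almost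
covered; to extend it to `γ` apply `ext_levels` to `A = {ξ | λ < ξ ∧ ξ < γ}` and `u1 ∩ xs λ E`. This
gives `(P'', γ, v)` with `P'' λ = E`, so `sg γ P'' > E.a ≥ β` (`lt_sg`). Take
`β = sg γ (previous path)` for the next one (start with any `β`): strictly increasing
(`strictMono_nat_of_lt_succ`).
-/

set_option autoImplicit false

open Set

namespace Pool.Agent.H60.BS

variable {Ω : Type} [OmType Ω]

theorem step1 (S : Sys Ω) {z : Set ℕ} {P : Path Ω} {ζ : Ω} {u : Set ℕ}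
    (hN : S.IsNode z P ζ u) :
    ∃ l, ζ ≤ l ∧ ∃ P1 u1, S.IsNode z P1 l u1 ∧ (∀ ξ, ξ < ζ → P1 ξ = P ξ) ∧ S.Pos l u1 := by
  classical
  let N : Type := {t : Path Ω × Ω × Set ℕ // S.IsNode z t.1 t.2.1 t.2.2}
  have hstep : ∀ t : N, ∃ t' : N, t.1.2.1 < t'.1.2.1 ∧ (∀ η, t'.1.2.1 ≤ η → S.Pos η t.1.2.2) ∧
      t'.1.2.2 ⊆ t.1.2.2 ∧ ∀ ξ, ξ < t.1.2.1 → t'.1.1 ξ = t.1.1 ξ := by
    rintro ⟨⟨P, ζ, u⟩, hN⟩
    obtain ⟨l, hl⟩ := S.lam u hN.infinite
    obtain ⟨γ, hγ⟩ := noMax (max ζ l)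
    have h1 : ζ < γ := lt_of_le_of_lt (le_max_left _ _) hγ
    have h2 : l < γ := lt_of_le_of_lt (le_max_right _ _) hγ
    obtain ⟨P', v, h3, h4, h5⟩ := node_ext S hN h1.le
    exact ⟨⟨⟨P', γ, v⟩, h3⟩, h1, fun η hη => hl η (h2.le.trans hη), h4, h5⟩
  choose nxt hn1 hn2 hn3 hn4 using hstep
  let F : ℕ → N := fun n => Nat.rec ⟨⟨P, ζ, u⟩, hN⟩ (fun _ t => nxt t) n
  have hF0 : F 0 = ⟨⟨P, ζ, u⟩, hN⟩ := rfl
  have hFs : ∀ n, F (n + 1) = nxt (F n) := fun n => rfl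
  have hζ : StrictMono fun n => (F n).1.2.1 := strictMono_nat_of_lt_succ fun n => by
    rw [hFs]
    exact hn1 _
  have hag : ∀ n ξ, ξ < (F n).1.2.1 → ∀ k, (F (n + k)).1.1 ξ = (F n).1.1 ξ := by
    intro n ξ hξ k
    induction k with
    | zero => rfl
    | succ k ih =>
      have h1 : ξ < (F (n + k)).1.2.1 :=
        lt_of_lt_of_le hξ (hζ.monotone (Nat.le_add_right n k))
      have h2 := hn4 (F (n + k)) ξ h1
      rw [← hFs] at h2
      rw [← ih, ← h2]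
      rfl
  have hc : (range fun n => (F n).1.2.1).Countable := countable_range _
  have hlt : ∀ n, (F n).1.2.1 < ssup (range fun n => (F n).1.2.1) := fun n =>
    lt_ssup hc ⟨n, rfl⟩
  obtain ⟨l, hl⟩ : ∃ l, l = ssup (range fun n => (F n).1.2.1) := ⟨_, rfl⟩
  rw [← hl] at hlt
  have hcof : ∀ ξ, ξ < l → ∃ n, ξ < (F n).1.2.1 := by
    intro ξ hξ
    rw [hl] at hξ
    obtain ⟨_, ⟨n, rfl⟩, h1⟩ := exists_of_lt_ssup hξ
    exact ⟨n + 1, lt_of_le_of_lt h1 (hζ (Nat.lt_succ_self n))⟩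
  let P1 : Path Ω := fun ξ =>
    if h : ∃ n, ξ < (F n).1.2.1 then (F (Nat.find h)).1.1 ξ else P ξ
  have hP1 : ∀ n ξ, ξ < (F n).1.2.1 → P1 ξ = (F n).1.1 ξ := by
    intro n ξ hξ
    have h : ∃ n, ξ < (F n).1.2.1 := ⟨n, hξ⟩
    have h1 : P1 ξ = (F (Nat.find h)).1.1 ξ := dif_pos h
    obtain ⟨k, hk⟩ := Nat.exists_eq_add_of_le (Nat.find_min' h hξ)
    have h2 := hag (Nat.find h) ξ (Nat.find_spec h) k
    rw [← hk] at h2
    rw [h1, h2]
  have hpos : ∀ n, S.Pos l (F n).1.2.2 := by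
    intro n
    refine hn2 (F n) l ?_
    have := hlt (n + 1)
    rw [hFs] at this
    exact this.le
  obtain ⟨w, hw0, hwP, hw⟩ := exists_pos_pseudo S (fun n => (F n).1.2.2)
    (fun n => by
      show (F (n + 1)).1.2.2 ⊆ (F n).1.2.2
      rw [hFs]
      exact hn3 _) hpos
  have hwinf : w.Infinite := by
    have := hwP ∅ finite_empty (fun E hE => absurd hE (notMem_empty E))
    exact this.mono sdiff_subset
  have hw0' : w ⊆ u := hw0
  refine ⟨l, (hlt 0).le, P1, w, ⟨?_, hwinf, hw0'.trans hN.sub, ?_⟩, fun ξ hξ => hP1 0 ξ hξ, hwP⟩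
  · intro ξ
    by_cases h : ∃ n, ξ < (F n).1.2.1
    · obtain ⟨n, hn⟩ := h
      rw [hP1 n ξ hn]
      exact (F n).2.valid ξ
    · have h1 : P1 ξ = P ξ := dif_neg h
      rw [h1]
      exact hN.valid ξ
  · intro ξ hξ
    obtain ⟨n, hn⟩ := hcof ξ hξ
    rw [hP1 n ξ hn]
    refine ((hw n).union ((F n).2.almost ξ hn)).subset ?_
    intro k hk
    by_cases hku : k ∈ (F n).1.2.2
    · exact Or.inr ⟨hku, hk.2⟩
    · exact Or.inl ⟨hk.1, hku⟩

theorem step2 (S : Sys Ω) {z : Set ℕ} {P1 : Path Ω} {l : Ω} {u1 : Set ℕ}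
    (hN : S.IsNode z P1 l u1) (hpos : S.Pos l u1) {γ : Ω} (hγ : l < γ) :
    ∃ (P' : ℕ → Path Ω) (v : ℕ → Set ℕ), (∀ i, S.IsNode z (P' i) γ (v i)) ∧
      (∀ i ξ, ξ < l → P' i ξ = P1 ξ) ∧ StrictMono fun i => sg γ (P' i) := by
  classical
  have key : ∀ β : Ω, ∃ t : Path Ω × Set ℕ, S.IsNode z t.1 γ t.2 ∧
      (∀ ξ, ξ < l → t.1 ξ = P1 ξ) ∧ β < sg γ t.1 := by
    intro β
    obtain ⟨E, hE, hEa, hEi⟩ := S.unb l u1 hpos β
    have hA : {ξ | l < ξ ∧ ξ < γ}.Countable :=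
      (OmType.countable_Iio γ).mono fun ξ hξ => hξ.2
    obtain ⟨Q, hQ, v, hvu, hvinf, hv⟩ := ext_levels S hA hEi
    obtain ⟨R, h1, h2, h3⟩ : ∃ R : Path Ω, (∀ ξ, ξ < l → R ξ = P1 ξ) ∧ R l = E ∧
        ∀ ξ, l < ξ → R ξ = Q ξ := by
      refine ⟨fun ξ => if ξ < l then P1 ξ else if ξ = l then E else Q ξ, fun ξ hξ => if_pos hξ,
        ?_, fun ξ hξ => ?_⟩
      · show (if l < l then P1 l else if l = l then E else Q l) = E
        rw [if_neg (lt_irrefl l), if_pos rfl]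
      · show (if ξ < l then P1 ξ else if ξ = l then E else Q ξ) = Q ξ
        rw [if_neg (not_lt.2 hξ.le), if_neg hξ.ne']
    refine ⟨⟨R, v⟩, ⟨?_, hvinf, (hvu.trans inter_subset_left).trans hN.sub, ?_⟩, h1, ?_⟩
    · intro ξ
      show S.Valid (R ξ)
      rcases lt_trichotomy ξ l with h | h | h
      · rw [h1 ξ h]
        exact hN.valid ξ
      · rw [h, h2]
        exact hE
      · rw [h3 ξ h]
        exact hQ ξ
    · intro ξ hξ
      show (v \ S.xs ξ (R ξ)).Finite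
      rcases lt_trichotomy ξ l with h | h | h
      · rw [h1 ξ h]
        exact (hN.almost ξ h).subset
          (sdiff_subset_sdiff_left (hvu.trans inter_subset_left))
      · rw [h, h2]
        refine finite_empty.subset ?_
        intro k hk
        exact hk.2 (hvu hk.1).2
      · rw [h3 ξ h]
        exact hv ξ ⟨h, hξ⟩
    · show β < sg γ R
      refine lt_of_le_of_lt hEa ?_
      have h4 : E.a ∈ (fun ξ => (R ξ).a) '' Iio γ := ⟨l, hγ, by
        show (R l).a = E.a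
        rw [h2]⟩
      exact lt_ssup ((OmType.countable_Iio γ).image _) h4
  choose t ht1 ht2 ht3 using key
  let G : ℕ → Path Ω × Set ℕ := fun n => Nat.rec (t l) (fun _ x => t (sg γ x.1)) n
  have hG0 : G 0 = t l := rfl
  have hGs : ∀ n, G (n + 1) = t (sg γ (G n).1) := fun n => rfl
  refine ⟨fun i => (G i).1, fun i => (G i).2, ?_, ?_, strictMono_nat_of_lt_succ fun n => ?_⟩
  · intro i
    cases i with
    | zero => exact ht1 l
    | succ i => exact ht1 _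
  · intro i
    cases i with
    | zero => exact ht2 l
    | succ i => exact ht2 _
  · show sg γ (G n).1 < sg γ (G (n + 1)).1
    rw [hGs]
    exact ht3 _

end Pool.Agent.H60.BS
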