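import Pool.Agent.H60.BS.Defs

/-!
# UCode: unique closed codes of Borel sets (about 110 lines)

PROOF. Say `U B` if the conclusion holds for `B`. Let `𝒞` be the class of `B` with `U B` and `U Bᶜ`.
* A clopen `B` has `U B`: `C = {(y, f) | y ∈ B ∧ f = 0}`. In particular `{x | x n = true}` is in `𝒞`.
* `U` is closed under countable intersections: `C = {(y, f) | ∀ n, (y, fun i => f (Nat.pair n i)) ∈
  C n}` (closed; the code is unique since every `m` is a pair).
* `U` is closed under countable disjoint unions: `C = {(y, f) | (y, fun i => f (i + 1)) ∈ C (f 0)}`.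
  It is closed: its complement is the union over `n` of the open sets
  `{(y, f) | f 0 = n ∧ (y, fun i => f (i + 1)) ∉ C n}`.
* So `𝒞` is closed under complements and countable unions: `⋃ B n` is the disjoint union of the sets
  `⋂ m, D n m` with `D n m = (B m)ᶜ` for `m < n` and `D n m = B n` otherwise; and
  `(⋃ B n)ᶜ = ⋂ (B n)ᶜ`.
* The Borel sets of `ℕ → Bool` are generated by the sets `{x | x n = true}`
  (`MeasurableSpace.pi`; `Bool` has the discrete σ-algebra). Use
  `MeasurableSpace.induction_on_inter` or, simpler, define the σ-algebra `𝒞` as a `MeasurableSpace`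
  and show `MeasurableSpace.pi ≤ 𝒞` (`MeasurableSpace.pi = ⨆ n, comap (fun x => x n) ⊤`).
-/

set_option autoImplicit false

open Set

namespace Pool.Agent.H60.BS

/-- The conclusion of the theorem. -/
private def UC (B : Set (ℕ → Bool)) : Prop :=
  ∃ C : Set ((ℕ → Bool) × (ℕ → ℕ)), IsClosed C ∧ (∀ y, (∃ f, (y, f) ∈ C) ↔ y ∈ B) ∧
      ∀ y f f', (y, f) ∈ C → (y, f') ∈ C → f = f'

private theorem UC_clopen {B : Set (ℕ → Bool)} (hB : IsClopen B) : UC B := by
  refine ⟨B ×ˢ {fun _ => 0}, hB.1.prod isClosed_singleton, ?_, ?_⟩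
  · intro y
    constructor
    · rintro ⟨f, hf⟩
      exact hf.1
    · intro h
      exact ⟨fun _ => 0, h, rfl⟩
  · intro y f f' h h'
    exact (h.2 : f = _).trans (h'.2 : f' = _).symm

private theorem UC_iInter {B : ℕ → Set (ℕ → Bool)} (hB : ∀ n, UC (B n)) : UC (⋂ n, B n) := by
  choose C hC1 hC2 hC3 using hB
  refine ⟨⋂ n, (fun q : (ℕ → Bool) × (ℕ → ℕ) => (q.1, fun i => q.2 (Nat.pair n i))) ⁻¹' (C n),
    ?_, ?_, ?_⟩
  · refine isClosed_iInter fun n => (hC1 n).preimage ?_
    fun_prop
  · intro y
    constructor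
    · rintro ⟨f, hf⟩
      rw [mem_iInter] at hf ⊢
      intro n
      exact (hC2 n y).1 ⟨_, hf n⟩
    · intro h
      rw [mem_iInter] at h
      have h1 : ∀ n, ∃ f, (y, f) ∈ C n := fun n => (hC2 n y).2 (h n)
      choose f hf using h1
      refine ⟨fun m => f (Nat.unpair m).1 (Nat.unpair m).2, ?_⟩
      rw [mem_iInter]
      intro n
      show (y, fun i => f (Nat.unpair (Nat.pair n i)).1 (Nat.unpair (Nat.pair n i)).2) ∈ C n
      simp only [Nat.unpair_pair]
      exact hf n
  · intro y f f' h h'
    rw [mem_iInter] at h h'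
    funext m
    have h1 := congrFun (hC3 (Nat.unpair m).1 y _ _ (h (Nat.unpair m).1) (h' (Nat.unpair m).1))
      (Nat.unpair m).2
    simpa only [Nat.pair_unpair] using h1

private theorem UC_iUnion {B : ℕ → Set (ℕ → Bool)} (hB : ∀ n, UC (B n))
    (hd : Pairwise fun m n => Disjoint (B m) (B n)) : UC (⋃ n, B n) := by
  choose C hC1 hC2 hC3 using hB
  refine ⟨{q | (q.1, fun i => q.2 (i + 1)) ∈ C (q.2 0)}, ?_, ?_, ?_⟩
  · rw [← isOpen_compl_iff]
    have h1 : {q : (ℕ → Bool) × (ℕ → ℕ) | (q.1, fun i => q.2 (i + 1)) ∈ C (q.2 0)}ᶜ =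
        ⋃ n : ℕ, ((fun q : (ℕ → Bool) × (ℕ → ℕ) => q.2 0) ⁻¹' {n} ∩
          (fun q : (ℕ → Bool) × (ℕ → ℕ) => (q.1, fun i => q.2 (i + 1))) ⁻¹' (C n)ᶜ) := by
      ext q
      simp only [mem_compl_iff, mem_ofPred_eq, mem_iUnion, mem_inter_iff, mem_preimage,
        mem_singleton_iff]
      constructor
      · intro h
        exact ⟨_, rfl, h⟩
      · rintro ⟨n, hn, h⟩
        rw [hn]
        exact h
    rw [h1]
    refine isOpen_iUnion fun n => IsOpen.inter ?_ ?_
    · exact (isOpen_discrete {n}).preimage (by fun_prop)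
    · exact (hC1 n).isOpen_compl.preimage (by fun_prop)
  · intro y
    constructor
    · rintro ⟨f, hf⟩
      rw [mem_iUnion]
      exact ⟨f 0, (hC2 _ y).1 ⟨_, hf⟩⟩
    · intro h
      obtain ⟨n, hn⟩ := mem_iUnion.1 h
      obtain ⟨f, hf⟩ := (hC2 n y).2 hn
      refine ⟨fun i => Nat.casesOn i n f, ?_⟩
      exact hf
  · intro y f f' h h'
    have h1 : y ∈ B (f 0) := (hC2 _ y).1 ⟨_, h⟩
    have h2 : y ∈ B (f' 0) := (hC2 _ y).1 ⟨_, h'⟩
    have h3 : f 0 = f' 0 := by
      by_contra hne
      exact (disjoint_left.1 (hd hne)) h1 h2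
    have h4 : (y, fun i => f' (i + 1)) ∈ C (f 0) := by
      rw [h3]
      exact h'
    have h5 := hC3 (f 0) y _ _ h h4
    funext m
    cases m with
    | zero => exact h3
    | succ m => exact congrFun h5 m

@[instance_reducible] private def CS : MeasurableSpace (ℕ → Bool) where
  MeasurableSet' B := UC B ∧ UC Bᶜ
  measurableSet_empty := by
    refine ⟨UC_clopen isClopen_empty, ?_⟩
    rw [compl_empty]
    exact UC_clopen isClopen_univ
  measurableSet_compl := by
    intro B hB
    refine ⟨hB.2, ?_⟩
    rw [compl_compl]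
    exact hB.1
  measurableSet_iUnion := by
    classical
    intro f hf
    constructor
    · have h1 : ⋃ n, f n = ⋃ n, ⋂ m, (if m < n then (f m)ᶜ else f n) := by
        ext x
        simp only [mem_iUnion, mem_iInter]
        constructor
        · intro h
          refine ⟨Nat.find h, fun m => ?_⟩
          split_ifs with hm
          · exact Nat.find_min h hm
          · exact Nat.find_spec h
        · rintro ⟨n, hn⟩
          have h2 := hn n
          rw [if_neg (lt_irrefl n)] at h2
          exact ⟨n, h2⟩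
      rw [h1]
      apply UC_iUnion
      · intro n
        apply UC_iInter
        intro m
        split_ifs with hm
        · exact (hf m).2
        · exact (hf n).1
      · have key : ∀ m n : ℕ, m < n →
            Disjoint (⋂ k, (if k < m then (f k)ᶜ else f m)) (⋂ k, (if k < n then (f k)ᶜ else f n)) := by
          intro m n hmn
          rw [disjoint_left]
          intro x hx hx'
          rw [mem_iInter] at hx hx'
          have h2 := hx m
          rw [if_neg (lt_irrefl m)] at h2
          have h3 := hx' m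
          rw [if_pos hmn] at h3
          exact h3 h2
        intro m n hmn
        rcases lt_or_gt_of_ne hmn with h | h
        · exact key m n h
        · exact (key n m h).symm
    · rw [compl_iUnion]
      exact UC_iInter fun n => (hf n).2

theorem exists_code {B : Set (ℕ → Bool)} (hB : MeasurableSet B) :
    ∃ C : Set ((ℕ → Bool) × (ℕ → ℕ)), IsClosed C ∧ (∀ y, (∃ f, (y, f) ∈ C) ↔ y ∈ B) ∧
      ∀ y f f', (y, f) ∈ C → (y, f') ∈ C → f = f' := by
  have hle : (MeasurableSpace.pi : MeasurableSpace (ℕ → Bool)) ≤ CS := by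
    rw [MeasurableSpace.pi]
    refine iSup_le fun n => ?_
    rintro s ⟨t, -, rfl⟩
    have h1 : IsClopen ((fun b : ℕ → Bool => b n) ⁻¹' t) :=
      (isClopen_discrete t).preimage (continuous_apply n)
    exact ⟨UC_clopen h1, UC_clopen h1.compl⟩
  exact (hle B hB).1

end Pool.Agent.H60.BS
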